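import Pool.Agent.W_MP_96500d_co.Main

/-! Translation between graph distances and alternating fences. -/

set_option autoImplicit false
set_option linter.unusedSectionVars false
set_option linter.deprecated false
set_option linter.unusedSimpArgs false

namespace Pool.Agent.Dist96500d

section fence
variable {α β : Type*} [PartialOrder α] [PartialOrder β]

/-- the comparability graph -/
abbrev cg (α : Type*) [PartialOrder α] : SimpleGraph α :=
  SimpleGraph.fromRel (fun x y : α => x ≤ y)

theorem cg_adj {x y : α} : (cg α).Adj x y ↔ x ≠ y ∧ Cmp x y :=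
  SimpleGraph.fromRel_adj _ _ _

theorem edist_le_one {x y : α} (h : Cmp x y) : (cg α).edist x y ≤ 1 := by
  rw [SimpleGraph.edist_le_one_iff_adj_or_eq]
  by_cases hxy : x = y
  · exact Or.inr hxy
  · exact Or.inl (cg_adj.2 ⟨hxy, h⟩)

theorem edist_map {f : α → β} (hf : Monotone f) (x y : α) :
    (cg β).edist (f x) (f y) ≤ (cg α).edist x y := by
  have key : ∀ {x y : α} (p : (cg α).Walk x y), (cg β).edist (f x) (f y) ≤ p.length := by
    intro x y p
    induction p with
    | nil => simp
    | @cons u v w h p ih =>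
      have h1 : (cg β).edist (f u) (f v) ≤ 1 := edist_le_one ((cg_adj.1 h).2.map hf)
      calc (cg β).edist (f u) (f w) ≤ (cg β).edist (f u) (f v) + (cg β).edist (f v) (f w) :=
            SimpleGraph.edist_triangle
        _ ≤ 1 + p.length := add_le_add h1 ih
        _ = _ := by rw [SimpleGraph.Walk.length_cons, Nat.cast_add, Nat.cast_one, add_comm]
  exact le_iInf key

theorem conn_of_walk {x y : α} (p : (cg α).Walk x y) : Conn x y := by
  induction p with
  | nil => exact Conn.refl _
  | cons h p ih => exact (Conn.of_cmp (cg_adj.1 h).2).trans ih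

theorem conn_of_edist {x y : α} (h : (cg α).edist x y ≠ ⊤) : Conn x y := by
  obtain ⟨p, _⟩ := SimpleGraph.exists_walk_of_edist_ne_top h
  exact conn_of_walk p

theorem edist_of_up {n : ℕ} {x y : α} (h : Up n x y) : (cg α).edist x y ≤ (2 * n : ℕ) := by
  induction n generalizing x with
  | zero => rw [show x = y from h]; simp
  | succ n ih =>
    obtain ⟨z, ⟨w, h1, h2⟩, h3⟩ := h
    have e1 : (cg α).edist x w ≤ 1 := edist_le_one (Or.inl h1)
    have e2 : (cg α).edist w z ≤ 1 := edist_le_one (Or.inr h2)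
    calc (cg α).edist x y ≤ (cg α).edist x z + (cg α).edist z y := SimpleGraph.edist_triangle
      _ ≤ ((cg α).edist x w + (cg α).edist w z) + (cg α).edist z y :=
          add_le_add SimpleGraph.edist_triangle le_rfl
      _ ≤ (1 + 1) + (2 * n : ℕ) := add_le_add (add_le_add e1 e2) (ih h3)
      _ = _ := by push_cast; ring

/-- alternating fences of a given length, starting upwards or downwards -/
def AF : Bool → ℕ → α → α → Prop
  | _, 0, x, y => x = y
  | true, n + 1, x, y => ∃ z, x ≤ z ∧ AF false n z y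
  | false, n + 1, x, y => ∃ z, z ≤ x ∧ AF true n z y

theorem AF.pad_start {b : Bool} {n : ℕ} {x y : α} (h : AF b n x y) : AF (!b) (n + 1) x y := by
  cases b
  · exact ⟨x, le_rfl, h⟩
  · exact ⟨x, le_rfl, h⟩

theorem AF.pad_end {n : ℕ} : ∀ {b : Bool} {x y : α}, AF b n x y → AF b (n + 1) x y := by
  induction n with
  | zero =>
    intro b x y h
    cases b
    · exact ⟨x, le_rfl, h⟩
    · exact ⟨x, le_rfl, h⟩
  | succ n ih =>
    intro b x y h
    cases b
    · obtain ⟨z, h1, h2⟩ := h
      exact ⟨z, h1, ih h2⟩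
    · obtain ⟨z, h1, h2⟩ := h
      exact ⟨z, h1, ih h2⟩

theorem AF.pad {b : Bool} {n m : ℕ} (hnm : n ≤ m) {x y : α} (h : AF b n x y) : AF b m x y := by
  induction hnm with
  | refl => exact h
  | step _ ih => exact ih.pad_end

theorem AF_of_walk {x y : α} (p : (cg α).Walk x y) :
    AF true p.length x y ∨ AF false p.length x y := by
  induction p with
  | nil => left; rfl
  | @cons u v w h p ih =>
    rw [SimpleGraph.Walk.length_cons]
    set n := p.length with hn
    clear_value n
    rcases (cg_adj.1 h).2 with h1 | h1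
    · rcases ih with h2 | h2
      · cases n with
        | zero => exact Or.inl ⟨v, h1, h2⟩
        | succ k =>
          obtain ⟨z, h3, h4⟩ := h2
          right
          exact AF.pad_start (b := true) (⟨z, h1.trans h3, h4⟩ : AF true (k + 1) u w)
      · exact Or.inl ⟨v, h1, h2⟩
    · rcases ih with h2 | h2
      · exact Or.inr ⟨v, h1, h2⟩
      · cases n with
        | zero => exact Or.inr ⟨v, h1, h2⟩
        | succ k =>
          obtain ⟨z, h3, h4⟩ := h2
          left
          exact AF.pad_start (b := false) (⟨z, h3.trans h1, h4⟩ : AF false (k + 1) u w)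

theorem AF_of_edist {x y : α} {D : ℕ} (h : (cg α).edist x y ≤ D) :
    AF true D x y ∨ AF false D x y := by
  have h1 : (cg α).edist x y ≠ ⊤ := by
    intro h2
    rw [h2] at h
    exact absurd h (by simp)
  obtain ⟨p, hp⟩ := SimpleGraph.exists_walk_of_edist_ne_top h1
  rw [← hp] at h
  have h2 : p.length ≤ D := by exact_mod_cast h
  exact (AF_of_walk p).imp (AF.pad h2) (AF.pad h2)

theorem up_of_AF {e : ℕ} : ∀ {x y : α}, AF true (2 * e) x y → Up e x y := by
  induction e with
  | zero => intro x y h; exact h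
  | succ e ih =>
    intro x y h
    rw [show 2 * (e + 1) = 2 * e + 1 + 1 by ring] at h
    obtain ⟨w, h1, z, h2, h3⟩ := h
    exact ⟨z, ⟨w, h1, h2⟩, ih h3⟩

/-- merging at the end of a fence of positive even length starting downwards -/
theorem AF.merge_up {e : ℕ} : ∀ {x y y' : α}, AF false (2 * (e + 1)) x y → y ≤ y' →
    AF false (2 * (e + 1)) x y' := by
  induction e with
  | zero =>
    intro x y y' h hy
    obtain ⟨z, h1, w, h2, h3⟩ := h
    have h3' : w = y := h3
    subst h3'
    exact ⟨z, h1, y', h2.trans hy, rfl⟩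
  | succ e ih =>
    intro x y y' h hy
    rw [show 2 * (e + 1 + 1) = 2 * (e + 1) + 1 + 1 by ring] at h ⊢
    obtain ⟨z, h1, w, h2, h3⟩ := h
    exact ⟨z, h1, w, h2, ih h3 hy⟩

theorem AF.merge_down {e : ℕ} : ∀ {x y y' : α}, AF true (2 * (e + 1)) x y → y' ≤ y →
    AF true (2 * (e + 1)) x y' := by
  induction e with
  | zero =>
    intro x y y' h hy
    obtain ⟨z, h1, w, h2, h3⟩ := h
    have h3' : w = y := h3
    subst h3'
    exact ⟨z, h1, y', hy.trans h2, rfl⟩
  | succ e ih =>
    intro x y y' h hy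
    rw [show 2 * (e + 1 + 1) = 2 * (e + 1) + 1 + 1 by ring] at h ⊢
    obtain ⟨z, h1, w, h2, h3⟩ := h
    exact ⟨z, h1, w, h2, ih h3 hy⟩

/-- appending a downward step to a fence of odd length starting upwards -/
theorem AF.append_down {e : ℕ} : ∀ {x y y' : α}, AF true (2 * e + 1) x y → y' ≤ y →
    AF true (2 * (e + 1)) x y' := by
  induction e with
  | zero =>
    intro x y y' h hy
    obtain ⟨z, h1, h2⟩ := h
    have h2' : z = y := h2
    subst h2'
    exact ⟨z, h1, y', hy, rfl⟩
  | succ e ih =>
    intro x y y' h hy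
    rw [show 2 * (e + 1) + 1 = 2 * e + 1 + 1 + 1 by ring] at h
    rw [show 2 * (e + 1 + 1) = 2 * (e + 1) + 1 + 1 by ring]
    obtain ⟨z, h1, w, h2, h3⟩ := h
    exact ⟨z, h1, w, h2, ih h3 hy⟩

theorem hasFP_of_le_self [Finite α] {g : α →o α} {x : α} (h : x ≤ g x) : HasFP g := by
  obtain ⟨y, hy⟩ := Set.Finite.exists_maximal (Set.toFinite {y : α | y ≤ g y}) ⟨x, h⟩
  exact ⟨y, le_antisymm (hy.2 (g.monotone hy.1) hy.1) hy.1⟩

theorem hasFP_of_self_le [Finite α] {g : α →o α} {x : α} (h : g x ≤ x) : HasFP g := by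
  obtain ⟨y, hy⟩ := Set.Finite.exists_minimal (Set.toFinite {y : α | g y ≤ y}) ⟨x, h⟩
  exact ⟨y, le_antisymm hy.1 (hy.2 (g.monotone hy.1) hy.1)⟩

/-- shifting a fence of even length starting downwards -/
theorem AF.shift {g : α →o α} {e : ℕ} {x : α} (h : AF false (2 * (e + 1)) x (g x)) :
    ∃ x', AF true (2 * (e + 1)) x' (g x') := by
  rw [show 2 * (e + 1) = 2 * e + 1 + 1 by ring] at h
  obtain ⟨z, h1, h2⟩ := h
  exact ⟨z, h2.append_down (g.monotone h1)⟩

theorem exists_up_of_edist [Finite α] {g : α →o α} {D : ℕ} {x : α}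
    (h : (cg α).edist x (g x) ≤ D) : ∃ x', Up (D / 2) x' (g x') := by
  rcases Nat.even_or_odd' D with ⟨e, rfl | rfl⟩
  · -- even
    rw [Nat.mul_div_cancel_left e (by norm_num)]
    rcases AF_of_edist h with h1 | h1
    · exact ⟨x, up_of_AF h1⟩
    · cases e with
      | zero => exact ⟨x, h1⟩
      | succ e =>
        obtain ⟨x', hx'⟩ := h1.shift
        exact ⟨x', up_of_AF hx'⟩
  · rw [show (2 * e + 1) / 2 = e by omega]
    cases e with
    | zero =>
      have : HasFP g := by
        rcases AF_of_edist h with ⟨z, h1, h2⟩ | ⟨z, h1, h2⟩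
        · have h3 : z = g x := h2
          rw [h3] at h1
          exact hasFP_of_le_self h1
        · have h3 : z = g x := h2
          rw [h3] at h1
          exact hasFP_of_self_le h1
      obtain ⟨y, hy⟩ := this
      exact ⟨y, hy.symm⟩
    | succ e =>
      rcases AF_of_edist h with ⟨z, h1, h2⟩ | ⟨z, h1, h2⟩
      · -- starts upwards
        have h3 : AF false (2 * (e + 1)) z (g z) := AF.merge_up h2 (g.monotone h1)
        obtain ⟨x', hx'⟩ := h3.shift
        exact ⟨x', up_of_AF hx'⟩
      · exact ⟨z, up_of_AF (AF.merge_down h2 (g.monotone h1))⟩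

/-- the distortion invariant of a poset -/
noncomputable def DD (α : Type*) [PartialOrder α] : ℕ∞ :=
  ⨆ f : α →o α, ⨅ a : α, (cg α).edist a (f a)

theorem isConn_of_DD [Nonempty α] {D : ℕ} (h : DD α ≤ D) : IsConn α := by
  classical
  intro a b
  by_contra hab
  let f : α →o α := ⟨fun x => if Conn a x then b else a, by
    intro x y hxy
    by_cases hx : Conn a x
    · have hy : Conn a y := hx.trans (Conn.of_le hxy)
      simp [hx, hy]
    · have hy : ¬ Conn a y := fun hy => hx (hy.trans (Conn.of_ge hxy))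
      simp [hx, hy]⟩
  have h1 : ∀ x, (cg α).edist x (f x) = ⊤ := by
    intro x
    by_contra hne
    have h2 := conn_of_edist hne
    by_cases hx : Conn a x
    · have h3 : f x = b := if_pos hx
      rw [h3] at h2
      exact hab (hx.trans h2)
    · have h3 : f x = a := if_neg hx
      rw [h3] at h2
      exact hx h2.symm
  have h2 : (⊤ : ℕ∞) ≤ DD α := by
    refine le_trans ?_ (le_iSup _ f)
    exact le_iInf (fun x => by rw [h1])
  exact absurd (h2.trans h) (by simp)

theorem exists_up_of_DD [Finite α] [Nonempty α] {D : ℕ} (h : DD α ≤ D) (g : α →o α) :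
    ∃ x, Up (D / 2) x (g x) := by
  have h1 : (⨅ a : α, (cg α).edist a (g a)) ≤ D :=
    (le_iSup (fun f : α →o α => ⨅ a : α, (cg α).edist a (f a)) g).trans h
  obtain ⟨a, ha⟩ := exists_eq_ciInf_of_finite (f := fun a : α => (cg α).edist a (g a))
  rw [← ha] at h1
  exact exists_up_of_edist h1

theorem DD_prod_le [Finite α] [Nonempty α] [Finite β] [Nonempty β] :
    DD (α × β) ≤ max (DD α) (DD β) := by
  by_cases htop : max (DD α) (DD β) = ⊤
  · rw [htop]; exact le_top
  · obtain ⟨D, hD⟩ := ENat.ne_top_iff_exists.1 htop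
    rw [← hD]
    have hα : DD α ≤ D := by rw [hD]; exact le_max_left _ _
    have hβ : DD β ≤ D := by rw [hD]; exact le_max_right _ _
    refine iSup_le (fun f => ?_)
    obtain ⟨x, hx⟩ := exists_up_prod (isConn_of_DD hα) (isConn_of_DD hβ) (D / 2)
      (exists_up_of_DD hα) (exists_up_of_DD hβ) f
    refine (iInf_le _ x).trans ((edist_of_up hx).trans ?_)
    exact_mod_cast (Nat.mul_div_le D 2)

theorem DD_le_prod_left [Nonempty β] : DD α ≤ DD (α × β) := by
  refine iSup_le (fun g => ?_)
  let f : (α × β) →o (α × β) := ⟨fun p => (g p.1, p.2), fun p p' h =>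
    Prod.mk_le_mk.2 ⟨g.monotone h.1, h.2⟩⟩
  refine le_trans ?_ (le_iSup _ f)
  refine le_iInf (fun p => (iInf_le _ p.1).trans ?_)
  exact edist_map (f := Prod.fst) monotone_fst p (f p)

theorem DD_le_prod_right [Nonempty α] : DD β ≤ DD (α × β) := by
  refine iSup_le (fun g => ?_)
  let f : (α × β) →o (α × β) := ⟨fun p => (p.1, g p.2), fun p p' h =>
    Prod.mk_le_mk.2 ⟨h.1, g.monotone h.2⟩⟩
  refine le_trans ?_ (le_iSup _ f)
  refine le_iInf (fun p => (iInf_le _ p.2).trans ?_)
  exact edist_map (f := Prod.snd) monotone_snd p (f p)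

theorem DD_prod [Finite α] [Nonempty α] [Finite β] [Nonempty β] :
    DD (α × β) = max (DD α) (DD β) :=
  le_antisymm DD_prod_le (max_le DD_le_prod_left DD_le_prod_right)

end fence

end Pool.Agent.Dist96500d
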