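import Pool.Agent.W_MP_96500d_co.ListCx

/-! The contraction lemma and its consequences. -/

set_option autoImplicit false
set_option linter.unusedSectionVars false
set_option linter.deprecated false

namespace Pool.Agent.Dist96500d

section contract
variable {W Y : Type*} [PartialOrder W] [PartialOrder Y]

theorem spn_inter {P : Type*} {S T : Set (List P)} {a : LC P} (h : a ∈ spn S) (h' : a ∈ spn T) :
    a ∈ spn (S ∩ T) := by
  rw [spn, Finsupp.mem_supported] at h h' ⊢
  exact Set.subset_inter h h'

/-- approximations of the contracting homotopy -/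
noncomputable def hn (D : LC W →ₗ[ZMod 2] LC Y) (y : W → Y) : ℕ → (LC W →ₗ[ZMod 2] LC Y)
  | 0 => 0
  | n + 1 => mk fun l => match l with
    | [] => 0
    | x :: l => cons (y x) (D (sg (x :: l)) + hn D y n (bd (sg (x :: l))))

theorem hn_nil (D : LC W →ₗ[ZMod 2] LC Y) (y : W → Y) (n : ℕ) : hn D y n (sg []) = 0 := by
  cases n <;> simp [hn]

theorem hn_cons (D : LC W →ₗ[ZMod 2] LC Y) (y : W → Y) (n : ℕ) (x : W) (l : List W) :
    hn D y (n + 1) (sg (x :: l)) =
      cons (y x) (D (sg (x :: l)) + hn D y n (bd (sg (x :: l)))) := by
  simp [hn]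

theorem hn_stable (D : LC W →ₗ[ZMod 2] LC Y) (y : W → Y) (n : ℕ) :
    ∀ l : List W, l.length ≤ n → hn D y n (sg l) = hn D y l.length (sg l) := by
  induction n with
  | zero => intro l hl; rw [Nat.le_zero.1 hl]
  | succ n ih =>
    intro l hl
    cases l with
    | nil => rw [hn_nil, hn_nil]
    | cons x l =>
      rw [List.length_cons, hn_cons, hn_cons]
      congr 2
      refine map_eq (S := Ln W l.length) ?_ (bd_len (x :: l))
      intro l' hl'
      have h1 : l'.length = l.length := hl'
      rw [ih l' (by simp at hl; omega), h1]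

/-- the contracting homotopy -/
noncomputable def hh (D : LC W →ₗ[ZMod 2] LC Y) (y : W → Y) : LC W →ₗ[ZMod 2] LC Y :=
  mk fun l => hn D y l.length (sg l)

theorem hh_nil (D : LC W →ₗ[ZMod 2] LC Y) (y : W → Y) : hh D y (sg []) = 0 := by
  simp [hh, hn_nil]

theorem hh_cons (D : LC W →ₗ[ZMod 2] LC Y) (y : W → Y) (x : W) (l : List W) :
    hh D y (sg (x :: l)) = cons (y x) (D (sg (x :: l)) + hh D y (bd (sg (x :: l)))) := by
  rw [hh, mk_sg, List.length_cons, hn_cons]
  congr 2
  refine map_eq (S := Ln W l.length) ?_ (bd_len (x :: l))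
  intro l' hl'
  have h1 : l'.length = l.length := hl'
  rw [mk_sg, h1]

theorem null_of_contract (D : LC W →ₗ[ZMod 2] LC Y) (y : W → Y) (hy : Monotone y)
    (hcomm : ∀ a, bd (D a) = D (bd a)) (hnil : D (sg []) = 0)
    (hlen : ∀ l, D (sg l) ∈ spn (Ln Y l.length))
    (hsb : ∀ x, ∀ l ∈ SB x, D (sg (x :: l)) ∈ spn (SB (y x))) : Null D := by
  refine ⟨hh D y, ⟨hh_nil D y, ?_, ?_⟩, ?_⟩
  · -- length
    have key : ∀ n, ∀ l : List W, l.length ≤ n → hh D y (sg l) ∈ spn (Ln Y (l.length + 1)) := by
      intro n
      induction n with
      | zero =>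
        intro l hl
        rw [List.length_eq_zero_iff.1 (Nat.le_zero.1 hl), hh_nil]
        exact Submodule.zero_mem _
      | succ n ih =>
        intro l hl
        cases l with
        | nil => rw [hh_nil]; exact Submodule.zero_mem _
        | cons x l =>
          rw [hh_cons]
          refine cons_mem (S := Ln Y (l.length + 1)) (fun l' hl' => ?_) ?_
          · have : l'.length = l.length + 1 := hl'
            simp [Ln, this]
          · refine Submodule.add_mem _ (hlen (x :: l)) ?_
            refine map_mem (S := Ln W l.length) ?_ (bd_len (x :: l))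
            intro l' hl'
            have h1 : l'.length = l.length := hl'
            rw [← h1]
            refine ih l' ?_
            simp at hl; omega
    exact fun l => key _ l le_rfl
  · -- sorted
    have key : ∀ n, ∀ l : List W, l.length ≤ n → ∀ x, l ∈ SB x → hh D y (sg l) ∈ spn (SB (y x)) := by
      intro n
      induction n with
      | zero =>
        intro l hl x _
        rw [List.length_eq_zero_iff.1 (Nat.le_zero.1 hl), hh_nil]
        exact Submodule.zero_mem _
      | succ n ih =>
        intro l hl x hx
        cases l with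
        | nil => rw [hh_nil]; exact Submodule.zero_mem _
        | cons z l =>
          have hz : z ≤ x := hx.2 z (by simp)
          have hl' : l ∈ SB z := srt_cons.1 hx.1
          rw [hh_cons]
          refine spn_mono (SB_mono (hy hz)) ?_
          refine cons_mem (S := SB (y z)) (fun l' hl' => cons_SB hl') ?_
          refine Submodule.add_mem _ (hsb z l hl') ?_
          refine map_mem (S := SB z ∩ Ln W l.length) ?_
            (spn_inter (bd_SB (cons_SB hl')) (bd_len (z :: l)))
          rintro l' ⟨h1, h2⟩
          have h3 : l'.length = l.length := h2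
          exact ih l' (by simp at hl; omega) z h1
    intro l hl
    cases l with
    | nil => rw [hh_nil]; exact Submodule.zero_mem _
    | cons x l =>
      exact spn_mono (SB_subset_srt _) (key _ _ le_rfl x (cons_SB (srt_cons.1 hl)))
  · -- homotopy identity
    apply LC.hom_ext
    have key : ∀ n, ∀ l : List W, l.length ≤ n → D (sg l) = cm (hh D y) (sg l) := by
      intro n
      induction n with
      | zero =>
        intro l hl
        rw [List.length_eq_zero_iff.1 (Nat.le_zero.1 hl), cm_apply, hh_nil, hnil]
        simp
      | succ n ih =>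
        intro l hl
        cases l with
        | nil => rw [cm_apply, hh_nil, hnil]; simp
        | cons x l =>
          set b := bd (sg (x :: l)) with hb
          have hDb : D b = bd (hh D y b) := by
            have h1 : D b = cm (hh D y) b := by
              refine map_eq (S := Ln W l.length) ?_ (bd_len (x :: l))
              intro l' hl'
              have h3 : l'.length = l.length := hl'
              exact ih l' (by simp at hl; omega)
            rw [h1, cm_apply, hb, bd_bd, map_zero, add_zero]
          rw [cm_apply, hh_cons, bd_cons, map_add bd, hcomm, ← hb, ← hDb, add_self',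
            map_zero, add_zero, add_assoc, add_self', add_zero]
    exact fun l => key _ l le_rfl

theorem null_push_of_le {f g : W → Y} (hf : Monotone f) (hg : Monotone g) (h : ∀ x, f x ≤ g x) :
    Null (push f + push g) := by
  refine null_of_contract _ g hg ?_ ?_ ?_ ?_
  · intro a; simp [push_bd]
  · simp [add_self']
  · intro l
    refine Submodule.add_mem _ ?_ ?_
    · rw [push_sg]; exact sg_mem (by simp [Ln])
    · rw [push_sg]; exact sg_mem (by simp [Ln])
  · intro x l hl
    refine Submodule.add_mem _ ?_ ?_
    · rw [push_sg]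
      exact spn_mono (SB_mono (h x)) (sg_mem (map_SB hf (cons_SB hl)))
    · rw [push_sg]
      exact sg_mem (map_SB hg (cons_SB hl))

theorem null_push_of_conn {f g : W →o Y} (h : Conn f g) : Null (push f + push g) := by
  induction h with
  | refl => rw [lin_add_self]; exact Null.zero
  | @tail g k h1 h2 ih =>
    have h3 : Null (push ⇑g + push ⇑k) := by
      rcases h2 with h2 | h2
      · exact null_push_of_le g.monotone k.monotone h2
      · rw [add_comm]; exact null_push_of_le k.monotone g.monotone h2
    have h4 : push ⇑f + push ⇑k = (push ⇑f + push ⇑g) + (push ⇑g + push ⇑k) := by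
      rw [show (push ⇑f + push ⇑g) + (push ⇑g + push ⇑k) =
        push ⇑f + (push ⇑g + push ⇑g) + push ⇑k by abel, lin_add_self, add_zero]
    rw [h4]
    exact ih.add h3

theorem exists_path_chain {a b : Y} (h : Conn a b) :
    ∃ p : LC Y, p ∈ spn (Ln Y 2) ∧ p ∈ spn (Srt Y) ∧ bd p = sg [a] + sg [b] := by
  induction h with
  | refl => exact ⟨0, by simp, by simp, by simp [add_self']⟩
  | @tail b c h1 h2 ih =>
    obtain ⟨p, hp1, hp2, hp3⟩ := ih
    have : ∃ q : LC Y, q ∈ spn (Ln Y 2) ∧ q ∈ spn (Srt Y) ∧ bd q = sg [b] + sg [c] := by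
      rcases h2 with h2 | h2
      · refine ⟨sg [c, b], sg_mem (by simp [Ln]), sg_mem (by simp [Srt, h2]), ?_⟩
        rw [bd_sg_cons, bd_sg_cons]; simp
      · refine ⟨sg [b, c], sg_mem (by simp [Ln]), sg_mem (by simp [Srt, h2]), ?_⟩
        rw [bd_sg_cons, bd_sg_cons]; simp [add_comm]
    obtain ⟨q, hq1, hq2, hq3⟩ := this
    refine ⟨p + q, Submodule.add_mem _ hp1 hq1, Submodule.add_mem _ hp2 hq2, ?_⟩
    rw [map_add, hp3, hq3, show sg [a] + sg [b] + (sg [b] + sg [c]) =
      sg [a] + (sg [b] + sg [b]) + sg [c] by abel, add_self', add_zero]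

theorem hom0_push_add {f g : W → Y} (hf : Monotone f) (hg : Monotone g) :
    Hom0 (push f + push g) where
  comm a := by simp [push_bd]
  nil := by simp [add_self']
  len l := Submodule.add_mem _ (by rw [push_sg]; exact sg_mem (by simp [Ln]))
      (by rw [push_sg]; exact sg_mem (by simp [Ln]))
  srt l hl := Submodule.add_mem _ (by rw [push_sg]; exact sg_mem (map_srt hf hl))
      (by rw [push_sg]; exact sg_mem (map_srt hg hl))

theorem van_one (hY : IsConn Y) (f : W →o Y) (c : Y) :
    Van 1 (push f + push (fun _ : W => c)) := by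
  choose p hp1 hp2 hp3 using fun x : W => exists_path_chain (hY (f x) c)
  set A := push ⇑f + push (fun _ : W => c) with hA
  have hA0 : Hom0 A := hom0_push_add f.monotone monotone_const
  let h : LC W →ₗ[ZMod 2] LC Y := mk fun l => match l with
    | [x] => p x
    | _ => 0
  have hh0 : h (sg []) = 0 := by simp [h]
  have hh1 : ∀ x, h (sg [x]) = p x := by intro x; simp [h]
  have hh2 : ∀ x y l, h (sg (x :: y :: l)) = 0 := by intro x y l; simp [h]
  have hh : Hom1 h := by
    refine ⟨hh0, ?_, ?_⟩
    · intro l
      match l with
      | [] => rw [hh0]; exact Submodule.zero_mem _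
      | [x] => rw [hh1]; exact hp1 x
      | x :: y :: l => rw [hh2]; exact Submodule.zero_mem _
    · intro l _
      match l with
      | [] => rw [hh0]; exact Submodule.zero_mem _
      | [x] => rw [hh1]; exact hp2 x
      | x :: y :: l => rw [hh2]; exact Submodule.zero_mem _
  refine ⟨A + cm h, h, hA0.add hh.cm, hh, ?_, ?_⟩
  · intro l hl
    match l with
    | [] => simp [hA0.nil, cm_apply, hh0]
    | [x] =>
      rw [LinearMap.add_apply, cm_apply, hh1, hp3, bd_sg_cons]
      simp [hA, hh0, add_self']
    | x :: y :: l => simp at hl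
  · rw [add_assoc, lin_add_self, add_zero]

end contract

end Pool.Agent.Dist96500d
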