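import Mathlib

/-! Fences (comparability paths) and homotopy of order-preserving maps. -/

set_option autoImplicit false
set_option linter.unusedSectionVars false
set_option linter.deprecated false

namespace Pool.Agent.Dist96500d

open Relation

/-- comparable elements -/
def Cmp {α : Type*} [Preorder α] (a b : α) : Prop := a ≤ b ∨ b ≤ a

/-- joined by a fence whose elements stay in `S` -/
def ConnIn {α : Type*} [Preorder α] (S : Set α) (a b : α) : Prop :=
  ReflTransGen (fun x y => x ∈ S ∧ y ∈ S ∧ Cmp x y) a b

/-- joined by a fence -/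
def Conn {α : Type*} [Preorder α] (a b : α) : Prop := ReflTransGen Cmp a b

section basic
variable {α β : Type*} [Preorder α] [Preorder β]

theorem Cmp.symm {a b : α} (h : Cmp a b) : Cmp b a := Or.symm h

theorem Cmp.map {a b : α} (h : Cmp a b) {f : α → β} (hf : Monotone f) : Cmp (f a) (f b) :=
  h.imp (fun h => hf h) (fun h => hf h)

theorem Conn.refl (a : α) : Conn a a := ReflTransGen.refl

theorem Conn.of_cmp {a b : α} (h : Cmp a b) : Conn a b := ReflTransGen.single h

theorem Conn.of_le {a b : α} (h : a ≤ b) : Conn a b := Conn.of_cmp (Or.inl h)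

theorem Conn.of_ge {a b : α} (h : b ≤ a) : Conn a b := Conn.of_cmp (Or.inr h)

theorem Conn.of_eq {a b : α} (h : a = b) : Conn a b := h ▸ Conn.refl a

theorem Conn.trans {a b c : α} (h : Conn a b) (h' : Conn b c) : Conn a c :=
  ReflTransGen.trans h h'

theorem Conn.symm {a b : α} (h : Conn a b) : Conn b a := by
  induction h with
  | refl => exact ReflTransGen.refl
  | tail h1 h2 ih => exact ReflTransGen.head (Cmp.symm h2) ih

theorem Conn.map {a b : α} (h : Conn a b) {f : α → β} (hf : Monotone f) :
    Conn (f a) (f b) := by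
  induction h with
  | refl => exact ReflTransGen.refl
  | tail h1 h2 ih => exact ReflTransGen.tail ih (h2.map hf)

theorem ConnIn.refl {S : Set α} (a : α) : ConnIn S a a := ReflTransGen.refl

theorem ConnIn.trans {S : Set α} {a b c : α} (h : ConnIn S a b) (h' : ConnIn S b c) :
    ConnIn S a c := ReflTransGen.trans h h'

theorem ConnIn.symm {S : Set α} {a b : α} (h : ConnIn S a b) : ConnIn S b a := by
  induction h with
  | refl => exact ReflTransGen.refl
  | tail h1 h2 ih => exact ReflTransGen.head ⟨h2.2.1, h2.1, h2.2.2.symm⟩ ih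

theorem ConnIn.conn {S : Set α} {a b : α} (h : ConnIn S a b) : Conn a b := by
  induction h with
  | refl => exact ReflTransGen.refl
  | tail h1 h2 ih => exact ReflTransGen.tail ih h2.2.2

theorem ConnIn.map {S : Set α} {T : Set β} {a b : α} (h : ConnIn S a b) {f : α → β}
    (hf : Monotone f) (hST : ∀ x ∈ S, f x ∈ T) : ConnIn T (f a) (f b) := by
  induction h with
  | refl => exact ReflTransGen.refl
  | tail h1 h2 ih =>
    exact ReflTransGen.tail ih ⟨hST _ h2.1, hST _ h2.2.1, h2.2.2.map hf⟩

/-- a fence inside `S` gives a fence in the subtype -/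
theorem ConnIn.subtype {S : Set α} {a b : α} (h : ConnIn S a b) (ha : a ∈ S) (hb : b ∈ S) :
    Conn (⟨a, ha⟩ : S) ⟨b, hb⟩ := by
  induction h with
  | refl => exact Conn.refl _
  | tail h1 h2 ih =>
    refine (ih h2.1).trans (Conn.of_cmp ?_)
    exact h2.2.2

theorem Conn.connIn {S : Set α} {a b : α} (h : Conn a b) (ha : a ∈ S)
    (hS : ∀ x y, x ∈ S → Cmp x y → y ∈ S) : ConnIn S a b ∧ b ∈ S := by
  induction h with
  | refl => exact ⟨ConnIn.refl _, ha⟩
  | tail h1 h2 ih =>
    have hc := hS _ _ ih.2 h2
    exact ⟨ih.1.trans (ReflTransGen.single ⟨ih.2, hc, h2⟩), hc⟩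

end basic

/-- every two elements are joined by a fence -/
def IsConn (α : Type*) [Preorder α] : Prop := ∀ a b : α, Conn a b

section pi
variable {ι : Type*} [Finite ι] {α : ι → Type*} [∀ i, Preorder (α i)]

theorem Conn.update [DecidableEq ι] (x : ∀ i, α i) (i : ι) {a b : α i} (h : Conn a b) :
    Conn (Function.update x i a) (Function.update x i b) := by
  refine h.map ?_
  intro a b hab
  exact update_le_update_iff.2 ⟨hab, fun _ _ => le_refl _⟩

theorem Conn.pi {x y : ∀ i, α i} (h : ∀ i, Conn (x i) (y i)) : Conn x y := by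
  classical
  cases nonempty_fintype ι
  have key : ∀ s : Finset ι, Conn x (fun i => if i ∈ s then y i else x i) := by
    intro s
    induction s using Finset.induction_on with
    | empty => simpa using Conn.refl x
    | insert a s ha ih =>
      refine ih.trans ?_
      have h1 : (fun i => if i ∈ s then y i else x i) =
          Function.update (fun i => if i ∈ s then y i else x i) a (x a) := by
        funext i
        by_cases hi : i = a
        · subst hi; simp [ha]
        · simp [hi]
      have h2 : (fun i => if i ∈ insert a s then y i else x i) =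
          Function.update (fun i => if i ∈ s then y i else x i) a (y a) := by
        funext i
        by_cases hi : i = a
        · subst hi; simp
        · simp [hi]
      rw [h1, h2]
      exact Conn.update _ _ (h a)
  simpa using key Finset.univ

theorem IsConn.pi (h : ∀ i, IsConn (α i)) : IsConn (∀ i, α i) :=
  fun x y => Conn.pi fun i => h i (x i) (y i)

end pi

section hom
variable {X Y Z : Type*} [Preorder X] [Preorder Y] [Preorder Z]

theorem Conn.comp {f f' : Y →o Z} {g g' : X →o Y} (hf : Conn f f') (hg : Conn g g') :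
    Conn (f.comp g) (f'.comp g') := by
  refine (hf.map (f := fun f => f.comp g) ?_).trans (hg.map (f := fun g => f'.comp g) ?_)
  · intro a b hab; exact OrderHom.comp_mono hab le_rfl
  · intro a b hab; exact OrderHom.comp_mono le_rfl hab

theorem Conn.mul {f f' g g' : X →o X} (hf : Conn f f') (hg : Conn g g') :
    Conn (f * g) (f' * g') := Conn.comp hf hg

theorem Conn.pow {f f' : X →o X} (hf : Conn f f') (n : ℕ) : Conn (f ^ n) (f' ^ n) := by
  induction n with
  | zero => simpa using Conn.refl _
  | succ n ih => rw [pow_succ, pow_succ]; exact ih.mul hf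

theorem Conn.const {x y : Y} (h : Conn x y) :
    Conn (OrderHom.const X x) (OrderHom.const X y) :=
  h.map (OrderHom.const X).monotone

theorem Conn.const_of {f : X →o Y} {c : Y} (h : IsConn Y) (hf : Conn f (OrderHom.const X c))
    (c' : Y) : Conn f (OrderHom.const X c') := hf.trans (h c c').const

end hom

section fp
variable {X : Type*} [PartialOrder X]

/-- a fixed point exists -/
def HasFP (f : X →o X) : Prop := ∃ x, f x = x

theorem hasFP_of_le [Finite X] {f g : X →o X} (h : f ≤ g) (hf : HasFP f) : HasFP g := by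
  obtain ⟨x, hx⟩ := hf
  have hS : (Set.Nonempty {y : X | x ≤ y ∧ y ≤ g y}) := ⟨x, le_rfl, by
    calc x = f x := hx.symm
      _ ≤ g x := h x⟩
  obtain ⟨y, hy⟩ := Set.Finite.exists_maximal (Set.toFinite {y : X | x ≤ y ∧ y ≤ g y}) hS
  refine ⟨y, ?_⟩
  have h1 : g y ∈ {y : X | x ≤ y ∧ y ≤ g y} := ⟨hy.1.1.trans hy.1.2, g.monotone hy.1.2⟩
  exact le_antisymm (hy.2 h1 hy.1.2) hy.1.2

theorem hasFP_of_ge [Finite X] {f g : X →o X} (h : g ≤ f) (hf : HasFP f) : HasFP g := by
  obtain ⟨x, hx⟩ := hf
  have hS : (Set.Nonempty {y : X | y ≤ x ∧ g y ≤ y}) := ⟨x, le_rfl, by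
    calc g x ≤ f x := h x
      _ = x := hx⟩
  obtain ⟨y, hy⟩ := Set.Finite.exists_minimal (Set.toFinite {y : X | y ≤ x ∧ g y ≤ y}) hS
  refine ⟨y, ?_⟩
  have h1 : g y ∈ {y : X | y ≤ x ∧ g y ≤ y} := ⟨hy.1.2.trans hy.1.1, g.monotone hy.1.2⟩
  exact le_antisymm hy.1.2 (hy.2 h1 hy.1.2)

theorem HasFP.conn [Finite X] {f g : X →o X} (h : Conn f g) (hf : HasFP f) : HasFP g := by
  induction h with
  | refl => exact hf
  | tail h1 h2 ih =>
    rcases h2 with h2 | h2
    · exact hasFP_of_le h2 ih
    · exact hasFP_of_ge h2 ih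

/-- an order-preserving self-bijection of a finite poset above the identity is the identity -/
theorem eq_one_of_bij_of_ge [Finite X] {f : X →o X} (hf : Function.Injective f)
    (h : ∀ x, x ≤ f x) : f = 1 := by
  ext x
  have hx : f x = x := by
    obtain ⟨n, hn, hfn⟩ : ∃ n, 0 < n ∧ (f)^[n] x = x := by
      have := Function.Injective.mem_periodicPts hf x
      obtain ⟨n, hn, h⟩ := this
      exact ⟨n, hn, h⟩
    obtain ⟨m, rfl⟩ : ∃ m, n = m + 1 := ⟨n - 1, by omega⟩
    have h2 : ∀ k y, y ≤ (f)^[k] y := by
      intro k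
      induction k with
      | zero => intro y; exact le_rfl
      | succ k ih => intro y; rw [Function.iterate_succ_apply]; exact (h y).trans (ih _)
    rw [Function.iterate_succ_apply] at hfn
    exact le_antisymm (by simpa [hfn] using h2 m (f x)) (h x)
  simpa using hx

end fp

end Pool.Agent.Dist96500d
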