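import Pool.Agent.W_MP_96500d_co.TE

/-! The product estimate for vanishing orders, and the telescoping over slots. -/

set_option autoImplicit false
set_option linter.unusedSectionVars false
set_option linter.deprecated false
set_option linter.unusedSimpArgs false

namespace Pool.Agent.Dist96500d

section LB
variable {W Z Y V : Type*} [PartialOrder W] [PartialOrder Z] [PartialOrder Y] [PartialOrder V]

/-- the vanishing order of a mixed difference is at least the sum of the vanishing orders -/
theorem van_mixed {s t : ℕ} (f f' : W →o Z) (g g' : W →o Y)
    (hf : Van s (push f + push f')) (hg : Van t (push g + push g')) :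
    Van (s + t) (push (fun x => (f x, g x)) + push (fun x => (f x, g' x)) +
      push (fun x => (f' x, g x)) + push (fun x => (f' x, g' x))) := by
  have n1 := null_AWEZ f g
  have n2 := null_AWEZ f g'
  have n3 := null_AWEZ f' g
  have n4 := null_AWEZ f' g'
  obtain ⟨A, h, hA, hh, hvA, eA⟩ := hf
  obtain ⟨B, k, hB, hk, hvB, eB⟩ := hg
  have hsum := ((n1.add n2).add n3).add n4
  have h1 : Null (TE (A + cm h) (B + cm k) + TE A B) := by
    have : TE (A + cm h) (B + cm k) + TE A B = TE A (cm k) + TE (cm h) (B + cm k) := by
      rw [TE_add_left, TE_add_right A B]
      have := lin_add_self (TE A B)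
      calc TE A B + TE A (cm k) + TE (cm h) (B + cm k) + TE A B
          = TE A (cm k) + TE (cm h) (B + cm k) + (TE A B + TE A B) := by abel
        _ = _ := by rw [this, add_zero]
    rw [this]
    refine Null.add ?_ ?_
    · exact ⟨TE A k, TE_hom0_hom1 hA hk, (cm_TE_hom0_hom1 hA hk).symm⟩
    · exact ⟨TE h (B + cm k), TE_hom1_hom0 hh (hB.add hk.cm),
        (cm_TE_hom1_hom0 hh (hB.add hk.cm)).symm⟩
  have h2 : TE (A + cm h) (B + cm k) = TE (push f) (push g) + TE (push f) (push g') +
      TE (push f') (push g) + TE (push f') (push g') := by
    rw [← eA, ← eB, TE_add_left, TE_add_right, TE_add_right]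
    abel
  obtain ⟨H, hH, eH⟩ := hsum.add h1
  refine ⟨TE A B, H, TE_hom0_hom0 hA hB, hH, fun l hl => TE_vanish hvA hvB l hl, ?_⟩
  rw [← eH, h2]
  have e1 := lin_add_self (TE A B)
  have e2 := lin_add_self (TE (push ⇑f) (push ⇑g))
  have e3 := lin_add_self (TE (push ⇑f) (push ⇑g'))
  have e4 := lin_add_self (TE (push ⇑f') (push ⇑g))
  have e5 := lin_add_self (TE (push ⇑f') (push ⇑g'))
  have e6 := lin_add_self (eta W (Z × Y))
  set a1 := TE (push ⇑f) (push ⇑g)
  set a2 := TE (push ⇑f) (push ⇑g')
  set a3 := TE (push ⇑f') (push ⇑g)
  set a4 := TE (push ⇑f') (push ⇑g')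
  set a5 := TE A B
  set a6 := eta W (Z × Y)
  set p1 := push (fun x => (f x, g x))
  set p2 := push (fun x => (f x, g' x))
  set p3 := push (fun x => (f' x, g x))
  set p4 := push (fun x => (f' x, g' x))
  calc p1 + p2 + p3 + p4 = p1 + p2 + p3 + p4 + (a5 + a5) + (a1 + a1) + (a2 + a2) + (a3 + a3) +
        (a4 + a4) + (a6 + a6) + (a6 + a6) := by
        rw [e1, e2, e3, e4, e5, e6]; simp
    _ = _ := by abel

theorem push_push (g : Z → Y) (f : W → Z) : push g ∘ₗ push f = push (fun x => g (f x)) := by
  apply LinearMap.ext; intro a
  exact push_comp g f a

/-- version with a two-variable order-preserving map -/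
theorem van_mixed' {s t : ℕ} (Ψ : Z × Y →o V) (f f' : W →o Z) (g g' : W →o Y)
    (hf : Van s (push f + push f')) (hg : Van t (push g + push g')) :
    Van (s + t) (push (fun x => Ψ (f x, g x)) + push (fun x => Ψ (f x, g' x)) +
      push (fun x => Ψ (f' x, g x)) + push (fun x => Ψ (f' x, g' x))) := by
  have := (van_mixed f f' g g' hf hg).push_comp Ψ.monotone
  simpa only [LinearMap.comp_add, push_push] using this

end LB

section slots
variable {J X V : Type*} [PartialOrder X] [PartialOrder V] [Fintype J] [DecidableEq J]

/-- substitute `g` for the slots in `S` and `c` for the others -/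
def part (g : X →o X) (c : X) (S : Finset J) : X →o (J → X) where
  toFun x := fun j => if j ∈ S then g x else c
  monotone' := by
    intro x y h j
    by_cases hj : j ∈ S
    · simpa [hj] using g.monotone h
    · simp [hj]

theorem part_apply (g : X →o X) (c : X) (S : Finset J) (x : X) (j : J) :
    part g c S x j = if j ∈ S then g x else c := rfl

/-- insertion of a value in a slot as a two-variable map -/
def upd (a : J) : (J → X) × X →o (J → X) where
  toFun p := Function.update p.1 a p.2
  monotone' := by
    intro p q h
    exact update_le_update_iff.2 ⟨h.2, fun j _ => h.1 j⟩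

theorem upd_apply (a : J) (p : (J → X) × X) : upd a p = Function.update p.1 a p.2 := rfl

theorem upd_part (g : X →o X) (c : X) (S : Finset J) (a : J) (x : X) :
    upd a (part g c S x, g x) = part g c (insert a S) x := by
  funext j
  by_cases hj : j = a
  · subst hj; simp [upd_apply, part_apply]
  · simp [upd_apply, part_apply, hj]

theorem upd_part' (g : X →o X) (c : X) (S : Finset J) (a : J) (ha : a ∉ S) (x : X) :
    upd a (part g c S x, c) = part g c S x := by
  funext j
  by_cases hj : j = a
  · subst hj; simp [upd_apply, part_apply, ha]
  · simp [upd_apply, part_apply, hj]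

theorem part_van {s : ℕ} (g : X →o X) (c : X)
    (hg : Van s (push g + push (fun _ : X => c))) (S : Finset J) :
    Van s (push (part g c S) + push (fun _ : X => fun _ : J => c)) := by
  induction S using Finset.induction_on with
  | empty =>
    have : push (part g c (∅ : Finset J)) = push (fun _ : X => fun _ : J => c) := by
      congr 1
    rw [this, lin_add_self]; exact Van.zero s
  | insert a S ha ih =>
    have h1 := van_mixed' (upd a) (part g c S) (OrderHom.const X (fun _ => c)) g
      (OrderHom.const X c) ih hg
    have h2 : Van s (push (fun x : X => Function.update (fun _ : J => c) a (g x)) +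
        push (fun _ : X => fun _ : J => c)) := by
      have hm : Monotone (fun x : X => Function.update (fun _ : J => c) a x) := by
        intro x y h
        exact update_le_update_iff.2 ⟨h, fun j _ => le_rfl⟩
      have := hg.push_comp hm
      simpa only [LinearMap.comp_add, push_push, Function.update_eq_self] using this
    have h3 := ((h1.mono (show s ≤ s + s by omega)).add ih).add h2
    convert h3 using 1
    have e1 : (fun x => (upd a) ((part g c S) x, g x)) = part g c (insert a S) := by
      funext x; exact upd_part g c S a x
    have e2 : (fun x => (upd a) ((part g c S) x, (OrderHom.const X c) x)) = part g c S := by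
      funext x; exact upd_part' g c S a ha x
    have e3 : (fun x => (upd a) (((OrderHom.const X) fun _ : J => c) x, g x)) =
        fun x : X => Function.update (fun _ : J => c) a (g x) := rfl
    have e4 : (fun x : X => (upd a) (((OrderHom.const X) fun _ : J => c) x,
        (OrderHom.const X c) x)) = fun _ : X => fun _ : J => c := by
      funext x; exact Function.update_eq_self a _
    rw [e1, e2, e3, e4]
    have a1 := lin_add_self (push (⇑(part g c S)))
    have a2 := lin_add_self (push (fun x : X => Function.update (fun _ : J => c) a (g x)))
    have a3 := lin_add_self (push (fun _ : X => fun _ : J => c))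
    set p1 := push (⇑(part g c S))
    set p2 := push (fun x : X => Function.update (fun _ : J => c) a (g x))
    set p3 := push (fun _ : X => fun _ : J => c)
    set p4 := push (⇑(part g c (insert a S)))
    calc p4 + p3 = p4 + p3 + (p1 + p1) + (p2 + p2) + (p3 + p3) := by
          rw [a1, a2, a3]; simp
      _ = _ := by abel

theorem slots_van {s : ℕ} (F : (J → X) →o V) (g : X →o X) (c : X)
    (hg : Van s (push g + push (fun _ : X => c))) (S : Finset J) :
    Van (s + s) (push (fun x => F (part g c S x)) + push (fun _ : X => F (fun _ => c)) +
      ∑ a ∈ S, (push (fun x : X => F (Function.update (fun _ => c) a x)) ∘ₗ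
        (push g + push (fun _ : X => c)))) := by
  induction S using Finset.induction_on with
  | empty =>
    have : push (fun x => F (part g c (∅ : Finset J) x)) = push (fun _ : X => F (fun _ => c)) := by
      congr 1
    rw [this, lin_add_self]
    simpa using Van.zero (s + s)
  | insert a S ha ih =>
    have h1 := van_mixed' (F.comp (upd a)) (part g c S) (OrderHom.const X (fun _ => c)) g
      (OrderHom.const X c) (part_van g c hg S) hg
    have h3 := h1.add ih
    convert h3 using 1
    have e1 : (fun x => (F.comp (upd a)) ((part g c S) x, g x)) =
        fun x => F (part g c (insert a S) x) := by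
      funext x; simp [upd_part g c S a x]
    have e2 : (fun x => (F.comp (upd a)) ((part g c S) x, (OrderHom.const X c) x)) =
        fun x => F (part g c S x) := by
      funext x; simp [upd_part' g c S a ha x]
    have e3 : (fun x => (F.comp (upd a)) (((OrderHom.const X) fun _ : J => c) x, g x)) =
        fun x : X => F (Function.update (fun _ : J => c) a (g x)) := rfl
    have e4 : (fun x : X => (F.comp (upd a)) (((OrderHom.const X) fun _ : J => c) x,
        (OrderHom.const X c) x)) = fun _ : X => F (fun _ : J => c) := by
      funext x
      change F (Function.update (fun _ : J => c) a c) = _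
      rw [Function.update_eq_self a (fun _ : J => c)]
    rw [e1, e2, e3, e4, Finset.sum_insert ha]
    have e5 : push (fun x : X => F (Function.update (fun _ => c) a x)) ∘ₗ
        (push g + push (fun _ : X => c)) =
        push (fun x : X => F (Function.update (fun _ : J => c) a (g x))) +
          push (fun _ : X => F (fun _ : J => c)) := by
      rw [LinearMap.comp_add, push_push, push_push]
      rw [show F (Function.update (fun _ : J => c) a c) = F (fun _ : J => c) from
        congrArg F (Function.update_eq_self a (fun _ : J => c))]
    rw [e5]
    set p1 := push (fun x => F ((part g c S) x))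
    set p2 := push (fun x : X => F (Function.update (fun _ : J => c) a (g x)))
    set p3 := push (fun _ : X => F (fun _ : J => c))
    set p4 := push (fun x => F (part g c (insert a S) x))
    set p5 := ∑ a ∈ S, (push (fun x : X => F (Function.update (fun _ => c) a x)) ∘ₗ
        (push g + push (fun _ : X => c)))
    have a1 := lin_add_self p1
    calc p4 + p3 + (p2 + p3 + p5) = p4 + p3 + (p2 + p3 + p5) + (p1 + p1) := by
          rw [a1, add_zero]
      _ = _ := by abel

end slots

end Pool.Agent.Dist96500d
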