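import Pool.Agent.W_MP_96500d_co.Htpy

/-! The augmented mod 2 complex of lists of elements. -/

set_option autoImplicit false
set_option linter.unusedSectionVars false
set_option linter.deprecated false

namespace Pool.Agent.Dist96500d

/-- mod 2 chains on lists -/
abbrev LC (P : Type*) := List P →₀ ZMod 2

section basic
variable {P Q R : Type*}

/-- the basis element of a list -/
noncomputable def sg (l : List P) : LC P := Finsupp.single l 1

/-- linear maps on chains are determined on lists -/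
theorem LC.hom_ext {M : Type*} [AddCommMonoid M] [Module (ZMod 2) M]
    {A B : LC P →ₗ[ZMod 2] M} (h : ∀ l, A (sg l) = B (sg l)) : A = B :=
  Finsupp.lhom_ext' fun l => LinearMap.ext_ring (h l)

/-- additive induction on chains -/
theorem LC.ind {p : LC P → Prop} (h0 : p 0) (hadd : ∀ a b, p a → p b → p (a + b))
    (hsg : ∀ l, p (sg l)) (a : LC P) : p a := by
  induction a using Finsupp.induction_linear with
  | zero => exact h0
  | add a b ha hb => exact hadd a b ha hb
  | single l r =>
    have hr : r = 0 ∨ r = 1 := by revert r; decide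
    rcases hr with rfl | rfl
    · simpa using h0
    · exact hsg l

/-- the linear map with given values on lists -/
noncomputable def mk {M : Type*} [AddCommMonoid M] [Module (ZMod 2) M] (f : List P → M) :
    LC P →ₗ[ZMod 2] M := Finsupp.linearCombination (ZMod 2) f

@[simp] theorem mk_sg {M : Type*} [AddCommMonoid M] [Module (ZMod 2) M] (f : List P → M)
    (l : List P) : mk f (sg l) = f l := by
  simp [mk, sg]

/-- prepend an element -/
noncomputable def cons (x : P) : LC P →ₗ[ZMod 2] LC P := mk fun l => sg (x :: l)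

@[simp] theorem cons_sg (x : P) (l : List P) : cons x (sg l) = sg (x :: l) := mk_sg _ _

theorem add_self' {M : Type*} [AddCommGroup M] [Module (ZMod 2) M] (a : M) : a + a = 0 :=
  ZModModule.add_self a

theorem lin_add_self {M : Type*} [AddCommGroup M] [Module (ZMod 2) M]
    (A : LC P →ₗ[ZMod 2] M) : A + A = 0 := by
  apply LC.hom_ext
  intro l
  simp [add_self']

/-- the boundary of a list -/
noncomputable def bdl : List P → LC P
  | [] => 0
  | x :: l => sg l + cons x (bdl l)

/-- the boundary operator -/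
noncomputable def bd : LC P →ₗ[ZMod 2] LC P := mk bdl

@[simp] theorem bd_nil : bd (sg ([] : List P)) = 0 := by simp [bd, bdl]

theorem bd_sg_cons (x : P) (l : List P) : bd (sg (x :: l)) = sg l + cons x (bd (sg l)) := by
  simp [bd, bdl]

theorem bd_cons (x : P) (a : LC P) : bd (cons x a) = a + cons x (bd a) := by
  have : bd ∘ₗ cons x = LinearMap.id + cons x ∘ₗ bd := by
    apply LC.hom_ext
    intro l
    simp [bd_sg_cons]
  exact LinearMap.congr_fun this a

theorem bd_bd_sg (l : List P) : bd (bd (sg l)) = 0 := by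
  induction l with
  | nil => simp
  | cons x l ih => rw [bd_sg_cons, map_add, bd_cons, ih, map_zero, add_zero, add_self']

theorem bd_bd (a : LC P) : bd (bd a) = 0 := by
  have : bd ∘ₗ bd = (0 : LC P →ₗ[ZMod 2] LC P) := by
    apply LC.hom_ext
    intro l
    simpa using bd_bd_sg l
  exact LinearMap.congr_fun this a

/-- the chain map induced by a map -/
noncomputable def push (f : P → Q) : LC P →ₗ[ZMod 2] LC Q := mk fun l => sg (l.map f)

@[simp] theorem push_sg (f : P → Q) (l : List P) : push f (sg l) = sg (l.map f) := mk_sg _ _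

theorem push_cons (f : P → Q) (x : P) (a : LC P) :
    push f (cons x a) = cons (f x) (push f a) := by
  have : push f ∘ₗ cons x = cons (f x) ∘ₗ push f := by
    apply LC.hom_ext
    intro l
    simp
  exact LinearMap.congr_fun this a

theorem push_bd (f : P → Q) (a : LC P) : bd (push f a) = push f (bd a) := by
  have : bd ∘ₗ push f = push f ∘ₗ bd := by
    apply LC.hom_ext
    intro l
    induction l with
    | nil => simp
    | cons x l ih =>
      simp only [LinearMap.comp_apply, push_sg, List.map_cons, bd_sg_cons, map_add,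
        push_cons] at ih ⊢
      rw [ih]
  exact LinearMap.congr_fun this a

theorem push_comp (g : Q → R) (f : P → Q) (a : LC P) : push g (push f a) = push (g ∘ f) a := by
  have : push g ∘ₗ push f = push (g ∘ f) := by
    apply LC.hom_ext
    intro l
    simp
  exact LinearMap.congr_fun this a

theorem push_id (a : LC P) : push id a = a := by
  have : push id = (LinearMap.id : LC P →ₗ[ZMod 2] LC P) := by
    apply LC.hom_ext
    intro l
    simp
  exact LinearMap.congr_fun this a

/-- chains supported on a set of lists -/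
noncomputable def spn (S : Set (List P)) : Submodule (ZMod 2) (LC P) :=
  Finsupp.supported (ZMod 2) (ZMod 2) S

theorem sg_mem {S : Set (List P)} {l : List P} (h : l ∈ S) : sg l ∈ spn S :=
  Finsupp.single_mem_supported _ _ h

theorem spn_mono {S T : Set (List P)} (h : S ⊆ T) : spn S ≤ spn T :=
  Finsupp.supported_mono h

theorem spn_eq_span (S : Set (List P)) : spn S = Submodule.span (ZMod 2) (sg '' S) :=
  Finsupp.supported_eq_span_single _ _

theorem map_mem {M : Type*} [AddCommMonoid M] [Module (ZMod 2) M] {S : Set (List P)}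
    {V : Submodule (ZMod 2) M} {A : LC P →ₗ[ZMod 2] M}
    (h : ∀ l ∈ S, A (sg l) ∈ V) {a : LC P} (ha : a ∈ spn S) : A a ∈ V := by
  rw [spn_eq_span] at ha
  have : Submodule.span (ZMod 2) (sg '' S) ≤ V.comap A := by
    rw [Submodule.span_le]
    rintro _ ⟨l, hl, rfl⟩
    exact h l hl
  exact this ha

theorem map_eq {M : Type*} [AddCommGroup M] [Module (ZMod 2) M] {S : Set (List P)}
    {A B : LC P →ₗ[ZMod 2] M}
    (h : ∀ l ∈ S, A (sg l) = B (sg l)) {a : LC P} (ha : a ∈ spn S) : A a = B a := by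
  have := map_mem (V := ⊥) (A := A - B) (S := S) (fun l hl => by simp [h l hl]) ha
  simpa [sub_eq_zero] using this

theorem cons_mem {S T : Set (List P)} {x : P} (h : ∀ l ∈ S, x :: l ∈ T) {a : LC P}
    (ha : a ∈ spn S) : cons x a ∈ spn T :=
  map_mem (fun l hl => by rw [cons_sg]; exact sg_mem (h l hl)) ha

theorem push_mem {f : P → Q} {S : Set (List P)} {T : Set (List Q)}
    (h : ∀ l ∈ S, l.map f ∈ T) {a : LC P} (ha : a ∈ spn S) : push f a ∈ spn T :=
  map_mem (fun l hl => by rw [push_sg]; exact sg_mem (h l hl)) ha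

/-- lists of a given length -/
def Ln (P : Type*) (n : ℕ) : Set (List P) := {l | l.length = n}

theorem bd_len (l : List P) : bd (sg l) ∈ spn (Ln P (l.length - 1)) := by
  induction l with
  | nil => simp
  | cons x l ih =>
    rw [bd_sg_cons]
    refine Submodule.add_mem _ (sg_mem (by simp [Ln])) ?_
    cases l with
    | nil => simp
    | cons y l =>
      refine cons_mem ?_ ih
      intro l' hl'
      simp only [Ln, List.length_cons, Nat.add_sub_cancel, Set.mem_setOf_eq] at hl' ⊢
      omega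

end basic

section sorted
variable {P Q : Type*} [PartialOrder P] [PartialOrder Q]

/-- weakly decreasing lists -/
def Srt (P : Type*) [PartialOrder P] : Set (List P) := {l | l.Pairwise (fun a b => b ≤ a)}

/-- weakly decreasing lists with entries at most `y` -/
def SB (y : P) : Set (List P) := {l | l ∈ Srt P ∧ ∀ x ∈ l, x ≤ y}

theorem srt_nil : ([] : List P) ∈ Srt P := List.Pairwise.nil

theorem srt_cons {x : P} {l : List P} : x :: l ∈ Srt P ↔ l ∈ SB x := by
  simp only [Srt, SB, Set.mem_setOf_eq, List.pairwise_cons]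
  exact and_comm

theorem SB_subset_srt (y : P) : SB y ⊆ Srt P := fun _ h => h.1

theorem SB_mono {x y : P} (h : x ≤ y) : SB x ⊆ SB y := fun _ hl => ⟨hl.1, fun z hz => (hl.2 z hz).trans h⟩

theorem cons_SB {y : P} {l : List P} (h : l ∈ SB y) : y :: l ∈ SB y :=
  ⟨srt_cons.2 h, by
    intro x hx
    rcases List.mem_cons.1 hx with rfl | hx
    · exact le_rfl
    · exact h.2 x hx⟩

theorem cons_SB' {x y : P} (hxy : x ≤ y) {l : List P} (h : l ∈ SB x) : x :: l ∈ SB y :=
  SB_mono hxy (cons_SB h)

theorem map_srt {f : P → Q} (hf : Monotone f) {l : List P} (h : l ∈ Srt P) : l.map f ∈ Srt Q := by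
  simp only [Srt, Set.mem_setOf_eq] at h ⊢
  rw [List.pairwise_map]
  exact h.imp (fun h => hf h)

theorem map_SB {f : P → Q} (hf : Monotone f) {y : P} {l : List P} (h : l ∈ SB y) :
    l.map f ∈ SB (f y) := by
  refine ⟨map_srt hf h.1, ?_⟩
  intro x hx
  obtain ⟨z, hz, rfl⟩ := List.mem_map.1 hx
  exact hf (h.2 z hz)

theorem bd_SB {y : P} : ∀ {l : List P}, l ∈ SB y → bd (sg l) ∈ spn (SB y) := by
  intro l
  induction l generalizing y with
  | nil => intro _; simp
  | cons x l ih =>
    intro h
    have hl : l ∈ SB x := srt_cons.1 h.1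
    have hxy : x ≤ y := h.2 x (by simp)
    rw [bd_sg_cons]
    refine Submodule.add_mem _ (sg_mem (SB_mono hxy hl)) ?_
    exact cons_mem (fun l' hl' => cons_SB' hxy hl') (ih hl)

theorem bd_srt {l : List P} (h : l ∈ Srt P) : bd (sg l) ∈ spn (Srt P) := by
  cases l with
  | nil => simp
  | cons x l => exact spn_mono (SB_subset_srt x) (bd_SB (cons_SB (srt_cons.1 h)))

end sorted

section hom
variable {W X Y Z : Type*} [PartialOrder W] [PartialOrder X] [PartialOrder Y] [PartialOrder Z]

/-- chain maps of degree `0` killing the empty list and preserving decreasing lists -/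
structure Hom0 (A : LC W →ₗ[ZMod 2] LC Y) : Prop where
  comm : ∀ a, bd (A a) = A (bd a)
  nil : A (sg []) = 0
  len : ∀ l, A (sg l) ∈ spn (Ln Y l.length)
  srt : ∀ l ∈ Srt W, A (sg l) ∈ spn (Srt Y)

/-- maps of degree `1` killing the empty list and preserving decreasing lists -/
structure Hom1 (A : LC W →ₗ[ZMod 2] LC Y) : Prop where
  nil : A (sg []) = 0
  len : ∀ l, A (sg l) ∈ spn (Ln Y (l.length + 1))
  srt : ∀ l ∈ Srt W, A (sg l) ∈ spn (Srt Y)

theorem Hom0.add {A B : LC W →ₗ[ZMod 2] LC Y} (hA : Hom0 A) (hB : Hom0 B) : Hom0 (A + B) where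
  comm a := by simp [hA.comm, hB.comm]
  nil := by simp [hA.nil, hB.nil]
  len l := Submodule.add_mem _ (hA.len l) (hB.len l)
  srt l hl := Submodule.add_mem _ (hA.srt l hl) (hB.srt l hl)

theorem Hom1.add {A B : LC W →ₗ[ZMod 2] LC Y} (hA : Hom1 A) (hB : Hom1 B) : Hom1 (A + B) where
  nil := by simp [hA.nil, hB.nil]
  len l := Submodule.add_mem _ (hA.len l) (hB.len l)
  srt l hl := Submodule.add_mem _ (hA.srt l hl) (hB.srt l hl)

theorem Hom0.zero : Hom0 (0 : LC W →ₗ[ZMod 2] LC Y) where
  comm a := by simp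
  nil := by simp
  len l := by simp
  srt l _ := by simp

theorem Hom1.zero : Hom1 (0 : LC W →ₗ[ZMod 2] LC Y) where
  nil := by simp
  len l := by simp
  srt l _ := by simp

/-- the operator `∂h + h∂` -/
noncomputable def cm (h : LC W →ₗ[ZMod 2] LC Y) : LC W →ₗ[ZMod 2] LC Y := bd ∘ₗ h + h ∘ₗ bd

theorem cm_apply (h : LC W →ₗ[ZMod 2] LC Y) (a : LC W) : cm h a = bd (h a) + h (bd a) := rfl

theorem cm_add (h k : LC W →ₗ[ZMod 2] LC Y) : cm (h + k) = cm h + cm k := by
  simp only [cm, LinearMap.comp_add, LinearMap.add_comp]; abel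

theorem cm_zero : cm (0 : LC W →ₗ[ZMod 2] LC Y) = 0 := by simp [cm]

theorem Hom1.cm {h : LC W →ₗ[ZMod 2] LC Y} (hh : Hom1 h) : Hom0 (cm h) where
  comm a := by simp [cm_apply, bd_bd]
  nil := by simp [cm_apply, hh.nil]
  len l := by
    rw [cm_apply]
    refine Submodule.add_mem _ ?_ ?_
    · refine map_mem (S := Ln Y (l.length + 1)) ?_ (hh.len l)
      intro l' hl'
      have := bd_len l'
      rw [show l'.length - 1 = l.length by
        simp only [Ln, Set.mem_setOf_eq] at hl'; omega] at this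
      exact this
    · cases l with
      | nil => simp
      | cons x l =>
        refine map_mem (S := Ln W ((x :: l).length - 1)) ?_ (bd_len (x :: l))
        intro l' hl'
        have := hh.len l'
        rw [show l'.length + 1 = (x :: l).length by
          simp only [Ln, Set.mem_setOf_eq, List.length_cons, Nat.add_sub_cancel] at hl' ⊢
          omega] at this
        exact this
  srt l hl := by
    rw [cm_apply]
    refine Submodule.add_mem _ ?_ ?_
    · exact map_mem (S := Srt Y) (fun l' hl' => bd_srt hl') (hh.srt l hl)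
    · exact map_mem (S := Srt W) (fun l' hl' => hh.srt l' hl') (bd_srt hl)

theorem Hom0.push_comp {A : LC W →ₗ[ZMod 2] LC Y} (hA : Hom0 A) {f : Y → Z} (hf : Monotone f) :
    Hom0 (push f ∘ₗ A) where
  comm a := by simp [push_bd, hA.comm]
  nil := by simp [hA.nil]
  len l := push_mem (S := Ln Y l.length) (fun l' hl' => by simpa [Ln] using hl') (hA.len l)
  srt l hl := push_mem (fun l' hl' => map_srt hf hl') (hA.srt l hl)

theorem Hom1.push_comp {A : LC W →ₗ[ZMod 2] LC Y} (hA : Hom1 A) {f : Y → Z} (hf : Monotone f) :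
    Hom1 (push f ∘ₗ A) where
  nil := by simp [hA.nil]
  len l := push_mem (S := Ln Y (l.length + 1)) (fun l' hl' => by simpa [Ln] using hl') (hA.len l)
  srt l hl := push_mem (fun l' hl' => map_srt hf hl') (hA.srt l hl)

theorem Hom1.comp_push {A : LC Y →ₗ[ZMod 2] LC Z} (hA : Hom1 A) {f : W → Y} (hf : Monotone f) :
    Hom1 (A ∘ₗ push f) where
  nil := by simp [hA.nil]
  len l := by simpa using hA.len (l.map f)
  srt l hl := by simpa using hA.srt _ (map_srt hf hl)

theorem cm_push_comp (h : LC W →ₗ[ZMod 2] LC Y) (f : Y → Z) :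
    cm (push f ∘ₗ h) = push f ∘ₗ cm h := by
  ext1 l
  ext1
  simp [cm, push_bd]

theorem cm_comp_push (h : LC Y →ₗ[ZMod 2] LC Z) (f : W → Y) :
    cm (h ∘ₗ push f) = cm h ∘ₗ push f := by
  ext1 l
  ext1
  simp [cm, push_bd]

/-- null-homotopic -/
def Null (A : LC W →ₗ[ZMod 2] LC Y) : Prop := ∃ h, Hom1 h ∧ A = cm h

/-- vanishing up to homotopy on lists of length at most `s` -/
def Van (s : ℕ) (A : LC W →ₗ[ZMod 2] LC Y) : Prop :=
  ∃ B h, Hom0 B ∧ Hom1 h ∧ (∀ l, l.length ≤ s → B (sg l) = 0) ∧ A = B + cm h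

theorem Null.add {A B : LC W →ₗ[ZMod 2] LC Y} (hA : Null A) (hB : Null B) : Null (A + B) := by
  obtain ⟨h, hh, rfl⟩ := hA
  obtain ⟨k, hk, rfl⟩ := hB
  exact ⟨h + k, hh.add hk, (cm_add h k).symm⟩

theorem Null.zero : Null (0 : LC W →ₗ[ZMod 2] LC Y) := ⟨0, Hom1.zero, cm_zero.symm⟩

theorem Null.van {A : LC W →ₗ[ZMod 2] LC Y} (hA : Null A) (s : ℕ) : Van s A := by
  obtain ⟨h, hh, rfl⟩ := hA
  exact ⟨0, h, Hom0.zero, hh, by simp, by simp⟩

theorem Van.add {s : ℕ} {A B : LC W →ₗ[ZMod 2] LC Y} (hA : Van s A) (hB : Van s B) :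
    Van s (A + B) := by
  obtain ⟨A', h, hA', hh, hv, rfl⟩ := hA
  obtain ⟨B', k, hB', hk, hv', rfl⟩ := hB
  refine ⟨A' + B', h + k, hA'.add hB', hh.add hk, ?_, ?_⟩
  · intro l hl; simp [hv l hl, hv' l hl]
  · rw [cm_add]; abel

theorem Van.mono {s t : ℕ} (hst : s ≤ t) {A : LC W →ₗ[ZMod 2] LC Y} (hA : Van t A) :
    Van s A := by
  obtain ⟨A', h, hA', hh, hv, rfl⟩ := hA
  exact ⟨A', h, hA', hh, fun l hl => hv l (hl.trans hst), rfl⟩

theorem Van.zero (s : ℕ) : Van s (0 : LC W →ₗ[ZMod 2] LC Y) := Null.zero.van s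

theorem Van.sum {s : ℕ} {ι : Type*} (S : Finset ι) {A : ι → (LC W →ₗ[ZMod 2] LC Y)}
    (hA : ∀ i ∈ S, Van s (A i)) : Van s (∑ i ∈ S, A i) := by
  classical
  induction S using Finset.induction_on with
  | empty => simpa using Van.zero s
  | insert a S ha ih =>
    rw [Finset.sum_insert ha]
    exact (hA a (by simp)).add (ih fun i hi => hA i (by simp [hi]))

theorem Null.push_comp {A : LC W →ₗ[ZMod 2] LC Y} (hA : Null A) {f : Y → Z} (hf : Monotone f) :
    Null (push f ∘ₗ A) := by
  obtain ⟨h, hh, rfl⟩ := hA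
  exact ⟨push f ∘ₗ h, hh.push_comp hf, (cm_push_comp h f).symm⟩

theorem Null.comp_push {A : LC Y →ₗ[ZMod 2] LC Z} (hA : Null A) {f : W → Y} (hf : Monotone f) :
    Null (A ∘ₗ push f) := by
  obtain ⟨h, hh, rfl⟩ := hA
  exact ⟨h ∘ₗ push f, hh.comp_push hf, (cm_comp_push h f).symm⟩

theorem Van.push_comp {s : ℕ} {A : LC W →ₗ[ZMod 2] LC Y} (hA : Van s A) {f : Y → Z}
    (hf : Monotone f) : Van s (push f ∘ₗ A) := by
  obtain ⟨A', h, hA', hh, hv, rfl⟩ := hA
  refine ⟨push f ∘ₗ A', push f ∘ₗ h, hA'.push_comp hf, hh.push_comp hf, ?_, ?_⟩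
  · intro l hl; simp [hv l hl]
  · rw [LinearMap.comp_add, cm_push_comp]

end hom

end Pool.Agent.Dist96500d
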