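import Pool.Agent.W_MP_96500d_co.System

/-! The main fixed-fence theorem for a multi-variable map. -/

set_option autoImplicit false
set_option linter.unusedSectionVars false
set_option linter.deprecated false
set_option linter.unusedSimpArgs false

namespace Pool.Agent.Dist96500d

section main
variable {I X : Type*} [DecidableEq I] [Finite I] [PartialOrder X] [Finite X] [Nonempty X]

/-- the periodic rotation as a permutation of the nodes -/
noncomputable def rot (I : Type*) [Finite I] (m : ℕ) : Equiv.Perm (Fin (m + 1) → I) :=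
  Equiv.ofBijective prd (Finite.injective_iff_bijective.1 prd_injective)

theorem rot_apply {m : ℕ} (a : Fin (m + 1) → I) : rot I m a = prd a := rfl

theorem Hn_isWord {m : ℕ} (F : (I → X) →o X) (c : (Fin (m + 2) → I) → X) (n : ℕ) :
    ∀ a : Fin (m + 1) → I, ∃ w, w ≠ [] ∧
      IsWord F w (Hn (rot I m) (fun a => leaf F c (rr a)) a (n + 1)) := by
  have hne : ∀ a : Fin (m + 1) → I, List.ofFn (rr a) ≠ [] := by
    intro a h
    have := congrArg List.length h
    rw [List.length_ofFn] at this
    simp at this
  induction n with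
  | zero =>
    intro a
    refine ⟨List.ofFn (rr a), hne a, ?_⟩
    rw [Hn_succ, Hn, mul_one]
    exact leaf_isWord F c (rr a)
  | succ n ih =>
    intro a
    obtain ⟨w, _, hw⟩ := ih (rot I m a)
    refine ⟨List.ofFn (rr a) ++ w, by simp [hne a], ?_⟩
    rw [Hn_succ]
    exact (leaf_isWord F c (rr a)).append hw

theorem exists_up_diag (hX : IsConn X) (F : (I → X) →o X) (e : ℕ)
    (hwd : ∀ w g, w ≠ [] → IsWord F w g → ∃ x, Up e x (g x)) : ∃ x, Up e x (diag F x) := by
  classical
  obtain ⟨c0⟩ := ‹Nonempty X›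
  have hX0 : Nonempty X := ⟨c0⟩
  obtain ⟨m, hm⟩ : ∃ m, (Nat.card (X →o X)).factorial = m + 1 :=
    Nat.exists_eq_succ_of_ne_zero (Nat.factorial_ne_zero _)
  have hper : ∀ (w : List I) (hw : w ≠ []) (g : X →o X), IsWord F w g → ¬ Nilp g →
      ∀ j, cyc w hw (j + (m + 1)) = cyc w hw j := by
    intro w hw g hg hn
    have h1 : IsWord F (win (cyc w hw) 0 w.length) g := by rw [win_cyc]; exact hg
    have := word_periodic hX F (cyc w hw) w.length (List.length_pos_iff.2 hw)
      (cyc_add w hw) h1 hn
    rwa [hm] at this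
  -- the cyclic system and its approximate fixed vector
  let h : (Fin (m + 1) → I) → (X →o X) := fun a => leaf F (fun _ => c0) (rr a)
  obtain ⟨x, hx⟩ := exists_vector (rot I m) h e (by
    intro a n
    obtain ⟨w, hw, hg⟩ := Hn_isWord F (fun _ => c0) n a
    exact hwd w _ hw hg)
  let H : ((Fin (m + 1) → I) → X) →o ((Fin (m + 1) → I) → X) :=
    ⟨fun x a => h a (x (prd a)), fun x y hxy a => (h a).monotone (hxy (prd a))⟩
  have hxH : Up e x (H x) := Up.pi hx
  obtain ⟨K, hK⟩ : ∃ K, (Nat.card (((Fin (m + 1) → I) → X) →o ((Fin (m + 1) → I) → X))).factorial =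
      K + 1 := Nat.exists_eq_succ_of_ne_zero (Nat.factorial_ne_zero _)
  have hidem : H ^ (K + 1) * H ^ (K + 1) = H ^ (K + 1) := by
    rw [← hK]; exact pow_fact_idem H
  let Φ : Type _ := {y : (Fin (m + 1) → I) → X // (H ^ (K + 1)) y = y}
  have hfinΦ : Finite Φ := Subtype.finite
  have hcomm : H ^ (K + 1) * H = H * H ^ (K + 1) := by rw [← pow_succ, ← pow_succ']
  have hcomm' : H ^ (K + 1) * H ^ K = H ^ K * H ^ (K + 1) := by
    rw [← pow_add, ← pow_add, add_comm (K + 1) K]
  let σ : Φ →o Φ := ⟨fun y => ⟨H y.1, by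
    have := DFunLike.congr_fun hcomm y.1
    change (H ^ (K + 1)) (H y.1) = H ((H ^ (K + 1)) y.1) at this
    rw [this, y.2]⟩, fun y y' hy => H.monotone hy⟩
  let s : Φ →o Φ := ⟨fun y => ⟨(H ^ K) y.1, by
    have := DFunLike.congr_fun hcomm' y.1
    change (H ^ (K + 1)) ((H ^ K) y.1) = (H ^ K) ((H ^ (K + 1)) y.1) at this
    rw [this, y.2]⟩, fun y y' hy => (H ^ K).monotone hy⟩
  have hσs : ∀ y, σ (s y) = y := by
    intro y
    apply Subtype.ext
    have : H * H ^ K = H ^ (K + 1) := (pow_succ' H K).symm
    have h2 := DFunLike.congr_fun this y.1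
    exact h2.trans y.2
  have hsσ : ∀ y, s (σ y) = y := by
    intro y
    apply Subtype.ext
    have : H ^ K * H = H ^ (K + 1) := (pow_succ H K).symm
    have h2 := DFunLike.congr_fun this y.1
    exact h2.trans y.2
  let ρ : ((Fin (m + 1) → I) → X) →o Φ := ⟨fun y => ⟨(H ^ (K + 1)) y,
    DFunLike.congr_fun hidem y⟩, fun y y' hy => (H ^ (K + 1)).monotone hy⟩
  let o : Φ := ρ x
  have hoσ : Up e o (σ o) := by
    have h1 := hxH.map ρ.monotone
    have h2 : ρ (H x) = σ o := by
      apply Subtype.ext
      exact DFunLike.congr_fun hcomm x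
    rwa [h2] at h1
  let q : (Fin (m + 1) → I) → (Φ →o X) := fun a => ⟨fun y => y.1 a, fun y y' hy => hy a⟩
  have hq : ∀ a, q a = Bm F s a (q (prd a)) (fun _ => c0) := by
    intro a
    ext y
    have h1 : (σ (s y)).1 a = y.1 a := by rw [hσs]
    exact h1.symm
  obtain ⟨z, hz⟩ := exists_solution hX F s q c0 hq o hper
  set ζ : X := diag F (tr F (m + 1) (fun p => z p o)) with hζ
  have hzσ : ∀ a, z a (σ o) = ζ := by
    intro a
    have h1 := DFunLike.congr_fun (hz a) (σ o)
    rw [h1]
    change tr F (m + 2) (Function.update (fun r => z (Fin.tail r) o) (rr a)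
      (z (prd a) (s (σ o)))) = ζ
    rw [hsσ, hζ, ← tr_tail]
    congr 1
    exact Function.update_eq_self (rr a) (fun r : Fin (m + 2) → I => z (Fin.tail r) o)
  let Ξ : Φ →o X := ⟨fun y => diag F (tr F (m + 1) (fun p => z p y)), fun y y' hy =>
    (diag F).monotone (tr_mono F _ (fun p => (z p).monotone hy))⟩
  have h1 : Up e (Ξ o) (Ξ (σ o)) := hoσ.map Ξ.monotone
  have h2 : Ξ (σ o) = diag F ((diag F ^ (m + 1)) ζ) := by
    change diag F (tr F (m + 1) (fun p => z p (σ o))) = _
    simp only [hzσ]
    rw [tr_const]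
  have h3 : Ξ o = ζ := rfl
  rw [h2, h3] at h1
  refine ⟨(diag F ^ (m + 1)) ζ, ?_⟩
  have h4 := h1.map (diag F ^ (m + 1)).monotone
  have h5 : (diag F ^ (m + 1)) (diag F ((diag F ^ (m + 1)) ζ)) =
      diag F ((diag F ^ (m + 1)) ζ) := by
    have h6 : diag F ^ (m + 1) * (diag F * diag F ^ (m + 1)) = diag F * diag F ^ (m + 1) := by
      have h7 : diag F ^ (m + 1) * diag F ^ (m + 1) = diag F ^ (m + 1) := by
        rw [← hm]; exact pow_fact_idem _
      rw [← mul_assoc, ← pow_succ, pow_succ', mul_assoc, h7]
    exact DFunLike.congr_fun h6 ζ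
  rwa [h5] at h4

end main

section product
variable {P Q : Type*} [PartialOrder P] [PartialOrder Q] [Finite P] [Finite Q] [Nonempty P]
  [Nonempty Q]

/-- the two-slot map of a self-map of a product -/
def two (f : (P × Q) →o (P × Q)) : (Bool → (P × Q)) →o (P × Q) where
  toFun z := f ((z true).1, (z false).2)
  monotone' := by
    intro z z' h
    exact f.monotone (Prod.mk_le_mk.2 ⟨(h true).1, (h false).2⟩)

theorem diag_two (f : (P × Q) →o (P × Q)) : diag (two f) = f := rfl

theorem IsConn.prod (hP : IsConn P) (hQ : IsConn Q) : IsConn (P × Q) :=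
  fun x y => (hP x.1 y.1).prod (hQ x.2 y.2)

/-- The product theorem: if every order-preserving self-map of `P` and of `Q` moves some
point along a fence with `e` peaks, then so does every self-map of `P × Q`. -/
theorem exists_up_prod (hP : IsConn P) (hQ : IsConn Q) (e : ℕ)
    (h1 : ∀ g : P →o P, ∃ x, Up e x (g x)) (h2 : ∀ g : Q →o Q, ∃ x, Up e x (g x))
    (f : (P × Q) →o (P × Q)) : ∃ x, Up e x (f x) := by
  classical
  have := exists_up_diag (IsConn.prod hP hQ) (two f) e ?_
  · rwa [diag_two] at this
  · intro w g hw hg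
    cases w with
    | nil => exact absurd rfl hw
    | cons i w =>
      obtain ⟨c, g', hg', rfl⟩ := hg
      cases i with
      | true =>
        -- the section factors through `P`
        let a : P →o (P × Q) := ⟨fun p => f (p, (c false).2), fun p p' h =>
          f.monotone (Prod.mk_le_mk.2 ⟨h, le_rfl⟩)⟩
        obtain ⟨p, hp⟩ := h1 ((OrderHom.fst.comp g').comp a)
        refine ⟨a p, ?_⟩
        have h3 := hp.map a.monotone
        have h4 : a (((OrderHom.fst.comp g').comp a) p) = (sec (two f) true c * g') (a p) := by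
          change f ((g' (a p)).1, (c false).2) =
            f ((Function.update c true (g' (a p)) true).1,
              (Function.update c true (g' (a p)) false).2)
          simp
        rwa [h4] at h3
      | false =>
        let a : Q →o (P × Q) := ⟨fun p => f ((c true).1, p), fun p p' h =>
          f.monotone (Prod.mk_le_mk.2 ⟨le_rfl, h⟩)⟩
        obtain ⟨p, hp⟩ := h2 ((OrderHom.snd.comp g').comp a)
        refine ⟨a p, ?_⟩
        have h3 := hp.map a.monotone
        have h4 : a (((OrderHom.snd.comp g').comp a) p) = (sec (two f) false c * g') (a p) := by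
          change f ((c true).1, (g' (a p)).2) =
            f ((Function.update c false (g' (a p)) true).1,
              (Function.update c false (g' (a p)) false).2)
          simp
        rwa [h4] at h3

end product

end Pool.Agent.Dist96500d
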