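import Pool.Agent.W_MP_96500d_co.Words

/-! Non-nilpotent words are periodic with a universal period. -/

set_option autoImplicit false
set_option linter.unusedSectionVars false
set_option linter.deprecated false

namespace Pool.Agent.Dist96500d

open Relation

theorem exists_first_diff {I : Type*} : ∀ {w w' : List I}, w.length = w'.length → w ≠ w' →
    ∃ w1 i i' v v', i ≠ i' ∧ w = w1 ++ i :: v ∧ w' = w1 ++ i' :: v' := by
  intro w
  induction w with
  | nil =>
    intro w' hlen hne
    cases w' with
    | nil => exact absurd rfl hne
    | cons _ _ => simp at hlen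
  | cons x w ih =>
    intro w' hlen hne
    cases w' with
    | nil => simp at hlen
    | cons y w' =>
      by_cases hxy : x = y
      · subst hxy
        obtain ⟨w1, i, i', v, v', hi, h1, h2⟩ := ih (w' := w') (by simpa using hlen)
          (fun h => hne (by rw [h]))
        exact ⟨x :: w1, i, i', v, v', hi, by rw [h1]; rfl, by rw [h2]; rfl⟩
      · exact ⟨[], x, y, w, w', hxy, rfl, rfl⟩

section nc
variable {I X : Type*} [PartialOrder X] [Finite X] [Nonempty X] [DecidableEq I] [Finite I]

/-- two different words of the same length with the same idempotent homotopy class are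
nilpotent -/
theorem nilp_of_two_words (hX : IsConn X) {F : (I → X) →o X} {w w' : List I}
    (hlen : w.length = w'.length) (hne : w ≠ w') {f f' : X →o X} (hf : IsWord F w f)
    (hf' : IsWord F w' f') (hff : Conn f f') (hidem : Conn f (f * f)) : Nilp f := by
  obtain ⟨w1, i, i', v, v', hi, rfl, rfl⟩ := exists_first_diff hlen hne
  obtain ⟨g1, g3, hg1, ⟨c, g2, hg2, rfl⟩, rfl⟩ := hf.split
  obtain ⟨g1', g3', hg1', ⟨c', g2', hg2', rfl⟩, rfl⟩ := hf'.split
  set f := g1 * (sec F i c * g2) with hfdef
  let C : Set (X →o X) := {h | Conn f h}
  obtain ⟨e, heC, hee, hrig⟩ := exists_rigid C ⟨f, Conn.refl f⟩ (by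
    intro a ha b hb
    exact hidem.trans (Conn.mul ha hb))
  have hcorner : ∀ h ∈ C, e * h * e = e := by
    intro h hh
    have h1 : Conn e h := (Conn.symm heC).trans hh
    have h2 := (h1.connIn (S := C) heC (fun x y hx hxy => Conn.trans hx (Conn.of_cmp hxy))).1
    rw [← hrig e h h2, hee, hee]
  have key : ∀ r r' : X, e r = e r' := by
    intro r r'
    have h1 : g1 * (sec F i (Function.update c i' (g2' (e r'))) * g2) ∈ C :=
      hf.conn hX (hg1.append (IsWord.cons i _ hg2))
    have h2 : g1 * (sec F i' (Function.update c i (g2 (e r))) * g2') ∈ C :=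
      hff.trans (hf'.conn hX (hg1.append (IsWord.cons i' _ hg2')))
    have h3 := DFunLike.congr_fun (hcorner _ h1) r
    have h4 := DFunLike.congr_fun (hcorner _ h2) r'
    simp only [OrderHom.mul_eq_comp, OrderHom.comp_coe, Function.comp_apply, sec_apply] at h3 h4
    refine h3.symm.trans (Eq.trans ?_ h4)
    rw [Function.update_comm hi]
  obtain ⟨x0⟩ := ‹Nonempty X›
  refine ⟨1, e x0, ?_⟩
  have : e = OrderHom.const X (e x0) := by
    ext r; exact key r x0
  rw [pow_one, ← this]
  exact heC

end nc

section win
variable {I : Type*}

/-- the window of length `b` of the sequence `s` starting at `a` -/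
def win (s : ℕ → I) : ℕ → ℕ → List I
  | _, 0 => []
  | a, b + 1 => s a :: win s (a + 1) b

@[simp] theorem win_zero (s : ℕ → I) (a : ℕ) : win s a 0 = [] := rfl
theorem win_succ (s : ℕ → I) (a b : ℕ) : win s a (b + 1) = s a :: win s (a + 1) b := rfl

@[simp] theorem win_length (s : ℕ → I) (a b : ℕ) : (win s a b).length = b := by
  induction b generalizing a with
  | zero => rfl
  | succ b ih => simp [win_succ, ih]

theorem win_add (s : ℕ → I) (a b b' : ℕ) : win s a (b + b') = win s a b ++ win s (a + b) b' := by
  induction b generalizing a with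
  | zero => simp
  | succ b ih =>
    rw [show b + 1 + b' = (b + b') + 1 by ring, win_succ, ih, win_succ,
      show a + 1 + b = a + (b + 1) by ring]
    rfl

theorem win_congr {s t : ℕ → I} {a a' : ℕ} {b : ℕ} (h : ∀ j, j < b → s (a + j) = t (a' + j)) :
    win s a b = win t a' b := by
  induction b generalizing a a' with
  | zero => rfl
  | succ b ih =>
    rw [win_succ, win_succ]
    congr 1
    · simpa using h 0 (by omega)
    · refine ih ?_
      intro j hj
      have := h (j + 1) (by omega)
      rwa [show a + 1 + j = a + (j + 1) by ring, show a' + 1 + j = a' + (j + 1) by ring]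

theorem win_inj {s t : ℕ → I} {a a' : ℕ} {b : ℕ} (h : win s a b = win t a' b) :
    ∀ j, j < b → s (a + j) = t (a' + j) := by
  induction b generalizing a a' with
  | zero => intro j hj; omega
  | succ b ih =>
    rw [win_succ, win_succ] at h
    injection h with h1 h2
    intro j hj
    rcases Nat.eq_zero_or_pos j with rfl | hj0
    · simpa using h1
    · have := ih h2 (j - 1) (by omega)
      rwa [show a + 1 + (j - 1) = a + j by omega, show a' + 1 + (j - 1) = a' + j by omega] at this

end win

section nc2
variable {I X : Type*} [PartialOrder X] [Finite X] [Nonempty X] [DecidableEq I] [Finite I]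

/-- the word map with fixed constants -/
def wm (F : (I → X) →o X) (c : I → X) : List I → (X →o X)
  | [] => 1
  | i :: w => sec F i c * wm F c w

omit [Finite X] [Nonempty X] [Finite I] in
theorem wm_isWord (F : (I → X) →o X) (c : I → X) (w : List I) : IsWord F w (wm F c w) := by
  induction w with
  | nil => rfl
  | cons i w ih => exact ih.cons i c

omit [Finite X] [Nonempty X] [Finite I] in
theorem wm_append (F : (I → X) →o X) (c : I → X) (u v : List I) :
    wm F c (u ++ v) = wm F c u * wm F c v := by
  induction u with
  | nil => simp [wm]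
  | cons i u ih => simp [wm, ih, mul_assoc]

theorem word_periodic (hX : IsConn X) (F : (I → X) →o X) (s : ℕ → I) (n : ℕ) (hn : 0 < n)
    (hs : ∀ j, s (j + n) = s j) {g : X →o X} (hg : IsWord F (win s 0 n) g) (hnil : ¬ Nilp g) :
    ∀ j, s (j + (Nat.card (X →o X)).factorial) = s j := by
  classical
  obtain ⟨x0⟩ := ‹Nonempty X›
  set K := (Nat.card (X →o X)).factorial with hK
  have hKpos : 0 < K := Nat.factorial_pos _
  let c : I → X := fun _ => x0
  -- periodicity of windows
  have hs' : ∀ k j, s (j + k * n) = s j := by
    intro k
    induction k with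
    | zero => intro j; simp
    | succ k ih => intro j; rw [show j + (k + 1) * n = (j + k * n) + n by ring, hs, ih]
  have hwin : ∀ a b, win s (a + n) b = win s a b := by
    intro a b
    refine win_congr ?_
    intro j _
    rw [show a + n + j = (a + j) + n by ring, hs]
  have hpow : ∀ a k, wm F c (win s a (k * n)) = (wm F c (win s a n)) ^ k := by
    intro a k
    induction k with
    | zero => simp [wm]
    | succ k ih =>
      rw [show (k + 1) * n = n + k * n by ring, win_add, wm_append, hwin, ih, pow_succ']
  -- non-nilpotency of all rotations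
  have hnil' : ∀ a, ¬ Nilp (wm F c (win s a n)) := by
    intro a
    induction a with
    | zero => exact fun h => hnil (h.congr ((wm_isWord F c _).conn hX hg))
    | succ a ih =>
      intro h
      apply ih
      obtain ⟨m, rfl⟩ : ∃ m, n = m + 1 := ⟨n - 1, by omega⟩
      rw [win_add, wm_append] at h
      rw [show m + 1 = 1 + m by ring, win_add, wm_append]
      have h1 : win s (a + 1 + m) 1 = win s a 1 := by
        refine win_congr ?_
        intro j _
        rw [show a + 1 + m + j = (a + j) + (m + 1) by ring, hs]
      rw [h1] at h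
      exact Nilp.swap h
  -- pigeonhole
  obtain ⟨a, p, hp, hpN, hG⟩ : ∃ a p : ℕ, 1 ≤ p ∧ p ≤ Nat.card (X →o X) ∧
      wm F c (win s a (K * n)) = wm F c (win s (a + p) (K * n)) := by
    cases nonempty_fintype (X →o X)
    obtain ⟨a, ha, b, hb, hab, h⟩ := Finset.exists_ne_map_eq_of_card_lt_of_maps_to
      (s := Finset.range (Nat.card (X →o X) + 1)) (t := (Finset.univ : Finset (X →o X)))
      (f := fun a => wm F c (win s a (K * n)))
      (by simp [Nat.card_eq_fintype_card]) (fun _ _ => Finset.mem_coe.2 (Finset.mem_univ _))
    simp only [Finset.mem_range] at ha hb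
    rcases lt_or_gt_of_ne hab with hlt | hlt
    · exact ⟨a, b - a, by omega, by omega, by
        rw [show a + (b - a) = b by omega]; exact h⟩
    · exact ⟨b, a - b, by omega, by omega, by
        rw [show b + (a - b) = a by omega]; exact h.symm⟩
  -- the windows are equal
  have heq : win s a (K * n) = win s (a + p) (K * n) := by
    by_contra hne
    have h1 : Nilp (wm F c (win s a (K * n))) := by
      refine nilp_of_two_words hX (by simp) hne (wm_isWord F c _) (wm_isWord F c _)
        (Conn.of_eq hG) (Conn.of_eq ?_)
      rw [hpow, pow_fact_idem]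
    rw [hpow] at h1
    exact hnil' a h1.of_pow
  have hper : ∀ j, s (j + p) = s j := by
    intro j
    -- reduce to a position in the window
    have h1 : ∀ j, j < n → s (a + j) = s (a + p + j) := by
      intro j hj
      refine win_inj heq j (lt_of_lt_of_le hj ?_)
      exact Nat.le_mul_of_pos_left n hKpos
    have hmod : ∀ j, s (a + j) = s (a + j % n) := by
      intro j
      conv_lhs => rw [← Nat.mod_add_div j n]
      rw [show a + (j % n + n * (j / n)) = (a + j % n) + (j / n) * n by ring, hs']
    have hmod' : ∀ j, s (a + p + j) = s (a + p + j % n) := by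
      intro j
      conv_lhs => rw [← Nat.mod_add_div j n]
      rw [show a + p + (j % n + n * (j / n)) = (a + p + j % n) + (j / n) * n by ring, hs']
    have h2 : ∀ j, s (a + j) = s (a + p + j) := by
      intro j
      rw [hmod j, hmod' j, h1 _ (Nat.mod_lt _ hn)]
    -- shift by a multiple of n to get past a
    have h3 := h2 (j + a * (n - 1))
    have h4 : a + (j + a * (n - 1)) = j + a * n := by
      obtain ⟨m, rfl⟩ : ∃ m, n = m + 1 := ⟨n - 1, by omega⟩
      simp only [Nat.add_sub_cancel]; ring
    rw [h4, show a + p + (j + a * (n - 1)) = (a + (j + a * (n - 1))) + p by ring, h4, hs',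
      show j + a * n + p = (j + p) + a * n by ring, hs'] at h3
    exact h3.symm
  have hd : p ∣ K := Nat.dvd_factorial (by omega) hpN
  obtain ⟨q, hq⟩ := hd
  have hq' : ∀ q j, s (j + p * q) = s j := by
    intro q
    induction q with
    | zero => intro j; simp
    | succ q ih => intro j; rw [show j + p * (q + 1) = (j + p * q) + p by ring, hper, ih]
  intro j
  rw [hq, hq']

end nc2

end Pool.Agent.Dist96500d
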