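import Pool.Agent.W_MP_96500d_co.Htpy

/-! Idempotent powers, nilpotency up to homotopy, rigid idempotents. -/

set_option autoImplicit false
set_option linter.unusedSectionVars false
set_option linter.deprecated false

namespace Pool.Agent.Dist96500d

open Relation

/-- in a finite monoid the powers of `x` repeat with a period at most the cardinality -/
theorem exists_pow_repeat {M : Type*} [Monoid M] [Finite M] (x : M) :
    ∃ i p : ℕ, i ≤ Nat.card M ∧ 1 ≤ p ∧ p ≤ Nat.card M ∧ x ^ (i + p) = x ^ i := by
  classical
  cases nonempty_fintype M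
  obtain ⟨a, ha, b, hb, hab, h⟩ := Finset.exists_ne_map_eq_of_card_lt_of_maps_to
    (s := Finset.range (Nat.card M + 1)) (t := (Finset.univ : Finset M)) (f := fun n => x ^ n)
    (by simp [Nat.card_eq_fintype_card]) (fun _ _ => Finset.mem_coe.2 (Finset.mem_univ _))
  simp only [Finset.mem_range] at ha hb
  rcases lt_or_gt_of_ne hab with hlt | hlt
  · exact ⟨a, b - a, by omega, by omega, by omega, by
      rw [show a + (b - a) = b by omega]; exact h.symm⟩
  · exact ⟨b, a - b, by omega, by omega, by omega, by
      rw [show b + (a - b) = a by omega]; exact h⟩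

theorem pow_fact_idem {M : Type*} [Monoid M] [Finite M] (x : M) :
    x ^ (Nat.card M).factorial * x ^ (Nat.card M).factorial = x ^ (Nat.card M).factorial := by
  obtain ⟨i, p, hi, hp, hpN, h⟩ := exists_pow_repeat x
  have h1 : ∀ k n, i ≤ n → x ^ (n + k * p) = x ^ n := by
    intro k
    induction k with
    | zero => intro n _; simp
    | succ k ih =>
      intro n hn
      have : x ^ (n + p) = x ^ n := by
        rw [show n + p = (n - i) + (i + p) by omega, pow_add, h, ← pow_add,
          show n - i + i = n by omega]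
      rw [show n + (k + 1) * p = (n + p) + k * p by ring, ih _ (by omega), this]
  have hd : p ∣ (Nat.card M).factorial := Nat.dvd_factorial (by omega) hpN
  obtain ⟨k, hk⟩ := hd
  have hN : i ≤ (Nat.card M).factorial := hi.trans (Nat.self_le_factorial _)
  have := h1 k _ hN
  rw [← pow_add]
  nth_rewrite 2 [hk]
  rw [mul_comm p k]
  exact this

theorem fact_pos' (n : ℕ) : 0 < n.factorial := Nat.factorial_pos n

section nilp
variable {X Y : Type*} [PartialOrder X] [PartialOrder Y]

instance [Finite X] [Finite Y] : Finite (X →o Y) := DFunLike.finite _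

/-- some power is homotopic to a constant -/
def Nilp (g : X →o X) : Prop := ∃ (k : ℕ) (c : X), Conn (g ^ k) (OrderHom.const X c)

theorem Nilp.congr {g h : X →o X} (hgh : Conn g h) (hg : Nilp g) : Nilp h := by
  obtain ⟨k, c, hk⟩ := hg
  exact ⟨k, c, (hgh.symm.pow k).trans hk⟩

theorem comp_pow_succ (A : Y →o X) (B : X →o Y) (k : ℕ) :
    (A.comp B) ^ (k + 1) = A.comp (((B.comp A) ^ k).comp B) := by
  induction k with
  | zero => ext x; simp
  | succ k ih =>
    rw [pow_succ', ih, pow_succ']
    ext x
    simp [OrderHom.mul_eq_comp]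

theorem Nilp.swap {A : Y →o X} {B : X →o Y} (h : Nilp (B.comp A)) : Nilp (A.comp B) := by
  obtain ⟨k, c, hk⟩ := h
  refine ⟨k + 1, A c, ?_⟩
  rw [comp_pow_succ]
  have h1 : Conn (A.comp (((B.comp A) ^ k).comp B)) (A.comp ((OrderHom.const Y c).comp B)) :=
    (Conn.refl A).comp (hk.comp (Conn.refl B))
  exact h1.trans (Conn.of_eq (by ext x; simp))

theorem Nilp.const (c : X) : Nilp (OrderHom.const X c) :=
  ⟨1, c, by simpa using Conn.refl _⟩

theorem Nilp.of_pow {g : X →o X} {n : ℕ} (h : Nilp (g ^ n)) : Nilp g := by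
  obtain ⟨k, c, hk⟩ := h
  exact ⟨n * k, c, by rwa [pow_mul]⟩

/-- if `g` is nilpotent all high powers are homotopic to constants -/
theorem Nilp.pow_large {g : X →o X} (h : Nilp g) : ∃ k, ∀ n, k ≤ n →
    ∃ c, Conn (g ^ n) (OrderHom.const X c) := by
  obtain ⟨k, c, hk⟩ := h
  refine ⟨k, fun n hn => ⟨(g ^ (n - k)) c, ?_⟩⟩
  have : g ^ n = g ^ (n - k) * g ^ k := by rw [← pow_add]; congr 1; omega
  rw [this]
  refine ((Conn.refl _).mul hk).trans (Conn.of_eq (by ext x; simp [OrderHom.mul_eq_comp]))

end nilp

section rigid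
variable {X : Type*} [PartialOrder X] [Finite X]

theorem pow_mem_of_mul {M : Type*} [Monoid M] {C : Set M} (hmul : ∀ a ∈ C, ∀ b ∈ C, a * b ∈ C)
    {a : M} (ha : a ∈ C) : ∀ n : ℕ, 0 < n → a ^ n ∈ C := by
  intro n
  induction n with
  | zero => intro h; omega
  | succ n ih =>
    intro _
    rcases Nat.eq_zero_or_pos n with rfl | hn
    · simpa using ha
    · rw [pow_succ]; exact hmul _ (ih hn) _ ha

/-- A subsemigroup of self-maps of a finite poset contains an idempotent `e` such that
`e * h * e` depends only on the homotopy class of `h` within the subsemigroup. -/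
theorem exists_rigid (C : Set (X →o X)) (hne : C.Nonempty)
    (hmul : ∀ a ∈ C, ∀ b ∈ C, a * b ∈ C) :
    ∃ e ∈ C, e * e = e ∧ ∀ h h', ConnIn C h h' → e * h * e = e * h' * e := by
  classical
  set K := (Nat.card (X →o X)).factorial with hK
  have hKpos : 0 < K := Nat.factorial_pos _
  have hidem : ∀ x : X →o X, x ^ K * x ^ K = x ^ K := fun x => pow_fact_idem x
  obtain ⟨a, ha⟩ := hne
  let S : Set (X →o X) := {e | e ∈ C ∧ e * e = e}
  have hS : S.Nonempty := ⟨a ^ K, pow_mem_of_mul hmul ha K hKpos, hidem a⟩
  obtain ⟨e, he, hmin⟩ := Set.exists_min_image S (fun e => (Set.range e).ncard)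
    (Set.toFinite S) hS
  have hee : e * e = e := he.2
  -- powers of corner elements
  have hpow : ∀ h ∈ C, (e * h * e) ^ K = e := by
    intro h hh
    have hc : e * h * e ∈ C := hmul _ (hmul _ he.1 _ hh) _ he.1
    set f := (e * h * e) ^ K with hf
    have hfS : f ∈ S := ⟨pow_mem_of_mul hmul hc K hKpos, hidem _⟩
    have hef : e * f = f := by
      obtain ⟨k, hk⟩ : ∃ k, K = k + 1 := ⟨K - 1, by omega⟩
      rw [hf, hk, pow_succ']
      simp only [← mul_assoc, hee]
    have hfe : f * e = f := by
      obtain ⟨k, hk⟩ : ∃ k, K = k + 1 := ⟨K - 1, by omega⟩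
      rw [hf, hk, pow_succ]
      simp only [mul_assoc, hee]
    have hsub : Set.range f ⊆ Set.range e := by
      rintro _ ⟨x, rfl⟩
      refine ⟨f x, ?_⟩
      have := DFunLike.congr_fun hef x
      simpa using this
    have heq : Set.range f = Set.range e :=
      Set.eq_of_subset_of_ncard_le hsub (hmin f hfS) (Set.toFinite _)
    have : f * e = e := by
      ext x
      have hx : e x ∈ Set.range f := by rw [heq]; exact ⟨x, rfl⟩
      obtain ⟨y, hy⟩ := hx
      have h2 := DFunLike.congr_fun hfS.2 y
      simp only [OrderHom.mul_eq_comp, OrderHom.comp_coe, Function.comp_apply] at h2 ⊢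
      rw [← hy, h2]
    rw [← hfe, this]
  have hle : ∀ h ∈ C, ∀ h' ∈ C, h ≤ h' → e * h * e = e * h' * e := by
    intro h hh h' hh' hle
    have ha := hpow h hh
    set a := e * h * e with ha'
    set b := e * h' * e with hb'
    have haC : a ∈ C := hmul _ (hmul _ he.1 _ hh) _ he.1
    have hbC : b ∈ C := hmul _ (hmul _ he.1 _ hh') _ he.1
    have hab : a ≤ b := OrderHom.comp_mono (OrderHom.comp_mono le_rfl hle) le_rfl
    have hea : e * a = a := by rw [ha']; simp only [← mul_assoc, hee]
    have hae : a * e = a := by rw [ha']; simp only [mul_assoc, hee]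
    have heb : e * b = b := by rw [hb']; simp only [← mul_assoc, hee]
    have hbe : b * e = b := by rw [hb']; simp only [mul_assoc, hee]
    obtain ⟨k, hk⟩ : ∃ k, K = k + 1 := ⟨K - 1, by omega⟩
    -- c = a^K * a^k * b
    set c := e * (a ^ k * b) * e with hc
    have hcC : c ∈ C := by
      rw [hc]
      refine hmul _ (hmul _ he.1 _ ?_) _ he.1
      rcases Nat.eq_zero_or_pos k with hk0 | hk0
      · rw [hk0]; simpa using hbC
      · exact hmul _ (pow_mem_of_mul hmul haC k hk0) _ hbC
    have hce : e ≤ c := by
      have h1 : e * (a ^ k * a) * e = e := by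
        rw [← pow_succ, ← hk, ha, hee, hee]
      calc e = e * (a ^ k * a) * e := h1.symm
        _ ≤ c := OrderHom.comp_mono (OrderHom.comp_mono le_rfl
          (OrderHom.comp_mono le_rfl hab)) le_rfl
    have hec : e * c = c := by rw [hc]; simp only [← mul_assoc, hee]
    have hcee : c * e = c := by rw [hc]; simp only [mul_assoc, hee]
    have hcK : c ^ K = e := by
      have := hpow c hcC
      rwa [hec, hcee] at this
    have hcj : ∀ j, e ≤ e * c ^ j := by
      intro j
      induction j with
      | zero => simp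
      | succ j ih =>
        calc e ≤ e * c ^ j := ih
          _ = e * c ^ j * 1 := by simp
          _ = e * (c ^ j * 1) := by simp
          _ ≤ e * c ^ (j + 1) := by
            rcases Nat.eq_zero_or_pos j with rfl | hj
            · simpa [hec] using hce
            · obtain ⟨j', rfl⟩ : ∃ j', j = j' + 1 := ⟨j - 1, by omega⟩
              have : c ^ (j' + 1) = c ^ (j' + 1) * e := by
                rw [pow_succ, mul_assoc, hcee]
              rw [mul_one]
              nth_rewrite 1 [this]
              rw [pow_succ c (j' + 1)]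
              exact OrderHom.comp_mono le_rfl (OrderHom.comp_mono le_rfl hce)
    have hce2 : c = e := by
      apply le_antisymm _ hce
      calc c = c * e := hcee.symm
        _ ≤ c * (e * c ^ k) := OrderHom.comp_mono le_rfl (hcj k)
        _ = c * c ^ k := by rw [← mul_assoc, hcee]
        _ = c ^ K := by rw [hk, pow_succ']
        _ = e := hcK
    -- conclude
    have h3 : a * c = b := by
      rw [hc]
      calc a * (e * (a ^ k * b) * e) = (a * e) * a ^ k * (b * e) := by
            simp only [mul_assoc]
        _ = a * a ^ k * b := by rw [hae, hbe]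
        _ = a ^ K * b := by rw [hk, pow_succ']
        _ = b := by rw [ha, heb]
    rw [← h3, hce2, hae]
  refine ⟨e, he.1, hee, ?_⟩
  intro h h' hc
  induction hc with
  | refl => rfl
  | tail h1 h2 ih =>
    rw [ih]
    rcases h2.2.2 with h3 | h3
    · exact hle _ h2.1 _ h2.2.1 h3
    · exact (hle _ h2.2.1 _ h2.1 h3).symm

end rigid

end Pool.Agent.Dist96500d
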