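import Pool.Agent.W_MP_96500d_co.Contract

/-! Shuffle pairing and front-back splitting on list complexes. -/

set_option autoImplicit false
set_option linter.unusedSectionVars false
set_option linter.deprecated false

namespace Pool.Agent.Dist96500d

section pairing
variable {Z Y : Type*}

/-- coefficient of the empty list -/
noncomputable def e0 {P : Type*} : LC P →ₗ[ZMod 2] ZMod 2 := mk fun l => match l with
  | [] => 1
  | _ :: _ => 0

@[simp] theorem e0_nil {P : Type*} : e0 (sg ([] : List P)) = 1 := by simp [e0]

@[simp] theorem e0_sg_cons {P : Type*} (x : P) (l : List P) : e0 (sg (x :: l)) = 0 := by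
  simp [e0]

@[simp] theorem e0_cons {P : Type*} (x : P) (a : LC P) : e0 (cons x a) = 0 := by
  have : e0 ∘ₗ cons x = 0 := by
    apply LC.hom_ext; intro l; simp
  exact LinearMap.congr_fun this a

theorem e0_of_len {P : Type*} {n : ℕ} (hn : n ≠ 0) {a : LC P} (ha : a ∈ spn (Ln P n)) :
    e0 a = 0 := by
  have := map_eq (A := e0) (B := 0) (S := Ln P n) (fun l hl => by
    cases l with
    | nil => exact absurd (show n = 0 from hl.symm) hn
    | cons x l => simp) ha
  simpa using this

/-- the correction term in the shuffle product -/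
noncomputable def dl {P : Type*} (u : List Z) (v : List Y) : LC P :=
  (e0 (sg u) * e0 (sg v)) • sg []

/-- the shuffle product of two lists -/
noncomputable def E : List Z → List Y → LC (Z × Y)
  | [], _ => 0
  | _ :: _, [] => 0
  | x :: u, z :: v => cons (x, z) (E u (z :: v) + E (x :: u) v + dl u v)
termination_by u v => u.length + v.length

theorem E_nil_left (v : List Y) : E ([] : List Z) v = 0 := by
  rw [E]

theorem E_nil_right (u : List Z) : E u ([] : List Y) = 0 := by
  cases u <;> rw [E]

theorem E_cons (x : Z) (u : List Z) (z : Y) (v : List Y) :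
    E (x :: u) (z :: v) = cons (x, z) (E u (z :: v) + E (x :: u) v + dl u v) := by
  rw [E]

/-- the bilinear extension of the shuffle product -/
noncomputable def EL : LC Z →ₗ[ZMod 2] LC Y →ₗ[ZMod 2] LC (Z × Y) :=
  mk fun u => mk fun v => E u v

theorem EL_sg (u : List Z) (v : List Y) : EL (sg u) (sg v) = E u v := by
  simp [EL]

theorem EL_nil_left (b : LC Y) : EL (sg ([] : List Z)) b = 0 := by
  have : EL (sg ([] : List Z)) = (0 : LC Y →ₗ[ZMod 2] LC (Z × Y)) := by
    apply LC.hom_ext; intro l; rw [EL_sg, E_nil_left]; simp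
  rw [this]; simp

theorem EL_nil_right (a : LC Z) : EL a (sg ([] : List Y)) = 0 := by
  have : EL.flip (sg ([] : List Y)) = (0 : LC Z →ₗ[ZMod 2] LC (Z × Y)) := by
    apply LC.hom_ext; intro l; simp [EL_sg, E_nil_right]
  simpa using LinearMap.congr_fun this a

theorem EL_cons (x : Z) (a : LC Z) (z : Y) (b : LC Y) :
    EL (cons x a) (cons z b) =
      cons (x, z) (EL a (cons z b) + EL (cons x a) b + (e0 a * e0 b) • sg []) := by
  induction a using LC.ind with
  | h0 => simp
  | hadd a a' ha ha' =>
    simp only [map_add, LinearMap.add_apply, ha, ha', add_mul, add_smul]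
    abel
  | hsg u =>
    induction b using LC.ind with
    | h0 => simp
    | hadd b b' hb hb' =>
      simp only [map_add, hb, hb', mul_add, add_smul]
      abel
    | hsg v =>
      simp only [cons_sg, EL_sg, E_cons, dl]

theorem bd_E (n : ℕ) : ∀ (u : List Z) (v : List Y), u.length + v.length ≤ n →
    bd (EL (sg u) (sg v)) = EL (bd (sg u)) (sg v) + EL (sg u) (bd (sg v)) +
      (e0 (bd (sg u)) * e0 (bd (sg v))) • sg [] := by
  induction n with
  | zero =>
    intro u v h
    have hu : u = [] := List.length_eq_zero_iff.1 (by omega)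
    subst hu
    simp [EL_nil_left]
  | succ n ih =>
    intro u v h
    match u, v with
    | [], v => simp [EL_nil_left]
    | x :: u, [] => simp [EL_nil_right]
    | x :: u, z :: v =>
      have h1 := ih u (z :: v) (by simp at h ⊢; omega)
      have h2 := ih (x :: u) v (by simp at h ⊢; omega)
      rw [← cons_sg x, ← cons_sg z] at *
      simp only [bd_cons, map_add, LinearMap.add_apply, e0_cons, add_zero, EL_cons, map_smul,
        bd_nil] at h1 h2 ⊢
      simp only [h1, h2, map_add, map_smul, smul_zero, map_zero, add_zero]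
      have h3 : cons (x, z) (EL (sg u) (sg v)) + cons (x, z) (EL (sg u) (sg v)) = 0 :=
        add_self' _
      rw [← sub_eq_zero]
      rw [← h3]
      abel

theorem bd_EL (a : LC Z) (b : LC Y) :
    bd (EL a b) = EL (bd a) b + EL a (bd b) + (e0 (bd a) * e0 (bd b)) • sg [] := by
  induction a using LC.ind with
  | h0 => simp
  | hadd a a' ha ha' =>
    simp only [map_add, LinearMap.add_apply, ha, ha', add_mul, add_smul]
    abel
  | hsg u =>
    induction b using LC.ind with
    | h0 => simp
    | hadd b b' hb hb' =>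
      simp only [map_add, hb, hb', mul_add, add_smul]
      abel
    | hsg v => exact bd_E _ u v le_rfl

end pairing

section split
variable {W M : Type*} [AddCommGroup M] [Module (ZMod 2) M]

/-- sum over the splittings of a list into a front part and a back part sharing one entry -/
noncomputable def TT : (LC W →ₗ[ZMod 2] LC W →ₗ[ZMod 2] M) → List W → M
  | _, [] => 0
  | β, x :: l => β (sg [x]) (sg (x :: l)) + TT (β ∘ₗ cons x) l

theorem TT_mem (V : Submodule (ZMod 2) M) :
    ∀ (l : List W) (β : LC W →ₗ[ZMod 2] LC W →ₗ[ZMod 2] M),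
      (∀ u x v, l = u ++ x :: v → β (sg (u ++ [x])) (sg (x :: v)) ∈ V) → TT β l ∈ V := by
  intro l
  induction l with
  | nil => intro β _; exact Submodule.zero_mem _
  | cons y l ih =>
    intro β h
    refine Submodule.add_mem _ (h [] y l rfl) (ih _ ?_)
    intro u x v hl
    have := h (y :: u) x v (by rw [hl]; rfl)
    simpa using this

theorem TT_zero (l : List W) (β : LC W →ₗ[ZMod 2] LC W →ₗ[ZMod 2] M)
    (h : ∀ u x v, l = u ++ x :: v → β (sg (u ++ [x])) (sg (x :: v)) = 0) : TT β l = 0 := by
  have := TT_mem ⊥ l β (fun u x v hl => by simp [h u x v hl])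
  simpa using this

theorem TT_add (β β' : LC W →ₗ[ZMod 2] LC W →ₗ[ZMod 2] M) (l : List W) :
    TT (β + β') l = TT β l + TT β' l := by
  induction l generalizing β β' with
  | nil => simp [TT]
  | cons x l ih =>
    simp only [TT, LinearMap.add_apply, LinearMap.add_comp, ih]
    abel

theorem TT_map {M' : Type*} [AddCommGroup M'] [Module (ZMod 2) M'] (f : M →ₗ[ZMod 2] M')
    (β : LC W →ₗ[ZMod 2] LC W →ₗ[ZMod 2] M) (l : List W) :
    f (TT β l) = TT (β.compr₂ f) l := by
  induction l generalizing β with
  | nil => simp [TT]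
  | cons x l ih =>
    simp only [TT, map_add, ih, LinearMap.compr₂_apply]
    rfl

theorem mk_TT_cons (β : LC W →ₗ[ZMod 2] LC W →ₗ[ZMod 2] M) (x : W) (a : LC W) :
    mk (TT β) (cons x a) = β (sg [x]) (cons x a) + mk (TT (β ∘ₗ cons x)) a := by
  induction a using LC.ind with
  | h0 => simp
  | hadd a a' ha ha' => simp only [map_add, ha, ha']; abel
  | hsg l => simp [TT]

theorem TT_bd (β : LC W →ₗ[ZMod 2] LC W →ₗ[ZMod 2] M) (l : List W) :
    TT (β ∘ₗ bd + β.compl₂ bd) l =
      mk (TT β) (bd (sg l)) + β (sg []) (sg l) + β (sg l) (sg []) := by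
  induction l generalizing β with
  | nil => simp [TT, add_self']
  | cons x l ih =>
    have h1 : (β ∘ₗ bd + β.compl₂ bd) ∘ₗ cons x =
        β + ((β ∘ₗ cons x) ∘ₗ bd + (β ∘ₗ cons x).compl₂ bd) := by
      apply LinearMap.ext; intro a
      apply LinearMap.ext; intro b
      simp only [LinearMap.comp_apply, LinearMap.add_apply, LinearMap.compl₂_apply, bd_cons,
        map_add]
      abel
    rw [TT, h1, TT_add, ih, bd_sg_cons, map_add, mk_TT_cons, mk_sg]
    simp only [LinearMap.comp_apply, LinearMap.add_apply, LinearMap.compl₂_apply, bd_sg_cons,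
      map_add, bd_nil, map_zero, add_zero, cons_sg]
    have h3 : β (sg [x]) (sg l) + β (sg [x]) (sg l) = 0 := add_self' _
    rw [← sub_eq_zero]
    rw [← h3]
    abel

end split

end Pool.Agent.Dist96500d
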