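import Pool.Agent.W_MP_96500d_co.NC

/-! Nested applications of a multi-variable map, indexed by paths. -/

set_option autoImplicit false
set_option linter.unusedSectionVars false
set_option linter.deprecated false
set_option linter.unusedSimpArgs false

namespace Pool.Agent.Dist96500d

section tree
variable {I X : Type*} [PartialOrder X]

/-- nested application of `F` to depth `l`, with values at the leaves -/
def tr (F : (I → X) →o X) : (l : ℕ) → ((Fin l → I) → X) → X
  | 0, y => y Fin.elim0
  | l + 1, y => F (fun i => tr F l (fun p => y (Fin.cons (α := fun _ => I) i p)))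

theorem tr_zero (F : (I → X) →o X) (y : (Fin 0 → I) → X) : tr F 0 y = y Fin.elim0 := rfl

theorem tr_succ (F : (I → X) →o X) (l : ℕ) (y : (Fin (l + 1) → I) → X) :
    tr F (l + 1) y = F (fun i => tr F l (fun p => y (Fin.cons (α := fun _ => I) i p))) := rfl

theorem tr_mono (F : (I → X) →o X) (l : ℕ) : Monotone (tr F l) := by
  induction l with
  | zero => intro y y' h; exact h _
  | succ l ih =>
    intro y y' h
    exact F.monotone (fun i => ih (fun p => h _))

theorem tr_const (F : (I → X) →o X) (l : ℕ) (x : X) :
    tr F l (fun _ => x) = (diag F ^ l) x := by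
  induction l with
  | zero => rfl
  | succ l ih =>
    rw [tr_succ, pow_succ', ih]
    rfl

theorem tr_tail (F : (I → X) →o X) (l : ℕ) (z : (Fin l → I) → X) :
    tr F (l + 1) (fun r => z (Fin.tail r)) = diag F (tr F l z) := by
  rw [tr_succ]
  simp only [Fin.tail_cons]
  rfl

variable [DecidableEq I]

/-- the map obtained by varying one leaf -/
def leaf (F : (I → X) →o X) {l : ℕ} (c : (Fin l → I) → X) (r : Fin l → I) : X →o X where
  toFun x := tr F l (Function.update c r x)
  monotone' := by
    intro x y h
    exact tr_mono F l (update_le_update_iff.2 ⟨h, fun _ _ => le_rfl⟩)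

theorem leaf_apply (F : (I → X) →o X) {l : ℕ} (c : (Fin l → I) → X) (r : Fin l → I) (x : X) :
    leaf F c r x = tr F l (Function.update c r x) := rfl

theorem leaf_isWord (F : (I → X) →o X) {l : ℕ} (c : (Fin l → I) → X) (r : Fin l → I) :
    IsWord F (List.ofFn r) (leaf F c r) := by
  induction l with
  | zero =>
    rw [List.ofFn_zero]
    change leaf F c r = 1
    ext x
    rw [leaf_apply, tr_zero, Subsingleton.elim r Fin.elim0, Function.update_self]
    rfl
  | succ l ih =>
    rw [List.ofFn_succ]
    refine ⟨fun j => tr F l (fun p => c (Fin.cons (α := fun _ => I) j p)),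
      leaf F (fun p => c (Fin.cons (α := fun _ => I) (r 0) p)) (Fin.tail r), ih _ _, ?_⟩
    ext x
    rw [leaf_apply, tr_succ]
    change _ = F (Function.update _ (r 0) _)
    congr 1
    funext j
    by_cases hj : j = r 0
    · subst hj
      rw [Function.update_self, leaf_apply]
      congr 1
      funext p
      by_cases hp : p = Fin.tail r
      · subst hp
        rw [Function.update_self, Fin.cons_self_tail, Function.update_self]
      · rw [Function.update_of_ne hp, Function.update_of_ne]
        intro h
        apply hp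
        rw [← h, Fin.tail_cons]
    · rw [Function.update_of_ne hj]
      congr 1
      funext p
      rw [Function.update_of_ne]
      intro h
      apply hj
      rw [← h, Fin.cons_zero]

end tree

section nodes
variable {I : Type*} {m : ℕ}

/-- the path that continues the periodic sequence by one more letter -/
def rr (a : Fin (m + 1) → I) : Fin (m + 2) → I := Fin.snoc (α := fun _ => I) a (a 0)

/-- the next window of the periodic sequence -/
def prd (a : Fin (m + 1) → I) : Fin (m + 1) → I := Fin.tail (rr a)

theorem rr_castSucc (a : Fin (m + 1) → I) (j : Fin (m + 1)) : rr a j.castSucc = a j := by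
  simp [rr, Fin.snoc_castSucc]

theorem rr_last (a : Fin (m + 1) → I) : rr a (Fin.last (m + 1)) = a 0 := by
  simp [rr, Fin.snoc_last]

theorem prd_eq (a : Fin (m + 1) → I) (j : Fin (m + 1)) : prd a j = rr a j.succ := rfl

theorem prd_injective : Function.Injective (prd : (Fin (m + 1) → I) → (Fin (m + 1) → I)) := by
  intro a b h
  funext j
  refine Fin.cases ?_ (fun i => ?_) j
  · have := congrFun h (Fin.last m)
    rw [prd_eq, prd_eq, Fin.succ_last, rr_last, rr_last] at this
    exact this
  · have := congrFun h i.castSucc
    rw [prd_eq, prd_eq, Fin.succ_castSucc, rr_castSucc, rr_castSucc] at this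
    exact this

/-- two consecutive blocks in a periodic sequence -/
theorem block_eq (s : ℕ → I) (k : ℕ) (r r' : Fin (m + 2) → I)
    (h1 : ∀ j : Fin (m + 2), s (k + j) = r' j)
    (h2 : ∀ j : Fin (m + 2), s (k + (m + 2) + j) = r j)
    (hs : ∀ j, s (j + (m + 1)) = s j) : r = rr (Fin.tail r') := by
  funext j
  refine Fin.lastCases ?_ (fun i => ?_) j
  · rw [rr_last, ← h2]
    change _ = r' (Fin.succ 0)
    rw [← h1]
    have e1 : k + (m + 2) + ((Fin.last (m + 1) : Fin (m + 2)) : ℕ) =
      (k + 1 + (m + 1)) + (m + 1) := by simp; ring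
    rw [e1, hs, hs]
    simp
  · rw [rr_castSucc, ← h2]
    change _ = r' (Fin.succ i)
    rw [← h1]
    have e1 : k + (m + 2) + ((i.castSucc : Fin (m + 2)) : ℕ) =
      (k + (i.succ : Fin (m + 2))) + (m + 1) := by simp; ring
    rw [e1, hs]

/-- tracking predicate: the word ends with the block `r`, which is preceded by a block whose
window is not continued periodically by `r` -/
def Trk (r : Fin (m + 2) → I) (a : Fin (m + 1) → I) (w : List I) : Prop :=
  ∃ w', w = w' ++ List.ofFn r ∧ ((w' = [] ∧ r ≠ rr a) ∨
    ∃ w'' r', w' = w'' ++ List.ofFn r' ∧ r ≠ rr (Fin.tail (r' : Fin (m + 2) → I)))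

theorem Trk.base {r : Fin (m + 2) → I} {a : Fin (m + 1) → I} (h : r ≠ rr a) :
    Trk r a (List.ofFn r) := ⟨[], rfl, Or.inl ⟨rfl, h⟩⟩

theorem Trk.step {r : Fin (m + 2) → I} (r' : Fin (m + 2) → I) {w : List I}
    (h : Trk r (Fin.tail r') w) (a : Fin (m + 1) → I) : Trk r a (List.ofFn r' ++ w) := by
  obtain ⟨w', rfl, h | ⟨w'', r'', rfl, h⟩⟩ := h
  · refine ⟨List.ofFn r' ++ w', by simp, Or.inr ⟨[], r', by simp [h.1], h.2⟩⟩
  · refine ⟨List.ofFn r' ++ (w'' ++ List.ofFn r''), by simp, Or.inr ⟨List.ofFn r' ++ w'', r'',
      by simp, h⟩⟩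

/-- the periodic sequence of a nonempty word -/
def cyc (w : List I) (hw : w ≠ []) (j : ℕ) : I :=
  w[j % w.length]'(Nat.mod_lt _ (List.length_pos_iff.2 hw))

theorem cyc_add (w : List I) (hw : w ≠ []) (j : ℕ) : cyc w hw (j + w.length) = cyc w hw j := by
  simp [cyc]

theorem cyc_lt (w : List I) (hw : w ≠ []) (j : ℕ) (hj : j < w.length) :
    cyc w hw j = w[j] := by
  simp [cyc, Nat.mod_eq_of_lt hj]

theorem win_eq_of (s : ℕ → I) : ∀ (w : List I) (k : ℕ),
    (∀ j (hj : j < w.length), s (k + j) = w[j]) → win s k w.length = w := by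
  intro w
  induction w with
  | nil => intro k _; rfl
  | cons x w ih =>
    intro k h
    rw [List.length_cons, win_succ]
    congr 1
    · exact h 0 (by simp)
    · refine ih (k + 1) ?_
      intro j hj
      have := h (j + 1) (by simpa using hj)
      rw [show k + (j + 1) = k + 1 + j by ring] at this
      simpa using this

theorem win_cyc (w : List I) (hw : w ≠ []) : win (cyc w hw) 0 w.length = w := by
  refine win_eq_of _ w 0 ?_
  intro j hj
  rw [zero_add]; exact cyc_lt w hw j hj

theorem getElem_ofFn' {n : ℕ} (r : Fin n → I) (k : ℕ) (hk : k < (List.ofFn r).length)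
    (j : Fin n) (h : k = j) : (List.ofFn r)[k]'hk = r j := by
  subst h; simp

theorem Trk.not_periodic {r : Fin (m + 2) → I} {w : List I} (hw : w ≠ [])
    (h : Trk r (Fin.tail r) w) (hs : ∀ j, cyc w hw (j + (m + 1)) = cyc w hw j) : False := by
  obtain ⟨w', rfl, ⟨rfl, h⟩ | ⟨w'', r', rfl, h⟩⟩ := h
  · -- the word is the block itself
    have hlen : ([] ++ List.ofFn r).length = m + 2 := by
      rw [List.nil_append, List.length_ofFn]
    refine h (block_eq (cyc ([] ++ List.ofFn r) hw) 0 r r ?_ ?_ hs)
    · intro j
      rw [cyc_lt _ _ _ (by rw [hlen]; have := j.2; omega)]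
      exact getElem_ofFn' r _ _ j (by omega)
    · intro j
      have := cyc_add ([] ++ List.ofFn r) hw (0 + j)
      rw [hlen] at this
      rw [show 0 + (m + 2) + (j : ℕ) = 0 + j + (m + 2) by ring, this,
        cyc_lt _ _ _ (by rw [hlen]; have := j.2; omega)]
      exact getElem_ofFn' r _ _ j (by omega)
  · have hlen : ((w'' ++ List.ofFn r') ++ List.ofFn r).length = w''.length + (m + 2) + (m + 2) := by
      rw [List.length_append, List.length_append, List.length_ofFn, List.length_ofFn]
    refine h (block_eq (cyc ((w'' ++ List.ofFn r') ++ List.ofFn r) hw) w''.length r r' ?_ ?_ hs)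
    · intro j
      rw [cyc_lt _ _ _ (by rw [hlen]; have := j.2; omega)]
      rw [List.getElem_append_left (by
        rw [List.length_append, List.length_ofFn]; have := j.2; omega),
        List.getElem_append_right (by omega)]
      exact getElem_ofFn' r' _ _ j (by omega)
    · intro j
      rw [cyc_lt _ _ _ (by rw [hlen]; have := j.2; omega)]
      rw [List.getElem_append_right (by
        rw [List.length_append, List.length_ofFn]; omega)]
      exact getElem_ofFn' r _ _ j (by
        rw [List.length_append, List.length_ofFn]; omega)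

end nodes

end Pool.Agent.Dist96500d
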