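import Pool.Agent.W_MP_96500d_co.NC

/-! Fences starting upwards with a given number of peaks. -/

set_option autoImplicit false
set_option linter.unusedSectionVars false
set_option linter.deprecated false
set_option linter.unusedSimpArgs false

namespace Pool.Agent.Dist96500d

section up
variable {α β : Type*} [Preorder α] [Preorder β]

/-- a common upper bound exists -/
def Rr (x y : α) : Prop := ∃ z, x ≤ z ∧ y ≤ z

/-- joined by `n` consecutive pairs with common upper bounds -/
def Up : ℕ → α → α → Prop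
  | 0, x, y => x = y
  | n + 1, x, y => ∃ z, Rr x z ∧ Up n z y

theorem Rr.map {x y : α} (h : Rr x y) {f : α → β} (hf : Monotone f) : Rr (f x) (f y) := by
  obtain ⟨z, h1, h2⟩ := h
  exact ⟨f z, hf h1, hf h2⟩

theorem Up.map {n : ℕ} {x y : α} (h : Up n x y) {f : α → β} (hf : Monotone f) :
    Up n (f x) (f y) := by
  induction n generalizing x with
  | zero => exact congrArg f h
  | succ n ih =>
    obtain ⟨z, h1, h2⟩ := h
    exact ⟨f z, h1.map hf, ih h2⟩

theorem Up.refl (n : ℕ) (x : α) : Up n x x := by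
  induction n with
  | zero => rfl
  | succ n ih => exact ⟨x, ⟨x, le_rfl, le_rfl⟩, ih⟩

theorem Up.of_eq {n : ℕ} {x y : α} (h : x = y) : Up n x y := h ▸ Up.refl n x

theorem Up.pi {ι : Type*} {α : ι → Type*} [∀ i, Preorder (α i)] {n : ℕ} {x y : ∀ i, α i}
    (h : ∀ i, Up n (x i) (y i)) : Up n x y := by
  induction n generalizing x with
  | zero => exact funext h
  | succ n ih =>
    choose z hz1 hz2 using h
    refine ⟨z, ?_, ih hz2⟩
    choose w hw1 hw2 using hz1
    exact ⟨w, hw1, hw2⟩

theorem Up.prod {n : ℕ} {x y : α × β} (h1 : Up n x.1 y.1) (h2 : Up n x.2 y.2) : Up n x y := by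
  induction n generalizing x with
  | zero => exact Prod.ext h1 h2
  | succ n ih =>
    obtain ⟨z1, ⟨w1, a1, b1⟩, c1⟩ := h1
    obtain ⟨z2, ⟨w2, a2, b2⟩, c2⟩ := h2
    exact ⟨(z1, z2), ⟨(w1, w2), ⟨a1, a2⟩, ⟨b1, b2⟩⟩, ih c1 c2⟩

end up

section cycle
variable {N X : Type*} [Finite N] [PartialOrder X]

/-- composites along the orbit of a permutation -/
def Hn (π : Equiv.Perm N) (h : N → (X →o X)) : N → ℕ → (X →o X)
  | _, 0 => 1
  | a, n + 1 => h a * Hn π h (π a) n

theorem Hn_succ (π : Equiv.Perm N) (h : N → (X →o X)) (a : N) (n : ℕ) :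
    Hn π h a (n + 1) = h a * Hn π h (π a) n := rfl

theorem exists_vector (π : Equiv.Perm N) (h : N → (X →o X)) (e : ℕ)
    (hex : ∀ a n, ∃ x, Up e x (Hn π h a (n + 1) x)) :
    ∃ x : N → X, ∀ a, Up e (x a) (h a (x (π a))) := by
  classical
  let S := Equiv.Perm.SameCycle.setoid π
  let rep : N → N := fun a => (Quotient.mk S a).out
  have hrep : ∀ a, rep (π a) = rep a := by
    intro a
    have : (Quotient.mk S (π a)) = Quotient.mk S a :=
      Quotient.sound (show π.SameCycle (π a) a from
        (Equiv.Perm.sameCycle_apply_left.2 (Equiv.Perm.SameCycle.refl _ _)))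
    simp only [rep, this]
  have hk : ∀ a, ∃ k : ℕ, (π ^ k) a = rep a := by
    intro a
    have h1 : π.SameCycle (rep a) a := Quotient.exact (s := S) (Quotient.out_eq _)
    obtain ⟨i, _, hi⟩ := h1.symm.exists_pow_eq'
    exact ⟨i, hi⟩
  let k : N → ℕ := fun a => Nat.find (hk a)
  have hkspec : ∀ a, (π ^ (k a)) a = rep a := fun a => Nat.find_spec (hk a)
  have hkmin : ∀ a n, (π ^ n) a = rep a → k a ≤ n := fun a n hn => Nat.find_min' (hk a) hn
  choose base hbase using fun a => hex a (k (π a))
  refine ⟨fun a => Hn π h a (k a) (base (rep a)), ?_⟩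
  intro a
  change Up e (Hn π h a (k a) (base (rep a))) (h a (Hn π h (π a) (k (π a)) (base (rep (π a)))))
  rw [hrep]
  by_cases ha : a = rep a
  · have h0 : k a = 0 := Nat.le_zero.1 (hkmin a 0 (by simpa using ha))
    rw [h0, ← ha]
    exact hbase a
  · have h0 : k a ≠ 0 := by
      intro h0
      have := hkspec a
      rw [h0] at this
      exact ha (by simpa using this)
    have h1 : k (π a) + 1 = k a := by
      apply le_antisymm
      · have : k (π a) ≤ k a - 1 := by
          refine hkmin _ _ ?_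
          rw [hrep, ← hkspec a]
          obtain ⟨j, hj⟩ : ∃ j, k a = j + 1 := ⟨k a - 1, by omega⟩
          rw [hj, Nat.add_sub_cancel, pow_succ]
          rfl
        omega
      · refine hkmin _ _ ?_
        rw [← hrep, ← hkspec (π a), pow_succ]
        rfl
    rw [← h1, Hn_succ]
    exact Up.refl _ _

end cycle

end Pool.Agent.Dist96500d
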