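import Pool.Agent.W_MP_96500d_co.TOne
import Pool.Agent.W_MP_96500d_co.Tree
import Pool.Agent.W_MP_96500d_co.UpRel

/-! The product system of nested applications. -/

set_option autoImplicit false
set_option linter.unusedSectionVars false
set_option linter.deprecated false
set_option linter.unusedSimpArgs false

namespace Pool.Agent.Dist96500d

section conn
variable {α β : Type*} [Preorder α] [Preorder β]

theorem Conn.prod {a a' : α} {b b' : β} (h : Conn a a') (h' : Conn b b') :
    Conn (a, b) (a', b') :=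
  (h.map (f := fun a => (a, b)) (fun _ _ h => Prod.mk_le_mk.2 ⟨h, le_rfl⟩)).trans
    (h'.map (f := fun b => (a', b)) (fun _ _ h => Prod.mk_le_mk.2 ⟨le_rfl, h⟩))

/-- the connected component of an element is connected -/
theorem isConn_component (q : α) : IsConn {z : α // Conn q z} := by
  rintro ⟨z, hz⟩ ⟨z', hz'⟩
  have h1 : Conn z z' := (Conn.symm hz).trans hz'
  exact ((h1.connIn (S := {z | Conn q z}) hz
    (fun x y hx hxy => Conn.trans hx (Conn.of_cmp hxy))).1).subtype hz hz'

end conn

section system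
variable {I X Φ : Type*} [DecidableEq I] [PartialOrder X] [PartialOrder Φ] {m : ℕ}

theorem leaf_mono (F : (I → X) →o X) {l : ℕ} {c c' : (Fin l → I) → X} (h : c ≤ c')
    (r : Fin l → I) : leaf F c r ≤ leaf F c' r := fun _ =>
  tr_mono F l (update_le_update_iff.2 ⟨le_rfl, fun j _ => h j⟩)

/-- one node of the system -/
def Bm (F : (I → X) →o X) (s : Φ →o Φ) (a : Fin (m + 1) → I) (ζ : Φ →o X)
    (κ : (Fin (m + 2) → I) → X) : Φ →o X := (leaf F κ (rr a)).comp (ζ.comp s)

theorem Bm_mono (F : (I → X) →o X) (s : Φ →o Φ) (a : Fin (m + 1) → I) {ζ ζ' : Φ →o X}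
    (h : ζ ≤ ζ') {κ κ' : (Fin (m + 2) → I) → X} (h' : κ ≤ κ') :
    Bm F s a ζ κ ≤ Bm F s a ζ' κ' :=
  OrderHom.comp_mono (leaf_mono F h' _) (OrderHom.comp_mono h le_rfl)

theorem Bm_conn [Finite I] (hX : IsConn X) (F : (I → X) →o X) (s : Φ →o Φ)
    (a : Fin (m + 1) → I) {ζ ζ' : Φ →o X} (h : Conn ζ ζ') (κ κ' : (Fin (m + 2) → I) → X) :
    Conn (Bm F s a ζ κ) (Bm F s a ζ' κ') := by
  have h1 : Conn κ κ' := Conn.pi (fun i => hX _ _)
  exact (h.prod h1).map (f := fun p : (Φ →o X) × ((Fin (m + 2) → I) → X) => Bm F s a p.1 p.2)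
    (fun p p' h => Bm_mono F s a h.1 h.2)

/-- the component of `q a` -/
abbrev ZZ (q : (Fin (m + 1) → I) → (Φ →o X)) (a : Fin (m + 1) → I) : Type _ :=
  {z : Φ →o X // Conn (q a) z}

/-- the product of the components -/
abbrev UU (q : (Fin (m + 1) → I) → (Φ →o X)) : Type _ := ∀ a, ZZ q a

variable [Finite I] (hX : IsConn X) (F : (I → X) →o X) (s : Φ →o Φ)
  (q : (Fin (m + 1) → I) → (Φ →o X)) (c0 : X)
  (hq : ∀ a, q a = Bm F s a (q (prd a)) (fun _ => c0))

include hX hq in
theorem KK_mem (z : UU q) (κ : (Fin (m + 2) → I) → X) (a : Fin (m + 1) → I) :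
    Conn (q a) (Bm F s a (z (prd a)).1 κ) := by
  rw [hq a]
  exact Bm_conn hX F s a (z (prd a)).2 _ _

/-- the system with static values `κ` -/
def KK (z : UU q) (κ : (Fin (m + 2) → I) → X) : UU q :=
  fun a => ⟨Bm F s a (z (prd a)).1 κ, KK_mem hX F s q c0 hq z κ a⟩

theorem KK_mono {z z' : UU q} (h : z ≤ z') {κ κ' : (Fin (m + 2) → I) → X} (h' : κ ≤ κ') :
    KK hX F s q c0 hq z κ ≤ KK hX F s q c0 hq z' κ' :=
  fun a => Bm_mono F s a (h (prd a)) h'

/-- the static values read off at the base point -/
def kap (q : (Fin (m + 1) → I) → (Φ →o X)) (o : Φ) (z : Option (Fin (m + 2) → I) → UU q) :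
    (Fin (m + 2) → I) → X :=
  fun r => (z (some r) (Fin.tail r)).1 o

/-- the multi-slot system -/
def GS (o : Φ) : (Option (Fin (m + 2) → I) → UU q) →o UU q where
  toFun z := KK hX F s q c0 hq (z none) (kap q o z)
  monotone' := by
    intro z z' h
    exact KK_mono hX F s q c0 hq (h none) (fun r => h (some r) (Fin.tail r) o)

theorem GS_apply (o : Φ) (z : Option (Fin (m + 2) → I) → UU q) :
    GS hX F s q c0 hq o z = KK hX F s q c0 hq (z none) (kap q o z) := rfl

/-- the base element of the product of components -/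
def qq (q : (Fin (m + 1) → I) → (Φ →o X)) : UU q := fun a => ⟨q a, Conn.refl _⟩

theorem hasFP_sec [Finite X] [Finite Φ] (o : Φ)
    (c : Option (Fin (m + 2) → I) → UU q) : HasFP (sec (GS hX F s q c0 hq o) none c) := by
  classical
  have hfinN : Finite (Fin (m + 1) → I) := inferInstance
  have hfin : Finite (UU q) := Pi.finite
  let KH : ((Fin (m + 2) → I) → X) →o (UU q →o UU q) :=
    ⟨fun κ => ⟨fun z => KK hX F s q c0 hq z κ, fun z z' h => KK_mono hX F s q c0 hq h le_rfl⟩,
      fun κ κ' h z => KK_mono hX F s q c0 hq le_rfl h⟩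
  have h1 : HasFP (KH (fun _ => c0)) := by
    refine ⟨qq q, ?_⟩
    funext a
    apply Subtype.ext
    exact (hq a).symm
  have h2 : Conn (KH (fun _ => c0)) (KH (kap q o c)) :=
    (Conn.pi (fun i => hX _ _) : Conn (fun _ => c0) (kap q o c)).map KH.monotone
  exact HasFP.conn h2 h1

theorem upd_kap (o : Φ) (c : Option (Fin (m + 2) → I) → UU q) (r : Fin (m + 2) → I)
    (z : UU q) : kap q o (Function.update c (some r) z) =
      Function.update (kap q o c) r ((z (Fin.tail r)).1 o) := by
  funext r'
  by_cases h : r' = r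
  · subst h
    simp [kap]
  · have : (some r' : Option (Fin (m + 2) → I)) ≠ some r := fun h' => h (Option.some.inj h')
    simp [kap, h]

/-- tracking property of maps into the product of components -/
def TP (F : (I → X) →o X) (q : (Fin (m + 1) → I) → (Φ →o X)) (r : Fin (m + 2) → I)
    (L : X →o UU q) : Prop :=
  ∀ a y, (∃ c, ∀ x, (L x a).1 y = c) ∨
    ∃ w g, IsWord F w g ∧ Trk r a w ∧ ∀ x, (L x a).1 y = g x

theorem TP_base (κ : (Fin (m + 2) → I) → X) (u : UU q) (r : Fin (m + 2) → I) (L : X →o UU q)
    (hL : ∀ x, L x = KK hX F s q c0 hq u (Function.update κ r x)) : TP F q r L := by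
  intro a y
  by_cases h : r = rr a
  · left
    refine ⟨tr F (m + 2) (Function.update κ r ((u (prd a)).1 (s y))), fun x => ?_⟩
    rw [hL]
    change tr F (m + 2) (Function.update (Function.update κ r x) (rr a) ((u (prd a)).1 (s y))) = _
    rw [← h, Function.update_idem]
  · right
    refine ⟨List.ofFn r, leaf F (Function.update κ (rr a) ((u (prd a)).1 (s y))) r,
      leaf_isWord F _ r, Trk.base h, fun x => ?_⟩
    rw [hL]
    change tr F (m + 2) (Function.update (Function.update κ r x) (rr a) ((u (prd a)).1 (s y))) =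
      tr F (m + 2) (Function.update (Function.update κ (rr a) ((u (prd a)).1 (s y))) r x)
    rw [Function.update_comm h]

theorem TP_step (o : Φ) (r : Fin (m + 2) → I) (L : X →o UU q) (hL : TP F q r L)
    (j : Option (Fin (m + 2) → I)) (c : Option (Fin (m + 2) → I) → UU q) :
    TP F q r ((sec (GS hX F s q c0 hq o) j c).comp L) := by
  intro a y
  cases j with
  | none =>
    have key : ∀ x, (((sec (GS hX F s q c0 hq o) none c).comp L) x a).1 y =
        leaf F (kap q o c) (rr a) ((L x (prd a)).1 (s y)) := by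
      intro x
      change ((KK hX F s q c0 hq ((Function.update c none (L x)) none)
        (kap q o (Function.update c none (L x)))) a).1 y = _
      have h1 : kap q o (Function.update c none (L x)) = kap q o c := by
        funext r'
        simp [kap]
      rw [h1, Function.update_self]
      rfl
    rcases hL (prd a) (s y) with ⟨c1, hc1⟩ | ⟨w, g, hg, hT, hx⟩
    · left
      exact ⟨leaf F (kap q o c) (rr a) c1, fun x => by rw [key, hc1]⟩
    · right
      refine ⟨List.ofFn (rr a) ++ w, leaf F (kap q o c) (rr a) * g,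
        (leaf_isWord F _ _).append hg, hT.step (rr a) a, fun x => ?_⟩
      rw [key, hx]
      rfl
  | some r' =>
    have key : ∀ x, (((sec (GS hX F s q c0 hq o) (some r') c).comp L) x a).1 y =
        tr F (m + 2) (Function.update (Function.update (kap q o c) r' ((L x (Fin.tail r')).1 o))
          (rr a) ((c none (prd a)).1 (s y))) := by
      intro x
      change ((KK hX F s q c0 hq ((Function.update c (some r') (L x)) none)
        (kap q o (Function.update c (some r') (L x)))) a).1 y = _
      rw [upd_kap, Function.update_of_ne (by simp)]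
      rfl
    by_cases h : r' = rr a
    · left
      refine ⟨tr F (m + 2) (Function.update (kap q o c) (rr a) ((c none (prd a)).1 (s y))),
        fun x => ?_⟩
      rw [key, h, Function.update_idem]
    · have key2 : ∀ x, (((sec (GS hX F s q c0 hq o) (some r') c).comp L) x a).1 y =
          leaf F (Function.update (kap q o c) (rr a) ((c none (prd a)).1 (s y))) r'
            ((L x (Fin.tail r')).1 o) := by
        intro x
        rw [key, Function.update_comm h]
        rfl
      rcases hL (Fin.tail r') o with ⟨c1, hc1⟩ | ⟨w, g, hg, hT, hx⟩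
      · left
        exact ⟨_, fun x => by rw [key2, hc1]⟩
      · right
        refine ⟨List.ofFn r' ++ w,
          leaf F (Function.update (kap q o c) (rr a) ((c none (prd a)).1 (s y))) r' * g,
          (leaf_isWord F _ _).append hg, hT.step r' a, fun x => ?_⟩
        rw [key2, hx]
        rfl

theorem TP_word (o : Φ) (r : Fin (m + 2) → I) (w : List (Option (Fin (m + 2) → I))) :
    ∀ (L : X →o UU q) (_ : TP F q r L) (g : UU q →o UU q)
    (_ : IsWord (GS hX F s q c0 hq o) w g), TP F q r (g.comp L) := by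
  induction w with
  | nil =>
    intro L hL g hg
    have : g = 1 := hg
    subst this
    exact hL
  | cons j w ih =>
    intro L hL g hg
    obtain ⟨c, g', hg', rfl⟩ := hg
    exact TP_step hX F s q c0 hq o r (g'.comp L) (ih L hL g' hg') j c

theorem static_nilp [Finite X] [Nonempty X] [Finite Φ] (o : Φ)
    (hper : ∀ (w : List I) (hw : w ≠ []) (g : X →o X), IsWord F w g → ¬ Nilp g →
      ∀ j, cyc w hw (j + (m + 1)) = cyc w hw j)
    (w : List (Option (Fin (m + 2) → I))) (g : UU q →o UU q)
    (hw : ∃ i ∈ w, i ≠ none) (hg : IsWord (GS hX F s q c0 hq o) w g) : Nilp g := by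
  obtain ⟨i, hi, hin⟩ := hw
  obtain ⟨r, rfl⟩ := Option.ne_none_iff_exists'.1 hin
  obtain ⟨w1, w2, rfl⟩ := List.append_of_mem hi
  obtain ⟨g1, g3, hg1, ⟨c, g2, hg2, rfl⟩, rfl⟩ := hg.split
  let k : X →o UU q := ⟨fun x => KK hX F s q c0 hq (c none) (Function.update (kap q o c) r x),
    fun x y hxy => KK_mono hX F s q c0 hq le_rfl
      (update_le_update_iff.2 ⟨hxy, fun _ _ => le_rfl⟩)⟩
  let ev : UU q →o X := ⟨fun z => (z (Fin.tail r)).1 o, fun z z' h => h (Fin.tail r) o⟩
  have hsec : sec (GS hX F s q c0 hq o) (some r) c = k.comp ev := by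
    ext z : 2
    change KK hX F s q c0 hq ((Function.update c (some r) z) none)
        (kap q o (Function.update c (some r) z)) = _
    rw [upd_kap, Function.update_of_ne (by simp)]
    rfl
  have hAB : g1 * (sec (GS hX F s q c0 hq o) (some r) c * g2) =
      (g1.comp k).comp (ev.comp g2) := by
    rw [hsec]; rfl
  rw [hAB]
  apply Nilp.swap
  have hT : TP F q r (g2.comp (g1.comp k)) := by
    refine TP_word hX F s q c0 hq o r w2 _ ?_ g2 hg2
    refine TP_word hX F s q c0 hq o r w1 _ ?_ g1 hg1
    exact TP_base hX F s q c0 hq (kap q o c) (c none) r k (fun x => rfl)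
  rcases hT (Fin.tail r) o with ⟨c1, hc1⟩ | ⟨w, g, hg, hTr, hx⟩
  · have : (ev.comp g2).comp (g1.comp k) = OrderHom.const X c1 := by
      ext x
      exact hc1 x
    rw [this]
    exact Nilp.const c1
  · have : (ev.comp g2).comp (g1.comp k) = g := by
      ext x
      exact hx x
    rw [this]
    by_contra hn
    have hw : w ≠ [] := by
      rintro rfl
      obtain ⟨w', h1, _⟩ := hTr
      have := congrArg List.length h1
      simp at this
    exact hTr.not_periodic hw (hper w hw g hg hn)

include hX hq in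
theorem exists_solution [Finite X] [Nonempty X] [Finite Φ] (o : Φ)
    (hper : ∀ (w : List I) (hw : w ≠ []) (g : X →o X), IsWord F w g → ¬ Nilp g →
      ∀ j, cyc w hw (j + (m + 1)) = cyc w hw j) :
    ∃ z : (Fin (m + 1) → I) → (Φ →o X), ∀ a, z a =
      Bm F s a (z (prd a)) (fun r => z (Fin.tail r) o) := by
  classical
  have hfin : Finite (UU q) := Pi.finite
  have hU : IsConn (UU q) := by
    intro z z'
    exact Conn.pi (fun a => isConn_component (q a) (z a) (z' a))
  haveI : Fintype (Option (Fin (m + 2) → I)) := Fintype.ofFinite _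
  obtain ⟨z, hz⟩ := hasFP_diag_of_slot hU (GS hX F s q c0 hq o) none
    ⟨fun _ => qq q, hasFP_sec hX F s q c0 hq o _⟩
    (fun w g hw hg => static_nilp hX F s q c0 hq o hper w g hw hg)
  refine ⟨fun a => (z a).1, fun a => ?_⟩
  have h1 := congrFun hz a
  have h2 := congrArg Subtype.val h1
  exact h2.symm

end system

end Pool.Agent.Dist96500d
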