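import Pool.Agent.W_MP_96500d_co.Pairing

/-! The product of two operators through splitting and shuffling. -/

set_option autoImplicit false
set_option linter.unusedSectionVars false
set_option linter.deprecated false
set_option linter.unusedSimpArgs false

namespace Pool.Agent.Dist96500d

section TE
variable {W Z Y : Type*} [PartialOrder W] [PartialOrder Z] [PartialOrder Y]

/-- the product of two operators -/
noncomputable def TE (A : LC W →ₗ[ZMod 2] LC Z) (B : LC W →ₗ[ZMod 2] LC Y) :
    LC W →ₗ[ZMod 2] LC (Z × Y) := mk (TT (EL.compl₁₂ A B))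

theorem TE_sg (A : LC W →ₗ[ZMod 2] LC Z) (B : LC W →ₗ[ZMod 2] LC Y) (l : List W) :
    TE A B (sg l) = TT (EL.compl₁₂ A B) l := mk_sg _ _

theorem TE_nil (A : LC W →ₗ[ZMod 2] LC Z) (B : LC W →ₗ[ZMod 2] LC Y) :
    TE A B (sg []) = 0 := by rw [TE_sg, TT]

/-- the correction bilinear form -/
noncomputable def crf (A : LC W →ₗ[ZMod 2] LC Z) (B : LC W →ₗ[ZMod 2] LC Y) :
    LC W →ₗ[ZMod 2] LC W →ₗ[ZMod 2] ZMod 2 :=
  (LinearMap.mul (ZMod 2) (ZMod 2)).compl₁₂ (e0 ∘ₗ bd ∘ₗ A) (e0 ∘ₗ bd ∘ₗ B)

theorem crf_apply (A : LC W →ₗ[ZMod 2] LC Z) (B : LC W →ₗ[ZMod 2] LC Y) (a b : LC W) :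
    crf A B a b = e0 (bd (A a)) * e0 (bd (B b)) := rfl

theorem cm_TE (A : LC W →ₗ[ZMod 2] LC Z) (B : LC W →ₗ[ZMod 2] LC Y) (l : List W) :
    cm (TE A B) (sg l) = TE (cm A) B (sg l) + TE A (cm B) (sg l) +
      EL (A (sg [])) (B (sg l)) + EL (A (sg l)) (B (sg [])) + TT (crf A B) l • sg [] := by
  have h1 : (EL.compl₁₂ A B).compr₂ bd = EL.compl₁₂ (bd ∘ₗ A) B + EL.compl₁₂ A (bd ∘ₗ B) +
      (crf A B).compr₂ (LinearMap.toSpanSingleton (ZMod 2) (LC (Z × Y)) (sg [])) := by
    apply LinearMap.ext; intro a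
    apply LinearMap.ext; intro b
    simp only [LinearMap.compr₂_apply, LinearMap.compl₁₂_apply, LinearMap.add_apply, bd_EL,
      LinearMap.comp_apply, LinearMap.toSpanSingleton_apply, crf_apply]
  have h2 : EL.compl₁₂ (cm A) B = EL.compl₁₂ (bd ∘ₗ A) B + (EL.compl₁₂ A B) ∘ₗ bd := by
    apply LinearMap.ext; intro a
    apply LinearMap.ext; intro b
    simp only [LinearMap.compl₁₂_apply, LinearMap.add_apply, cm_apply,
      LinearMap.comp_apply, map_add]
  have h3 : EL.compl₁₂ A (cm B) = EL.compl₁₂ A (bd ∘ₗ B) + (EL.compl₁₂ A B).compl₂ bd := by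
    apply LinearMap.ext; intro a
    apply LinearMap.ext; intro b
    simp only [LinearMap.compl₁₂_apply, LinearMap.add_apply, cm_apply,
      LinearMap.comp_apply, map_add, LinearMap.compl₂_apply]
  have h4 : TE A B (bd (sg l)) = TT ((EL.compl₁₂ A B) ∘ₗ bd + (EL.compl₁₂ A B).compl₂ bd) l +
      EL (A (sg [])) (B (sg l)) + EL (A (sg l)) (B (sg [])) := by
    have := TT_bd (EL.compl₁₂ A B) l
    rw [this, TE]
    simp only [LinearMap.compl₁₂_apply]
    have e1 : EL (A (sg [])) (B (sg l)) + EL (A (sg [])) (B (sg l)) = 0 := add_self' _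
    have e2 : EL (A (sg l)) (B (sg [])) + EL (A (sg l)) (B (sg [])) = 0 := add_self' _
    calc mk (TT (EL.compl₁₂ A B)) (bd (sg l))
        = mk (TT (EL.compl₁₂ A B)) (bd (sg l)) +
          (EL (A (sg [])) (B (sg l)) + EL (A (sg [])) (B (sg l))) +
          (EL (A (sg l)) (B (sg [])) + EL (A (sg l)) (B (sg []))) := by
            rw [e1, e2, add_zero, add_zero]
      _ = _ := by abel
  rw [cm_apply, h4, TE_sg, TE_sg, TE_sg, TT_map, h1, h2, h3]
  simp only [TT_add]
  have h5 : TT ((crf A B).compr₂ (LinearMap.toSpanSingleton (ZMod 2) (LC (Z × Y)) (sg []))) l =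
      TT (crf A B) l • sg [] := by
    rw [← TT_map, LinearMap.toSpanSingleton_apply]
  rw [h5]
  abel

/-- the shuffle product of two lists has the expected length -/
theorem E_len (n : ℕ) : ∀ (u : List Z) (v : List Y), u.length + v.length ≤ n →
    E u v ∈ spn (Ln (Z × Y) (u.length + v.length - 1)) := by
  induction n with
  | zero =>
    intro u v h
    have hu : u = [] := List.length_eq_zero_iff.1 (by omega)
    subst hu
    rw [E_nil_left]; exact Submodule.zero_mem _
  | succ n ih =>
    intro u v h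
    match u, v with
    | [], v => rw [E_nil_left]; exact Submodule.zero_mem _
    | x :: u, [] => rw [E_nil_right]; exact Submodule.zero_mem _
    | x :: u, z :: v =>
      rw [E_cons]
      refine cons_mem (S := Ln (Z × Y) (u.length + v.length)) (fun l hl => ?_) ?_
      · have : l.length = u.length + v.length := hl
        simp only [Ln, Set.mem_setOf_eq, List.length_cons]; omega
      · refine Submodule.add_mem _ (Submodule.add_mem _ ?_ ?_) ?_
        · have := ih u (z :: v) (by simp at h ⊢; omega)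
          rwa [show u.length + (z :: v).length - 1 = u.length + v.length by
            simp only [List.length_cons]; omega] at this
        · have := ih (x :: u) v (by simp at h ⊢; omega)
          rwa [show (x :: u).length + v.length - 1 = u.length + v.length by
            simp only [List.length_cons]; omega] at this
        · match u, v with
          | [], [] => exact Submodule.smul_mem _ _ (sg_mem rfl)
          | [], b :: v => simp [dl]
          | a :: u, v => simp [dl]

theorem E_SB (n : ℕ) : ∀ (u : List Z) (v : List Y), u.length + v.length ≤ n → ∀ x y,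
    u ∈ SB x → v ∈ SB y → E u v ∈ spn (SB (x, y)) := by
  induction n with
  | zero =>
    intro u v h x y _ _
    have hu : u = [] := List.length_eq_zero_iff.1 (by omega)
    subst hu
    rw [E_nil_left]; exact Submodule.zero_mem _
  | succ n ih =>
    intro u v h x y hx hy
    match u, v with
    | [], v => rw [E_nil_left]; exact Submodule.zero_mem _
    | x :: u, [] => rw [E_nil_right]; exact Submodule.zero_mem _
    | a :: u, b :: v =>
      have hax : a ≤ x := hx.2 a (by simp)
      have hby : b ≤ y := hy.2 b (by simp)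
      have hu : u ∈ SB a := srt_cons.1 hx.1
      have hv : v ∈ SB b := srt_cons.1 hy.1
      refine spn_mono (SB_mono (Prod.mk_le_mk.2 ⟨hax, hby⟩)) ?_
      rw [E_cons]
      refine cons_mem (S := SB (a, b)) (fun l hl => cons_SB hl) ?_
      refine Submodule.add_mem _ (Submodule.add_mem _ ?_ ?_) ?_
      · exact ih u (b :: v) (by simp at h ⊢; omega) a b hu (cons_SB hv)
      · exact ih (a :: u) v (by simp at h ⊢; omega) a b (cons_SB hu) hv
      · exact Submodule.smul_mem _ _ (sg_mem ⟨srt_nil, by simp⟩)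

theorem EL_mem {S : Set (List Z)} {T : Set (List Y)} {V : Submodule (ZMod 2) (LC (Z × Y))}
    (h : ∀ u ∈ S, ∀ v ∈ T, E u v ∈ V) {a : LC Z} {b : LC Y} (ha : a ∈ spn S) (hb : b ∈ spn T) :
    EL a b ∈ V := by
  have h1 : ∀ u ∈ S, EL (sg u) b ∈ V := by
    intro u hu
    exact map_mem (A := EL (sg u)) (fun v hv => by rw [EL_sg]; exact h u hu v hv) hb
  have := map_mem (A := EL.flip b) (S := S) (V := V) (fun u hu => by
    simpa using h1 u hu) ha
  simpa using this

theorem EL_len {m n : ℕ} {a : LC Z} {b : LC Y} (ha : a ∈ spn (Ln Z m)) (hb : b ∈ spn (Ln Y n)) :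
    EL a b ∈ spn (Ln (Z × Y) (m + n - 1)) := by
  refine EL_mem (fun u hu v hv => ?_) ha hb
  have h1 : u.length = m := hu
  have h2 : v.length = n := hv
  rw [← h1, ← h2]
  exact E_len _ u v le_rfl

theorem EL_srt {a : LC Z} {b : LC Y} (ha : a ∈ spn (Srt Z)) (hb : b ∈ spn (Srt Y)) :
    EL a b ∈ spn (Srt (Z × Y)) := by
  refine EL_mem (fun u hu v hv => ?_) ha hb
  match u, v with
  | [], v => rw [E_nil_left]; exact Submodule.zero_mem _
  | x :: u, [] => rw [E_nil_right]; exact Submodule.zero_mem _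
  | x :: u, y :: v =>
    exact spn_mono (SB_subset_srt _) (E_SB _ _ _ le_rfl x y (cons_SB (srt_cons.1 hu))
      (cons_SB (srt_cons.1 hv)))

theorem EL_SB {x : Z} {y : Y} {a : LC Z} {b : LC Y} (ha : a ∈ spn (SB x)) (hb : b ∈ spn (SB y)) :
    EL a b ∈ spn (SB (x, y)) :=
  EL_mem (fun u hu v hv => E_SB _ _ _ le_rfl x y hu hv) ha hb

theorem srt_split {u v : List W} {x : W} (h : u ++ x :: v ∈ Srt W) :
    u ++ [x] ∈ Srt W ∧ x :: v ∈ Srt W := by
  simp only [Srt, Set.mem_setOf_eq] at h ⊢
  constructor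
  · refine h.sublist ?_
    simp
  · refine h.sublist ?_
    simp

theorem SB_split {u v : List W} {x y : W} (h : u ++ x :: v ∈ SB y) :
    u ++ [x] ∈ SB y ∧ x :: v ∈ SB y := by
  refine ⟨⟨(srt_split h.1).1, fun z hz => h.2 z ?_⟩, ⟨(srt_split h.1).2, fun z hz => h.2 z ?_⟩⟩
  · simp at hz ⊢; tauto
  · simp at hz ⊢; tauto

theorem TE_len {i j : ℕ} {A : LC W →ₗ[ZMod 2] LC Z} {B : LC W →ₗ[ZMod 2] LC Y}
    (hA : ∀ l, A (sg l) ∈ spn (Ln Z (l.length + i))) (hB : ∀ l, B (sg l) ∈ spn (Ln Y (l.length + j)))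
    (l : List W) : TE A B (sg l) ∈ spn (Ln (Z × Y) (l.length + (i + j))) := by
  rw [TE_sg]
  refine TT_mem _ _ _ ?_
  intro u x v hl
  rw [LinearMap.compl₁₂_apply]
  have := EL_len (hA (u ++ [x])) (hB (x :: v))
  rwa [show (u ++ [x]).length + i + ((x :: v).length + j) - 1 = l.length + (i + j) by
    rw [hl]; simp; omega] at this

theorem TE_srt {A : LC W →ₗ[ZMod 2] LC Z} {B : LC W →ₗ[ZMod 2] LC Y}
    (hA : ∀ l ∈ Srt W, A (sg l) ∈ spn (Srt Z)) (hB : ∀ l ∈ Srt W, B (sg l) ∈ spn (Srt Y))
    (l : List W) (hl : l ∈ Srt W) : TE A B (sg l) ∈ spn (Srt (Z × Y)) := by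
  rw [TE_sg]
  refine TT_mem _ _ _ ?_
  intro u x v hl'
  subst hl'
  rw [LinearMap.compl₁₂_apply]
  exact EL_srt (hA _ (srt_split hl).1) (hB _ (srt_split hl).2)

theorem TE_hom1_hom0 {A : LC W →ₗ[ZMod 2] LC Z} {B : LC W →ₗ[ZMod 2] LC Y}
    (hA : Hom1 A) (hB : Hom0 B) : Hom1 (TE A B) where
  nil := TE_nil A B
  len := TE_len (i := 1) (j := 0) hA.len hB.len
  srt := TE_srt hA.srt hB.srt

theorem TE_hom0_hom1 {A : LC W →ₗ[ZMod 2] LC Z} {B : LC W →ₗ[ZMod 2] LC Y}
    (hA : Hom0 A) (hB : Hom1 B) : Hom1 (TE A B) where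
  nil := TE_nil A B
  len l := by
    have := TE_len (i := 0) (j := 1) hA.len hB.len l
    simpa using this
  srt := TE_srt hA.srt hB.srt

theorem cm_of_hom0 {A : LC W →ₗ[ZMod 2] LC Z} (hA : Hom0 A) : cm A = 0 := by
  apply LC.hom_ext; intro l
  rw [cm_apply, hA.comm, add_self']; rfl

theorem TE_zero_left (B : LC W →ₗ[ZMod 2] LC Y) (l : List W) :
    TE (0 : LC W →ₗ[ZMod 2] LC Z) B (sg l) = 0 := by
  rw [TE_sg]
  refine TT_zero _ _ ?_
  intro u x v _
  simp

theorem TE_zero_right (A : LC W →ₗ[ZMod 2] LC Z) (l : List W) :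
    TE A (0 : LC W →ₗ[ZMod 2] LC Y) (sg l) = 0 := by
  rw [TE_sg]
  refine TT_zero _ _ ?_
  intro u x v _
  simp

theorem cm_TE_hom1_hom0 {A : LC W →ₗ[ZMod 2] LC Z} {B : LC W →ₗ[ZMod 2] LC Y}
    (hA : Hom1 A) (hB : Hom0 B) : cm (TE A B) = TE (cm A) B := by
  apply LC.hom_ext; intro l
  have h1 : TT (crf A B) l = 0 := by
    refine TT_zero _ _ ?_
    intro u x v _
    rw [crf_apply]
    have : e0 (bd (A (sg (u ++ [x])))) = 0 := by
      refine e0_of_len (n := (u ++ [x]).length) (by simp) ?_
      refine map_mem (A := bd) ?_ (hA.len (u ++ [x]))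
      intro l' hl'
      have := bd_len l'
      rwa [show l'.length - 1 = (u ++ [x]).length by
        have : l'.length = (u ++ [x]).length + 1 := hl'
        omega] at this
    rw [this, zero_mul]
  rw [cm_TE, cm_of_hom0 hB, TE_zero_right, hA.nil, hB.nil, h1]
  simp

theorem cm_TE_hom0_hom1 {A : LC W →ₗ[ZMod 2] LC Z} {B : LC W →ₗ[ZMod 2] LC Y}
    (hA : Hom0 A) (hB : Hom1 B) : cm (TE A B) = TE A (cm B) := by
  apply LC.hom_ext; intro l
  have h1 : TT (crf A B) l = 0 := by
    refine TT_zero _ _ ?_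
    intro u x v _
    rw [crf_apply]
    have : e0 (bd (B (sg (x :: v)))) = 0 := by
      refine e0_of_len (n := (x :: v).length) (by simp) ?_
      refine map_mem (A := bd) ?_ (hB.len (x :: v))
      intro l' hl'
      have := bd_len l'
      rwa [show l'.length - 1 = (x :: v).length by
        have : l'.length = (x :: v).length + 1 := hl'
        omega] at this
    rw [this, mul_zero]
  rw [cm_TE, cm_of_hom0 hA, TE_zero_left, hA.nil, hB.nil, h1]
  simp

theorem TE_hom0_hom0 {A : LC W →ₗ[ZMod 2] LC Z} {B : LC W →ₗ[ZMod 2] LC Y}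
    (hA : Hom0 A) (hB : Hom0 B) : Hom0 (TE A B) where
  comm := by
    have h0 : cm (TE A B) = 0 := by
      apply LC.hom_ext; intro l
      have h1 : TT (crf A B) l = 0 := by
        refine TT_zero _ _ ?_
        intro u x v _
        rw [crf_apply]
        have : e0 (bd (A (sg (u ++ [x])))) = 0 := by
          rw [hA.comm]
          rcases u with _ | ⟨y, u⟩
          · simp [bd_sg_cons, hA.nil]
          · have h2 := bd_len (y :: u ++ [x])
            refine e0_of_len (n := (u ++ [x]).length) (by simp) ?_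
            refine map_mem (A := A) ?_ h2
            intro l' hl'
            have h3 : l'.length = (y :: u ++ [x]).length - 1 := hl'
            have h4 := hA.len l'
            rwa [show l'.length = (u ++ [x]).length by rw [h3]; simp] at h4
        rw [this, zero_mul]
      rw [cm_TE, cm_of_hom0 hA, cm_of_hom0 hB, TE_zero_left, TE_zero_right, hA.nil, hB.nil, h1]
      simp
    intro a
    have h1 := LinearMap.congr_fun h0 a
    rw [cm_apply] at h1
    have h2 : TE A B (bd a) + TE A B (bd a) = 0 := add_self' _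
    calc bd (TE A B a) = bd (TE A B a) + (TE A B (bd a) + TE A B (bd a)) := by
          rw [h2, add_zero]
      _ = TE A B (bd a) := by rw [← add_assoc, h1]; simp
  nil := TE_nil A B
  len := TE_len (i := 0) (j := 0) hA.len hB.len
  srt := TE_srt hA.srt hB.srt

theorem TE_vanish {s t : ℕ} {A : LC W →ₗ[ZMod 2] LC Z} {B : LC W →ₗ[ZMod 2] LC Y}
    (hA : ∀ l, l.length ≤ s → A (sg l) = 0) (hB : ∀ l, l.length ≤ t → B (sg l) = 0)
    (l : List W) (hl : l.length ≤ s + t) : TE A B (sg l) = 0 := by
  rw [TE_sg]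
  refine TT_zero _ _ ?_
  intro u x v hl'
  rw [LinearMap.compl₁₂_apply]
  have h1 : (u ++ [x]).length + (x :: v).length = l.length + 1 := by rw [hl']; simp; omega
  by_cases h : (u ++ [x]).length ≤ s
  · rw [hA _ h]; simp
  · rw [hB _ (by omega)]; simp

theorem TE_add_left (A A' : LC W →ₗ[ZMod 2] LC Z) (B : LC W →ₗ[ZMod 2] LC Y) :
    TE (A + A') B = TE A B + TE A' B := by
  apply LC.hom_ext; intro l
  rw [LinearMap.add_apply, TE_sg, TE_sg, TE_sg, ← TT_add]
  congr 1
  apply LinearMap.ext; intro a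
  apply LinearMap.ext; intro b
  simp

theorem TE_add_right (A : LC W →ₗ[ZMod 2] LC Z) (B B' : LC W →ₗ[ZMod 2] LC Y) :
    TE A (B + B') = TE A B + TE A B' := by
  apply LC.hom_ext; intro l
  rw [LinearMap.add_apply, TE_sg, TE_sg, TE_sg, ← TT_add]
  congr 1
  apply LinearMap.ext; intro a
  apply LinearMap.ext; intro b
  simp

/-- the projection to the empty list -/
noncomputable def eta (W V : Type*) : LC W →ₗ[ZMod 2] LC V :=
  (LinearMap.toSpanSingleton (ZMod 2) (LC V) (sg [])) ∘ₗ e0

theorem eta_apply {V : Type*} (a : LC W) : eta W V a = e0 a • sg [] := rfl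

theorem null_AWEZ (f : W →o Z) (g : W →o Y) :
    Null (push (fun x => (f x, g x)) + TE (push f) (push g) + eta W (Z × Y)) := by
  have hfg : Monotone (fun x => (f x, g x)) := fun x y h =>
    Prod.mk_le_mk.2 ⟨f.monotone h, g.monotone h⟩
  refine null_of_contract _ (fun x => (f x, g x)) hfg ?_ ?_ ?_ ?_
  · -- chain map
    have h0 : cm (TE (push ⇑f) (push ⇑g)) = bd ∘ₗ (eta W (Z × Y)) + (eta W (Z × Y)) ∘ₗ bd := by
      apply LC.hom_ext; intro l
      have hf0 : cm (push (⇑f)) = 0 := by
        apply LC.hom_ext; intro l; rw [cm_apply, push_bd, add_self']; rfl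
      have hg0 : cm (push (⇑g)) = 0 := by
        apply LC.hom_ext; intro l; rw [cm_apply, push_bd, add_self']; rfl
      rw [cm_TE, hf0, hg0, TE_zero_left, TE_zero_right]
      simp only [push_sg, List.map_nil, EL_nil_left, EL_nil_right, zero_add,
        LinearMap.add_apply, LinearMap.comp_apply, eta_apply, map_smul, bd_nil, smul_zero]
      congr 1
      match l with
      | [] => simp [TT]
      | [x] => simp [TT, crf_apply, bd_sg_cons]
      | x :: y :: l =>
        have h1 : e0 (bd (sg (x :: y :: l))) = 0 := by simp [bd_sg_cons]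
        rw [h1]
        refine TT_zero _ _ ?_
        intro u z v huv
        rw [crf_apply, push_sg, push_sg]
        rcases u with _ | ⟨w, u⟩
        · have : v = y :: l := by simpa using (List.cons.inj huv).2.symm
          subst this
          simp [bd_sg_cons]
        · rcases u with _ | ⟨w', u⟩ <;> simp [bd_sg_cons]
    intro a
    have h1 := LinearMap.congr_fun h0 a
    rw [cm_apply] at h1
    simp only [LinearMap.add_apply, map_add, LinearMap.comp_apply] at h1 ⊢
    rw [push_bd]
    have h2 : TE (push ⇑f) (push ⇑g) (bd a) + TE (push ⇑f) (push ⇑g) (bd a) = 0 := add_self' _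
    have h3 : bd (eta W (Z × Y) a) + bd (eta W (Z × Y) a) = 0 := add_self' _
    have h4 : bd (TE (push ⇑f) (push ⇑g) a) =
        TE (push ⇑f) (push ⇑g) (bd a) + (bd (eta W (Z × Y) a) + eta W (Z × Y) (bd a)) := by
      rw [← h1]
      calc bd (TE (push ⇑f) (push ⇑g) a) = bd (TE (push ⇑f) (push ⇑g) a) +
            (TE (push ⇑f) (push ⇑g) (bd a) + TE (push ⇑f) (push ⇑g) (bd a)) := by
              rw [h2, add_zero]
        _ = _ := by abel
    rw [h4]
    calc _ = push (fun x => (f x, g x)) (bd a) + TE (push ⇑f) (push ⇑g) (bd a) +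
          eta W (Z × Y) (bd a) + (bd (eta W (Z × Y) a) + bd (eta W (Z × Y) a)) := by abel
      _ = _ := by rw [h3, add_zero]
  · simp [TE_nil, eta_apply, add_self']
  · intro l
    rcases l with _ | ⟨x, l⟩
    · have : (push (fun x => (f x, g x)) + TE (push ⇑f) (push ⇑g) + eta W (Z × Y)) (sg []) = 0 := by
        simp [TE_nil, eta_apply, add_self']
      rw [this]; exact Submodule.zero_mem _
    · have h1 : eta W (Z × Y) (sg (x :: l)) = 0 := by simp [eta_apply]
      rw [LinearMap.add_apply, h1, add_zero]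
      refine Submodule.add_mem _ ?_ ?_
      · rw [push_sg]; exact sg_mem (by simp [Ln])
      · refine TE_len (i := 0) (j := 0) ?_ ?_ (x :: l)
        · intro l; rw [push_sg]; exact sg_mem (by simp [Ln])
        · intro l; rw [push_sg]; exact sg_mem (by simp [Ln])
  · intro x l hl
    have h1 : eta W (Z × Y) (sg (x :: l)) = 0 := by simp [eta_apply]
    rw [LinearMap.add_apply, h1, add_zero]
    refine Submodule.add_mem _ ?_ ?_
    · rw [push_sg]
      exact sg_mem (map_SB hfg (cons_SB hl))
    · rw [TE_sg]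
      refine TT_mem _ _ _ ?_
      intro u z v huv
      rw [LinearMap.compl₁₂_apply, push_sg, push_sg]
      have h2 : u ++ z :: v ∈ SB x := by rw [← huv]; exact cons_SB hl
      exact EL_SB (sg_mem (map_SB f.monotone (SB_split h2).1))
        (sg_mem (map_SB g.monotone (SB_split h2).2))

end TE

end Pool.Agent.Dist96500d
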