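import Pool.Agent.W_MP_96500d_co.Trace
import Pool.Agent.W_MP_96500d_co.NC

/-! If all nonempty words are nilpotent then the diagonal has a fixed point. -/

set_option autoImplicit false
set_option linter.unusedSectionVars false
set_option linter.deprecated false
set_option linter.unusedSimpArgs false

namespace Pool.Agent.Dist96500d

section TL
variable {J X : Type*} [Fintype J] [DecidableEq J] [PartialOrder X] [Finite X] [Nonempty X]

/-- long words are null-homotopic when all nonempty words are nilpotent -/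
theorem long_word_null (hX : IsConn X) (F : (J → X) →o X)
    (hnil : ∀ w g, w ≠ [] → IsWord F w g → Nilp g) (w : List J)
    (hw : w.length = Nat.card (X →o X)) {g : X →o X} (hg : IsWord F w g) :
    ∃ c, Conn g (OrderHom.const X c) := by
  classical
  obtain ⟨x0⟩ := ‹Nonempty X›
  let c : J → X := fun _ => x0
  obtain ⟨a, p, hp, hap, hG⟩ : ∃ a p : ℕ, 1 ≤ p ∧ a + p ≤ Nat.card (X →o X) ∧
      wm F c (w.take a) = wm F c (w.take (a + p)) := by
    cases nonempty_fintype (X →o X)
    obtain ⟨a, ha, b, hb, hab, h⟩ := Finset.exists_ne_map_eq_of_card_lt_of_maps_to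
      (s := Finset.range (Nat.card (X →o X) + 1)) (t := (Finset.univ : Finset (X →o X)))
      (f := fun a => wm F c (w.take a))
      (by simp [Nat.card_eq_fintype_card]) (fun _ _ => Finset.mem_coe.2 (Finset.mem_univ _))
    simp only [Finset.mem_range] at ha hb
    rcases lt_or_gt_of_ne hab with hlt | hlt
    · exact ⟨a, b - a, by omega, by omega, by
        rw [show a + (b - a) = b by omega]; exact h⟩
    · exact ⟨b, a - b, by omega, by omega, by
        rw [show b + (a - b) = a by omega]; exact h.symm⟩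
  rw [List.take_add, wm_append] at hG
  set v := (w.drop a).take p with hv
  have hvne : v ≠ [] := by
    intro h
    have := congrArg List.length h
    simp [hv] at this
    omega
  obtain ⟨k, c1, hk⟩ := hnil v _ hvne (wm_isWord F c v)
  set A := wm F c (w.take a) with hA
  set B := wm F c v with hB
  have h1 : ∀ n, A = A * B ^ n := by
    intro n
    induction n with
    | zero => simp
    | succ n ih => rw [pow_succ, ← mul_assoc, ← ih]; exact hG
  have h2 : Conn A (OrderHom.const X (A c1)) := by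
    have := (Conn.refl A).mul hk
    rw [← h1 k] at this
    exact this.trans (Conn.of_eq (by ext x; simp [OrderHom.mul_eq_comp]))
  refine ⟨A c1, ?_⟩
  have h3 : IsWord F w (A * wm F c (w.drop a)) := by
    rw [hA, ← wm_append, List.take_append_drop]
    exact wm_isWord F c w
  refine (hg.conn hX h3).trans ((h2.mul (Conn.refl _)).trans (Conn.of_eq ?_))
  ext x; simp [OrderHom.mul_eq_comp]

/-- the difference of an iterate and a constant on chains -/
noncomputable def dlt (φ : X →o X) (c : X) (j : ℕ) : LC X →ₗ[ZMod 2] LC X :=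
  push (⇑(φ ^ j)) + push (fun _ : X => c)

/-- sums of word maps composed with the difference -/
noncomputable def GG (F : (J → X) →o X) (φ : X →o X) (c : X) (n j : ℕ) :
    AddSubmonoid (LC X →ₗ[ZMod 2] LC X) :=
  AddSubmonoid.closure {A | ∃ w g, w.length = n ∧ IsWord F w g ∧ A = push (⇑g) ∘ₗ dlt φ c j}

theorem post_GG (F : (J → X) →o X) (φ : X →o X) (c : X) (n j : ℕ) (a : J) (c' : J → X)
    {T : LC X →ₗ[ZMod 2] LC X} (hT : T ∈ GG F φ c n j) :
    push (⇑(sec F a c')) ∘ₗ T ∈ GG F φ c (n + 1) j := by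
  unfold GG at hT
  induction hT using AddSubmonoid.closure_induction with
  | zero => rw [LinearMap.comp_zero]; exact AddSubmonoid.zero_mem _
  | add A B _ _ h1 h2 => rw [LinearMap.comp_add]; exact AddSubmonoid.add_mem _ h1 h2
  | mem T hT =>
    obtain ⟨w, g, hw, hg, rfl⟩ := hT
    refine AddSubmonoid.subset_closure ⟨a :: w, sec F a c' * g, by simp [hw],
      hg.cons _ _, ?_⟩
    have h1 : ⇑(sec F a c' * g) = fun x => (sec F a c') (g x) := rfl
    rw [← LinearMap.comp_assoc, push_push, h1]

theorem part_univ (F : (J → X) →o X) (c : X) (m : ℕ) :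
    (fun x => F ((part (diag F ^ m) c (Finset.univ : Finset J)) x)) = ⇑(diag F ^ (m + 1)) := by
  funext x
  have h : part (diag F ^ m) c (Finset.univ : Finset J) x = fun _ => (diag F ^ m) x := by
    funext i
    simp [part_apply]
  rw [h, pow_succ' (diag F) m]
  rfl

theorem dlt_algebra {A : Type*} [AddCommGroup A] (p1 p2 p3 q r : A) (a1 : p3 + p3 = 0)
    (a2 : q + q = 0) :
    p1 + p2 + r = (p1 + p3 + q) + (p2 + p3) + (q + r) := by
  calc p1 + p2 + r = p1 + p2 + r + (p3 + p3) + (q + q) := by
            rw [a1, a2]; simp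
        _ = _ := by abel

theorem dlt_step_aux (hX : IsConn X) (F : (J → X) →o X) (c : X) {s m : ℕ}
    (hV : Van s (dlt (diag F) c m)) (T : LC X →ₗ[ZMod 2] LC X)
    (hVT : Van (s + s) (dlt (diag F) c m + T)) :
    Van (s + s) (dlt (diag F) c (m + 1) + ∑ a : J, push (⇑(sec F a (fun _ => c))) ∘ₗ T) := by
  have h1 := slots_van F (diag F ^ m) c hV (Finset.univ : Finset J)
  rw [part_univ] at h1
  have h2 : Null (push (⇑(OrderHom.const X c)) + push (⇑(OrderHom.const X (F fun _ : J => c)))) :=
    null_push_of_conn (Conn.const (hX _ _))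
  have h3 : Van (s + s) (∑ a : J, (push (⇑(sec F a (fun _ => c))) ∘ₗ
      (dlt (diag F) c m + T))) := by
    refine Van.sum _ (fun a _ => ?_)
    exact hVT.push_comp (sec F a (fun _ => c)).monotone
  have h5 : ∑ a : J, (push (⇑(sec F a (fun _ => c))) ∘ₗ (dlt (diag F) c m + T)) =
      ∑ a : J, (push (⇑(sec F a (fun _ => c))) ∘ₗ dlt (diag F) c m) +
      ∑ a : J, (push (⇑(sec F a (fun _ => c))) ∘ₗ T) := by
    rw [← Finset.sum_add_distrib]
    refine Finset.sum_congr rfl (fun a _ => ?_)
    rw [LinearMap.comp_add]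
  rw [h5] at h3
  have h4 := (h1.add (h2.van (s + s))).add h3
  have h6 := dlt_algebra (push (⇑(diag F ^ (m + 1)))) (push (⇑(OrderHom.const X c)))
    (push (⇑(OrderHom.const X (F fun _ : J => c))))
    (∑ a : J, (push (⇑(sec F a (fun _ => c))) ∘ₗ dlt (diag F) c m))
    (∑ a : J, (push (⇑(sec F a (fun _ => c))) ∘ₗ T)) (lin_add_self _) (lin_add_self _)
  have h7 : dlt (diag F) c (m + 1) = push (⇑(diag F ^ (m + 1))) +
    push (⇑(OrderHom.const X c)) := rfl
  rw [h7, h6]
  exact h4

theorem dlt_step (hX : IsConn X) (F : (J → X) →o X) (c : X) {s j : ℕ} :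
    ∀ n, (∀ i ≤ n, Van s (dlt (diag F) c (j + i))) →
      ∃ T ∈ GG F (diag F) c n j, Van (s + s) (dlt (diag F) c (j + n) + T) := by
  intro n
  induction n with
  | zero =>
    intro _
    refine ⟨dlt (diag F) c j, ?_, ?_⟩
    · refine AddSubmonoid.subset_closure ⟨[], 1, rfl, rfl, ?_⟩
      have : push (⇑(1 : X →o X)) = (LinearMap.id : LC X →ₗ[ZMod 2] LC X) := by
        apply LinearMap.ext; intro a
        exact push_id a
      rw [this, LinearMap.id_comp]
    · rw [add_zero, lin_add_self]; exact Van.zero _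
  | succ n ih =>
    intro hV
    obtain ⟨T, hT, hVT⟩ := ih (fun i hi => hV i (by omega))
    refine ⟨∑ a : J, (push (⇑(sec F a (fun _ => c))) ∘ₗ T), ?_, ?_⟩
    · exact sum_mem (fun a _ => post_GG F _ c n j a _ hT)
    · exact dlt_step_aux hX F c (hV n (by omega)) T hVT

theorem GG_null (hX : IsConn X) (F : (J → X) →o X)
    (hnil : ∀ w g, w ≠ [] → IsWord F w g → Nilp g) (c : X) (j : ℕ) {T : LC X →ₗ[ZMod 2] LC X}
    (hT : T ∈ GG F (diag F) c (Nat.card (X →o X)) j) : Null T := by
  unfold GG at hT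
  induction hT using AddSubmonoid.closure_induction with
  | zero => exact Null.zero
  | add _ _ _ _ h1 h2 => exact h1.add h2
  | mem T hT =>
  obtain ⟨w, g, hw, hg, rfl⟩ := hT
  obtain ⟨c', hc'⟩ := long_word_null hX F hnil w hw hg
  have h1 := null_push_of_conn hc'
  have h2 := (h1.comp_push (diag F ^ j).monotone).add
    (h1.comp_push (f := fun _ : X => c) monotone_const)
  convert h2 using 1
  simp only [LinearMap.add_comp, push_push, dlt, LinearMap.comp_add]
  have e1 : (fun x => (OrderHom.const X c') ((diag F ^ j) x)) = fun _ : X => c' := rfl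
  have e2 : (fun x : X => (OrderHom.const X c') c) = fun _ : X => c' := rfl
  rw [e1, e2]
  have a1 := lin_add_self (push (fun _ : X => c'))
  set p1 := push (fun _ : X => c')
  set p2 := push (fun x => g ((diag F ^ j) x))
  set p3 := push (fun _ : X => g c)
  calc p2 + p3 = p2 + p3 + (p1 + p1) := by rw [a1, add_zero]
    _ = _ := by abel

theorem dlt_van (hX : IsConn X) (F : (J → X) →o X)
    (hnil : ∀ w g, w ≠ [] → IsWord F w g → Nilp g) (c : X) (s : ℕ) :
    ∃ t0, ∀ t, t0 ≤ t → Van (s + 1) (dlt (diag F) c t) := by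
  induction s with
  | zero => exact ⟨0, fun t _ => van_one hX (diag F ^ t) c⟩
  | succ s ih =>
    obtain ⟨t0, ht0⟩ := ih
    refine ⟨t0 + Nat.card (X →o X), fun t ht => ?_⟩
    obtain ⟨T, hT, hVT⟩ := dlt_step hX F c (s := s + 1) (j := t - Nat.card (X →o X))
      (Nat.card (X →o X)) (fun i _ => ht0 _ (by omega))
    rw [show t - Nat.card (X →o X) + Nat.card (X →o X) = t by omega] at hVT
    have h1 := (hVT.add ((GG_null hX F hnil c _ hT).van _)).mono
      (show s + 1 + 1 ≤ s + 1 + (s + 1) by omega)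
    rwa [add_assoc (dlt (diag F) c t), lin_add_self, add_zero] at h1

theorem hasFP_diag_of_nilp (hX : IsConn X) (F : (J → X) →o X)
    (hnil : ∀ w g, w ≠ [] → IsWord F w g → Nilp g) : HasFP (diag F) := by
  obtain ⟨c⟩ := ‹Nonempty X›
  obtain ⟨t0, ht0⟩ := dlt_van hX F hnil c (Nat.card X)
  set K := (Nat.card (X →o X)).factorial with hK
  have hKpos : 0 < K := Nat.factorial_pos _
  set φ := diag F with hφ
  have hidem : φ ^ K * φ ^ K = φ ^ K := pow_fact_idem φ
  have hq : ∀ q, φ ^ (K * (q + 1)) = φ ^ K := by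
    intro q
    induction q with
    | zero => simp
    | succ q ih => rw [mul_add K (q + 1) 1, pow_add, ih, mul_one, hidem]
  have h1 := ht0 (K * (t0 + 1) + 1) (by
    have : t0 + 1 ≤ K * (t0 + 1) := Nat.le_mul_of_pos_left _ hKpos
    omega)
  obtain ⟨x, hx⟩ := hasFP_of_van (φ ^ (K * (t0 + 1) + 1)) c (by omega) h1
  rw [pow_succ', hq] at hx
  -- x = φ (φ^K x)
  have h2 : (φ ^ K) x = x := by
    have h3 : (φ ^ K) ((φ * φ ^ K) x) = (φ * φ ^ K) x := by
      have : φ ^ K * (φ * φ ^ K) = φ * φ ^ K := by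
        rw [← mul_assoc, ← pow_succ, pow_succ', mul_assoc, hidem]
      exact DFunLike.congr_fun this x
    rwa [hx] at h3
  refine ⟨x, ?_⟩
  have h4 : φ ((φ ^ K) x) = x := hx
  rwa [h2] at h4

end TL

end Pool.Agent.Dist96500d
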