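import Pool.Agent.W_MP_96500d_co.TL

/-! One distinguished slot: fixed point theorem when all words using another slot are
nilpotent. -/

set_option autoImplicit false
set_option linter.unusedSectionVars false
set_option linter.deprecated false
set_option linter.unusedSimpArgs false

namespace Pool.Agent.Dist96500d

section restr
variable {U : Type*} [PartialOrder U]

/-- restriction of self-maps preserving a subset -/
def restr (D : Set U) : {h : U →o U | ∀ x ∈ D, h x ∈ D} →o (D →o D) where
  toFun h := ⟨fun x => ⟨h.1 x.1, h.2 x.1 x.2⟩, fun _ _ hxy => h.1.monotone hxy⟩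
  monotone' := fun _ _ hh x => hh x.1

theorem restr_apply (D : Set U) (h : {h : U →o U | ∀ x ∈ D, h x ∈ D}) (x : D) :
    ((restr D h x : D) : U) = h.1 x := rfl

end restr

section T1
variable {J U : Type*} [Fintype J] [DecidableEq J] [PartialOrder U] [Finite U]

theorem isWord_singleton {G : (J → U) →o U} {μ : J} {g : U →o U} (h : IsWord G [μ] g) :
    ∃ c, g = sec G μ c := by
  obtain ⟨c, g', hg', rfl⟩ := h
  have : g' = 1 := hg'
  exact ⟨c, by rw [this, mul_one]⟩

theorem hasFP_diag_of_slot (hU : IsConn U) (G : (J → U) →o U) (μ : J)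
    (ha : ∃ u, HasFP (sec G μ u))
    (hb : ∀ w g, (∃ i ∈ w, i ≠ μ) → IsWord G w g → Nilp g) : HasFP (diag G) := by
  classical
  obtain ⟨u, x0, hx0⟩ := ha
  let C : Set (U →o U) := {h | ∃ l, 1 ≤ l ∧ IsWord G (List.replicate l μ) h}
  obtain ⟨e, ⟨l0, hl0, he⟩, hee, hrig⟩ := exists_rigid C ⟨sec G μ u, 1, le_rfl,
    IsWord.single μ u⟩ (by
      rintro a ⟨l, hl, ha⟩ b ⟨m, hm, hb⟩
      refine ⟨l + m, by omega, ?_⟩
      rw [List.replicate_add]
      exact ha.append hb)
  have hwc : ∀ l, 1 ≤ l → ∀ h h', IsWord G (List.replicate l μ) h →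
      IsWord G (List.replicate l μ) h' → e * h * e = e * h' * e := by
    intro l hl h h' hh hh'
    refine hrig h h' ?_
    exact (hh.connIn hU hh').map (f := id) monotone_id (fun x hx => ⟨l, hl, hx⟩)
  -- the point p
  obtain ⟨p, hp⟩ : HasFP (e * sec G μ u * e) := by
    have h1 : IsWord G (List.replicate (l0 + 1 + l0) μ) (e * sec G μ u * e) := by
      rw [List.replicate_add, List.replicate_add]
      exact (he.append (IsWord.single μ u)).append he
    have h2 : IsWord G (List.replicate (l0 + 1 + l0) μ) (sec G μ u ^ (l0 + 1 + l0)) := by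
      have := (IsWord.replicate_pow (F := G) (i := μ) (l := 1) (IsWord.single μ u)
        (l0 + 1 + l0))
      rwa [mul_one] at this
    refine HasFP.conn (h2.conn hU h1) ⟨x0, ?_⟩
    have : ∀ n : ℕ, (sec G μ u ^ n) x0 = x0 := by
      intro n
      induction n with
      | zero => rfl
      | succ n ih =>
        rw [pow_succ]
        change (sec G μ u ^ n) (sec G μ u x0) = x0
        rw [hx0, ih]
    exact this _
  have hep : e p = p := by
    have h1 : e * (e * sec G μ u * e) = e * sec G μ u * e := by
      simp only [← mul_assoc, hee]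
    have h2 := DFunLike.congr_fun h1 p
    change e ((e * sec G μ u * e) p) = (e * sec G μ u * e) p at h2
    rwa [hp] at h2
  have hpv : ∀ v, e (sec G μ v p) = p := by
    intro v
    have h1 := hwc 1 le_rfl _ _ (IsWord.single μ v) (IsWord.single μ u)
    have h2 := DFunLike.congr_fun h1 p
    rw [hp] at h2
    change e (sec G μ v (e p)) = p at h2
    rwa [hep] at h2
  -- the subset D
  let D : Set U := {x | ∃ l h, IsWord G (List.replicate l μ) h ∧ x = h p}
  have hpD : p ∈ D := ⟨0, 1, IsWord.nil, rfl⟩
  have hGD : ∀ z : J → U, z μ ∈ D → G z ∈ D := by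
    rintro z ⟨l, h, hh, hz⟩
    refine ⟨l + 1, sec G μ z * h, hh.cons μ z, ?_⟩
    change G z = G (Function.update z μ (h p))
    rw [← hz, Function.update_eq_self]
  have heD : ∀ l h, IsWord G (List.replicate l μ) h → e (h p) = p := by
    intro l
    induction l with
    | zero =>
      intro h hh
      have : h = 1 := hh
      rw [this]; exact hep
    | succ l ih =>
      intro h hh
      rw [List.replicate_succ'] at hh
      obtain ⟨h', g, hh', hg, rfl⟩ := hh.split
      obtain ⟨c, rfl⟩ := isWord_singleton hg
      have h1 : IsWord G (List.replicate (l + 1 + l0) μ) (h' * sec G μ c * e) := by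
        rw [List.replicate_add, List.replicate_add]
        exact (hh'.append (IsWord.single μ c)).append he
      have h2 : IsWord G (List.replicate (l + 1 + l0) μ) (h' * e * sec G μ c) := by
        rw [show l + 1 + l0 = l + l0 + 1 by ring, List.replicate_add, List.replicate_add]
        exact (hh'.append he).append (IsWord.single μ c)
      have h3 := DFunLike.congr_fun (hwc _ (by omega) _ _ h1 h2) p
      change e (h' (sec G μ c (e (e p)))) = e (h' (e (sec G μ c (e p)))) at h3
      rw [hep, hep, hpv, ih h' hh'] at h3
      exact h3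
  have hword : ∀ l h, IsWord G (List.replicate l μ) h → ∀ x ∈ D, h x ∈ D := by
    rintro l h hh x ⟨m, k, hk, rfl⟩
    refine ⟨l + m, h * k, ?_, rfl⟩
    rw [List.replicate_add]
    exact hh.append hk
  have hDconn : ∀ l h, IsWord G (List.replicate l μ) h → ConnIn D p (h p) := by
    intro l
    induction l with
    | zero =>
      intro h hh
      have : h = 1 := hh
      rw [this]; exact ConnIn.refl _
    | succ l ih =>
      intro h hh
      rw [List.replicate_succ] at hh
      obtain ⟨c, h', hh', rfl⟩ := hh
      have h1 : ConnIn D (sec G μ c p) (sec G μ c (h' p)) := by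
        refine (ih h' hh').map (sec G μ c).monotone ?_
        exact hword 1 _ (IsWord.single μ c)
      have h2 : IsWord G (List.replicate (l0 + 1) μ) (e * sec G μ c) := by
        rw [List.replicate_add]
        exact he.append (IsWord.single μ c)
      have h3 : IsWord G (List.replicate (l0 + 1) μ) (sec G μ c * e) := by
        rw [add_comm, List.replicate_add]
        exact (IsWord.single μ c).append he
      have h4 : ConnIn D ((e * sec G μ c) p) ((sec G μ c * e) p) := by
        refine (h2.connIn hU h3).map (f := fun h : U →o U => h p) (fun a b hab => hab p) ?_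
        intro h hh
        exact ⟨l0 + 1, h, hh, rfl⟩
      change ConnIn D (e (sec G μ c p)) (sec G μ c (e p)) at h4
      rw [hpv, hep] at h4
      exact h4.trans h1
  have hDc : IsConn D := by
    rintro ⟨a, l, h, hh, rfl⟩ ⟨b, m, k, hk, rfl⟩
    exact ((hDconn l h hh).symm.trans (hDconn m k hk)).subtype _ _
  -- the restricted system
  let G' : (J → D) →o D :=
    ⟨fun z => ⟨G (fun j => (z j : U)), hGD _ (z μ).2⟩, fun z z' hz => G.monotone (fun j => hz j)⟩
  have hlift : ∀ w g, IsWord G' w g → ∃ g', IsWord G w g' ∧ ∀ x : D, g' (x : U) = (g x : U) := by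
    intro w
    induction w with
    | nil =>
      intro g hg
      have : g = 1 := hg
      exact ⟨1, IsWord.nil, fun x => by rw [this]; rfl⟩
    | cons i w ih =>
      intro g hg
      obtain ⟨c, g1, hg1, rfl⟩ := hg
      obtain ⟨g2, hg2, h2⟩ := ih g1 hg1
      refine ⟨sec G i (fun j => (c j : U)) * g2, hg2.cons i _, ?_⟩
      intro x
      change G (Function.update (fun j => (c j : U)) i (g2 (x : U))) =
        G (fun j => ((Function.update c i (g1 x)) j : U))
      congr 1
      funext j
      by_cases hj : j = i
      · subst hj; simp [h2]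
      · simp [hj]
  haveI : Nonempty D := ⟨⟨p, hpD⟩⟩
  have hnil : ∀ w g, w ≠ [] → IsWord G' w g → Nilp g := by
    intro w g hw hg
    by_cases hex : ∃ i ∈ w, i ≠ μ
    · obtain ⟨i, hi, hiμ⟩ := hex
      obtain ⟨w1, w2, rfl⟩ := List.append_of_mem hi
      obtain ⟨g1, g3, hg1, ⟨c, g2, hg2, rfl⟩, rfl⟩ := hg.split
      obtain ⟨k1, hk1, e1⟩ := hlift _ _ hg1
      obtain ⟨k2, hk2, e2⟩ := hlift _ _ hg2
      have hs : ∀ x : U, G (Function.update (fun j => (c j : U)) i x) ∈ D := by
        intro x
        refine hGD _ ?_
        rw [Function.update_of_ne (Ne.symm hiμ)]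
        exact (c μ).2
      let s : U →o D := ⟨fun x => ⟨G (Function.update (fun j => (c j : U)) i x), hs x⟩,
        fun x y hxy => (sec G i (fun j => (c j : U))).monotone hxy⟩
      let A : U →o D := g1.comp s
      let B : D →o U := (OrderHom.Subtype.val (fun x => x ∈ D)).comp g2
      have hAB : A.comp B = g1 * (sec G' i c * g2) := by
        ext x
        change ((g1 (s ((g2 x : D) : U)) : D) : U) = ((g1 (sec G' i c (g2 x)) : D) : U)
        have : s ((g2 x : D) : U) = sec G' i c (g2 x) := by
          apply Subtype.ext
          change G (Function.update (fun j => (c j : U)) i ((g2 x : D) : U)) =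
            G (fun j => ((Function.update c i (g2 x)) j : U))
          congr 1
          funext j
          by_cases hj : j = i
          · subst hj; simp
          · simp [hj]
        rw [this]
      have hBA : B.comp A = k2 * (k1 * sec G i (fun j => (c j : U))) := by
        ext x
        change ((g2 (g1 (s x)) : D) : U) = k2 (k1 (G (Function.update (fun j => (c j : U)) i x)))
        have h5 : G (Function.update (fun j => (c j : U)) i x) = ((s x : D) : U) := rfl
        rw [h5, e1, e2]
      rw [← hAB]
      apply Nilp.swap
      rw [hBA]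
      exact hb (w2 ++ (w1 ++ [i])) _ ⟨i, by simp, hiμ⟩
        (hk2.append (hk1.append (IsWord.single i _)))
    · have hall : ∀ i ∈ w, i = μ := by
        intro i hi
        by_contra hne
        exact hex ⟨i, hi, hne⟩
      obtain ⟨l, hl⟩ : ∃ l, w = List.replicate l μ := ⟨w.length, List.eq_replicate_of_mem hall⟩
      subst hl
      have hl1 : 1 ≤ l := by
        rcases Nat.eq_zero_or_pos l with rfl | h
        · exact absurd rfl hw
        · exact h
      obtain ⟨k, hk, ek⟩ := hlift _ _ hg
      have h1 : IsWord G (List.replicate (l0 * l) μ) (k ^ l0) := hk.replicate_pow l0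
      have h2 : IsWord G (List.replicate (l0 * l) μ) (e ^ l) := by
        rw [mul_comm]; exact he.replicate_pow l
      have h3 : ConnIn {h : U →o U | ∀ x ∈ D, h x ∈ D} (k ^ l0) (e ^ l) := by
        refine (h1.connIn hU h2).map (f := id) monotone_id ?_
        intro h hh
        exact hword _ _ hh
      have m1 : k ^ l0 ∈ {h : U →o U | ∀ x ∈ D, h x ∈ D} := hword _ _ h1
      have m2 : e ^ l ∈ {h : U →o U | ∀ x ∈ D, h x ∈ D} := hword _ _ h2
      have h4 := (h3.subtype m1 m2).map (restr D).monotone
      refine ⟨l0, ⟨p, hpD⟩, ?_⟩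
      have e3 : restr D ⟨k ^ l0, m1⟩ = g ^ l0 := by
        have key : ∀ n : ℕ, ∀ x : D, (k ^ n) (x : U) = ((g ^ n) x : U) := by
          intro n
          induction n with
          | zero => intro x; rfl
          | succ n ih =>
            intro x
            rw [pow_succ, pow_succ]
            change (k ^ n) (k (x : U)) = (((g ^ n) (g x) : D) : U)
            rw [ek, ih]
        ext x
        exact key l0 x
      have e4 : restr D ⟨e ^ l, m2⟩ = OrderHom.const D (⟨p, hpD⟩ : D) := by
        ext x
        obtain ⟨x, m, h, hh, rfl⟩ := x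
        change (e ^ l) (h p) = p
        obtain ⟨l', rfl⟩ : ∃ l', l = l' + 1 := ⟨l - 1, by omega⟩
        rw [pow_succ]
        change (e ^ l') (e (h p)) = p
        rw [heD m h hh]
        have : ∀ n : ℕ, (e ^ n) p = p := by
          intro n
          induction n with
          | zero => rfl
          | succ n ih =>
            rw [pow_succ]
            change (e ^ n) (e p) = p
            rw [hep, ih]
        exact this _
      rw [e3, e4] at h4
      exact h4
  obtain ⟨z, hz⟩ := hasFP_diag_of_nilp hDc G' hnil
  exact ⟨z, congrArg Subtype.val hz⟩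

end T1

end Pool.Agent.Dist96500d
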