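import Pool.Agent.W_MP_96500d_co.LemB

/-! The mod 2 trace argument. -/

set_option autoImplicit false
set_option linter.unusedSectionVars false
set_option linter.deprecated false
set_option linter.unusedSimpArgs false

namespace Pool.Agent.Dist96500d

section trace
variable {X : Type*} [PartialOrder X]

/-- strictly decreasing lists -/
def Str (X : Type*) [PartialOrder X] : Set (List X) := {l | l.Pairwise (fun a b => b < a)}

theorem str_nodup {l : List X} (h : l ∈ Str X) : l.Nodup := by
  refine List.Pairwise.imp ?_ h
  intro a b hab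
  exact hab.ne'

theorem str_finite [Finite X] : (Str X).Finite := by
  classical
  cases nonempty_fintype X
  refine (List.finite_length_le X (Fintype.card X)).subset (fun l hl => ?_)
  exact (str_nodup hl).length_le_card

theorem str_cons {x : X} {l : List X} : x :: l ∈ Str X ↔ (∀ y ∈ l, y < x) ∧ l ∈ Str X := by
  simp only [Str, Set.mem_setOf_eq, List.pairwise_cons]

theorem bad_cons {x : X} {l : List X} (h : l ∉ Str X) : x :: l ∉ Str X :=
  fun h' => h (str_cons.1 h').2

theorem bad_dup (x : X) (l : List X) : x :: x :: l ∉ Str X := by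
  intro h
  exact lt_irrefl x ((str_cons.1 h).1 x (by simp))

/-- the boundary of a weakly decreasing list with a repetition is supported on such lists -/
theorem bd_bad (l : List X) (hl : l ∈ Srt X) (hb : l ∉ Str X) : bd (sg l) ∈ spn (Str X)ᶜ := by
  induction l with
  | nil => exact absurd List.Pairwise.nil hb
  | cons x l ih =>
    have hl' : l ∈ SB x := srt_cons.1 hl
    by_cases hs : l ∈ Str X
    · -- the head is repeated
      have h1 : ∃ y ∈ l, ¬ y < x := by
        by_contra hcon
        push Not at hcon
        exact hb (str_cons.2 ⟨hcon, hs⟩)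
      obtain ⟨y, hy, hyx⟩ := h1
      have hyx' : y = x := by
        rcases (hl'.2 y hy).lt_or_eq with h | h
        · exact absurd h hyx
        · exact h
      subst hyx'
      cases l with
      | nil => simp at hy
      | cons z l =>
        have hz : z = y := by
          apply le_antisymm (hl'.2 z (by simp))
          rcases List.mem_cons.1 hy with h | h
          · exact h.le
          · exact ((srt_cons.1 hl'.1).2 y h)
        subst hz
        have : bd (sg (z :: z :: l)) = cons z (cons z (bd (sg l))) := by
          rw [bd_sg_cons, bd_sg_cons, map_add, cons_sg, ← add_assoc, add_self', zero_add]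
        rw [this]
        have h2 : bd (sg l) ∈ spn (Set.univ : Set (List X)) := by
          rw [spn, Finsupp.mem_supported]; exact Set.subset_univ _
        refine cons_mem (S := {l' | ∃ l'', l' = z :: l''}) ?_
          (cons_mem (S := Set.univ) (T := {l' | ∃ l'', l' = z :: l''})
            (fun l' _ => ⟨l', rfl⟩) h2)
        rintro _ ⟨l'', rfl⟩
        exact bad_dup z l''
    · rw [bd_sg_cons]
      refine Submodule.add_mem _ (sg_mem hs) ?_
      exact cons_mem (fun l' h' => bad_cons h') (ih hl'.1 hs)

theorem bd_str (l : List X) (hl : l ∈ Str X) : bd (sg l) ∈ spn (Str X) := by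
  induction l with
  | nil => simp
  | cons x l ih =>
    have h1 := str_cons.1 hl
    rw [bd_sg_cons]
    refine Submodule.add_mem _ (sg_mem h1.2) ?_
    -- entries of the boundary stay below x
    have key : ∀ l : List X, (∀ y ∈ l, y < x) → bd (sg l) ∈ spn {l' : List X | ∀ y ∈ l', y < x} := by
      intro l
      induction l with
      | nil => intro _; simp
      | cons z l ih2 =>
        intro h
        rw [bd_sg_cons]
        refine Submodule.add_mem _ (sg_mem (fun y hy => h y (by simp [hy]))) ?_
        refine cons_mem ?_ (ih2 (fun y hy => h y (by simp [hy])))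
        intro l' hl' y hy
        rcases List.mem_cons.1 hy with rfl | hy
        · exact h _ (by simp)
        · exact hl' y hy
    refine cons_mem ?_ (spn_inter (ih h1.2) (key l h1.1))
    rintro l' ⟨h2, h3⟩
    exact str_cons.2 ⟨h3, h2⟩

theorem sg_coeff [DecidableEq X] (l b : List X) : (sg l : LC X) b = if l = b then 1 else 0 := by
  rw [sg, Finsupp.single_apply]

theorem sum_coeff {M : Type*} [AddCommGroup M] [Module (ZMod 2) M] (S : Finset (List X))
    {T : Set (List X)} (f : LC X →ₗ[ZMod 2] M) (hf : ∀ l ∈ T, l ∉ S → f (sg l) = 0) {c : LC X}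
    (hc : c ∈ spn T) : f c = ∑ b ∈ S, c b • f (sg b) := by
  classical
  let g : LC X →ₗ[ZMod 2] M := ∑ b ∈ S, (LinearMap.toSpanSingleton (ZMod 2) M (f (sg b))) ∘ₗ
    (Finsupp.lapply b)
  have hg : ∀ c, g c = ∑ b ∈ S, c b • f (sg b) := by
    intro c
    simp [g, LinearMap.sum_apply]
  rw [← hg]
  refine map_eq (S := T) ?_ hc
  intro l hl
  rw [hg]
  by_cases hS : l ∈ S
  · rw [Finset.sum_eq_single l]
    · rw [sg_coeff, if_pos rfl, one_smul]
    · intro b _ hb
      rw [sg_coeff, if_neg (Ne.symm hb), zero_smul]
    · intro h; exact absurd hS h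
  · rw [hf l hl hS]
    symm
    refine Finset.sum_eq_zero ?_
    intro b hb
    rw [sg_coeff, if_neg, zero_smul]
    rintro rfl
    exact hS hb

theorem trace_cm (S : Finset (List X)) (hS : ∀ l, l ∈ S ↔ l ∈ Str X)
    {h : LC X →ₗ[ZMod 2] LC X} (hh : Hom1 h) : ∑ b ∈ S, (cm h (sg b)) b = 0 := by
  classical
  have hst : Str X ⊆ Srt X := by
    intro l hl
    exact List.Pairwise.imp (fun h => le_of_lt h) hl
  have h1 : ∀ b ∈ S, (bd (h (sg b))) b = ∑ b' ∈ S, (h (sg b)) b' * (bd (sg b')) b := by
    intro b hb
    have := sum_coeff S (T := Srt X) ((Finsupp.lapply b) ∘ₗ bd) (fun l hl hlS => by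
      have h2 := bd_bad l hl (fun h => hlS ((hS l).2 h))
      rw [spn, Finsupp.mem_supported] at h2
      rw [LinearMap.comp_apply, Finsupp.lapply_apply]
      by_contra hne
      exact h2 (Finset.mem_coe.2 (Finsupp.mem_support_iff.2 hne)) ((hS b).1 hb))
      (hh.srt b (hst ((hS b).1 hb)))
    simpa using this
  have h2 : ∀ b ∈ S, (h (bd (sg b))) b = ∑ b' ∈ S, (bd (sg b)) b' * (h (sg b')) b := by
    intro b hb
    have := sum_coeff S (T := Str X) ((Finsupp.lapply b) ∘ₗ h) (fun l hl hlS =>
      absurd ((hS l).2 hl) hlS) (bd_str b ((hS b).1 hb))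
    simpa using this
  have h3 : ∑ b ∈ S, (cm h (sg b)) b = ∑ b ∈ S, (∑ b' ∈ S, (h (sg b)) b' * (bd (sg b')) b +
      ∑ b' ∈ S, (bd (sg b)) b' * (h (sg b')) b) := by
    refine Finset.sum_congr rfl ?_
    intro b hb
    rw [cm_apply, Finsupp.add_apply, h1 b hb, h2 b hb]
  rw [h3, Finset.sum_add_distrib]
  have h4 : ∑ b ∈ S, ∑ b' ∈ S, (bd (sg b)) b' * (h (sg b')) b =
      ∑ b ∈ S, ∑ b' ∈ S, (h (sg b)) b' * (bd (sg b')) b := by
    rw [Finset.sum_comm]
    refine Finset.sum_congr rfl fun b _ => Finset.sum_congr rfl fun b' _ => mul_comm _ _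
  rw [h4]
  exact add_self' _

theorem hasFP_of_van [Finite X] (ψ : X →o X) (c : X) {s : ℕ} (hs : Nat.card X ≤ s)
    (h : Van s (push ψ + push (fun _ : X => c))) : HasFP ψ := by
  classical
  cases nonempty_fintype X
  by_contra hno
  have hno' : ∀ x, ψ x ≠ x := fun x hx => hno ⟨x, hx⟩
  obtain ⟨B, k, hB, hk, hv, he⟩ := h
  set S : Finset (List X) := (str_finite (X := X)).toFinset with hSdef
  have hS : ∀ l, l ∈ S ↔ l ∈ Str X := fun l => Set.Finite.mem_toFinset _
  have h1 : ∑ b ∈ S, ((push ψ + push (fun _ : X => c)) (sg b)) b = 0 := by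
    rw [he, ← trace_cm S hS hk]
    refine Finset.sum_congr rfl ?_
    intro b hb
    have hlen : b.length ≤ s := by
      have := (str_nodup ((hS b).1 hb)).length_le_card
      rw [Nat.card_eq_fintype_card] at hs
      omega
    rw [LinearMap.add_apply, hv b hlen, zero_add]
  have h2 : ∑ b ∈ S, ((push ψ + push (fun _ : X => c)) (sg b)) b =
      ∑ b ∈ S, (push ψ (sg b)) b + ∑ b ∈ S, (push (fun _ : X => c) (sg b)) b := by
    rw [← Finset.sum_add_distrib]; rfl
  have hnil : ([] : List X) ∈ S := (hS _).2 List.Pairwise.nil
  have hc : [c] ∈ S := (hS _).2 (by simp [Str])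
  have h3 : ∑ b ∈ S, (push ψ (sg b)) b = 1 := by
    rw [Finset.sum_eq_single []]
    · simp [sg_coeff]
    · intro b _ hb
      rw [push_sg, sg_coeff, if_neg]
      intro heq
      cases b with
      | nil => exact hb rfl
      | cons x l => exact hno' x (by simpa using (List.cons.inj heq).1)
    · intro h; exact absurd hnil h
  have h4 : ∑ b ∈ S, (push (fun _ : X => c) (sg b)) b = 0 := by
    have h5 : ∑ b ∈ S, (push (fun _ : X => c) (sg b)) b =
        ∑ b ∈ ({[], [c]} : Finset (List X)), (push (fun _ : X => c) (sg b)) b := by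
      symm
      refine Finset.sum_subset ?_ ?_
      · intro b hb
        simp only [Finset.mem_insert, Finset.mem_singleton] at hb
        rcases hb with rfl | rfl
        · exact hnil
        · exact hc
      · intro b hb hb'
        rw [push_sg, sg_coeff, if_neg]
        intro heq
        apply hb'
        match b with
        | [] => simp
        | [x] =>
          have : c = x := by simpa using heq
          simp [this]
        | x :: y :: l =>
          exfalso
          have h6 : c = x := (List.cons.inj heq).1
          have h7 : c = y := (List.cons.inj (List.cons.inj heq).2).1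
          have := (str_cons.1 ((hS _).1 hb)).1 y (by simp)
          rw [← h6, ← h7] at this
          exact lt_irrefl _ this
    rw [h5, Finset.sum_pair (by simp)]
    simp only [push_sg, List.map_nil, List.map_cons, sg_coeff, if_true]
    exact add_self' _
  rw [h2, h3, h4] at h1
  exact absurd h1 (by decide)

end trace

end Pool.Agent.Dist96500d
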