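import Pool.Agent.W_MP_96500d_co.Nilp

/-! Sections of multi-variable order-preserving maps and words in them. -/

set_option autoImplicit false
set_option linter.unusedSectionVars false
set_option linter.deprecated false

namespace Pool.Agent.Dist96500d

open Relation

section words
variable {I X : Type*} [PartialOrder X]

/-- the map with all inputs equal -/
def diag (F : (I → X) →o X) : X →o X where
  toFun x := F (fun _ => x)
  monotone' := by
    intro x y h
    exact F.monotone (fun _ => h)

@[simp] theorem diag_apply (F : (I → X) →o X) (x : X) : diag F x = F (fun _ => x) := rfl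

variable [DecidableEq I]

/-- the section of `F` in slot `i` with the other inputs frozen at `c` -/
def sec (F : (I → X) →o X) (i : I) (c : I → X) : X →o X where
  toFun x := F (Function.update c i x)
  monotone' := by
    intro x y h
    exact F.monotone (update_le_update_iff.2 ⟨h, fun _ _ => le_rfl⟩)

@[simp] theorem sec_apply (F : (I → X) →o X) (i : I) (c : I → X) (x : X) :
    sec F i c x = F (Function.update c i x) := rfl

/-- `g` is a composite of sections of `F` in the slots listed in the word
(the head of the word is applied last) -/
def IsWord (F : (I → X) →o X) : List I → (X →o X) → Prop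
  | [], g => g = 1
  | i :: w, g => ∃ c g', IsWord F w g' ∧ g = sec F i c * g'

variable {F : (I → X) →o X}

theorem IsWord.nil : IsWord F [] (1 : X →o X) := rfl

theorem IsWord.cons (i : I) (c : I → X) {w : List I} {g : X →o X} (h : IsWord F w g) :
    IsWord F (i :: w) (sec F i c * g) := ⟨c, g, h, rfl⟩

theorem IsWord.single (i : I) (c : I → X) : IsWord F [i] (sec F i c) :=
  ⟨c, 1, rfl, by simp⟩

theorem IsWord.append {u v : List I} {f g : X →o X} (hf : IsWord F u f) (hg : IsWord F v g) :
    IsWord F (u ++ v) (f * g) := by
  induction u generalizing f with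
  | nil =>
    have : f = 1 := hf
    subst this
    simpa using hg
  | cons i u ih =>
    obtain ⟨c, f', hf', rfl⟩ := hf
    exact ⟨c, f' * g, ih hf', by rw [mul_assoc]⟩

theorem IsWord.split {u v : List I} {h : X →o X} (hh : IsWord F (u ++ v) h) :
    ∃ f g, IsWord F u f ∧ IsWord F v g ∧ h = f * g := by
  induction u generalizing h with
  | nil => exact ⟨1, h, rfl, hh, by simp⟩
  | cons i u ih =>
    obtain ⟨c, h', hh', rfl⟩ := hh
    obtain ⟨f, g, hf, hg, rfl⟩ := ih hh'
    exact ⟨sec F i c * f, g, hf.cons i c, hg, by rw [mul_assoc]⟩

theorem IsWord.pow {u : List I} {f : X →o X} (hf : IsWord F u f) (n : ℕ) :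
    IsWord F (List.flatten (List.replicate n u)) (f ^ n) := by
  induction n with
  | zero => simpa using IsWord.nil
  | succ n ih =>
    rw [pow_succ', List.replicate_succ, List.flatten_cons]
    exact hf.append ih

theorem IsWord.replicate_pow {i : I} {l : ℕ} {f : X →o X} (hf : IsWord F (List.replicate l i) f)
    (n : ℕ) : IsWord F (List.replicate (n * l) i) (f ^ n) := by
  have := hf.pow n
  rwa [List.flatten_replicate_replicate] at this

/-- there is a word map for every word, with prescribed constants -/
theorem exists_isWord (F : (I → X) →o X) (c : I → X) (w : List I) : ∃ g, IsWord F w g := by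
  induction w with
  | nil => exact ⟨1, IsWord.nil⟩
  | cons i w ih =>
    obtain ⟨g, hg⟩ := ih
    exact ⟨_, hg.cons i c⟩

theorem IsWord.connIn [Finite I] (hX : IsConn X) {w : List I} {f g : X →o X}
    (hf : IsWord F w f) (hg : IsWord F w g) : ConnIn {h | IsWord F w h} f g := by
  induction w generalizing f g with
  | nil =>
    have h1 : f = 1 := hf
    have h2 : g = 1 := hg
    rw [h1, h2]; exact ConnIn.refl _
  | cons i w ih =>
    obtain ⟨c, f', hf', rfl⟩ := hf
    obtain ⟨c', g', hg', rfl⟩ := hg
    have h1 : ConnIn {h | IsWord F (i :: w) h} (sec F i c * f') (sec F i c * g') := by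
      refine (ih hf' hg').map (f := fun h => sec F i c * h) ?_ ?_
      · intro a b hab; exact OrderHom.comp_mono le_rfl hab
      · intro h hh; exact IsWord.cons i c hh
    have h2 : Conn c c' := Conn.pi (fun i => hX (c i) (c' i))
    have h3 : ConnIn (Set.univ : Set (I → X)) c c' := (h2.connIn (Set.mem_univ _)
      (fun _ _ _ _ => Set.mem_univ _)).1
    have h4 : ConnIn {h | IsWord F (i :: w) h} (sec F i c * g') (sec F i c' * g') := by
      refine h3.map (f := fun c => sec F i c * g') ?_ ?_
      · intro a b hab
        have : sec F i a ≤ sec F i b := fun x => F.monotone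
          (update_le_update_iff.2 ⟨le_rfl, fun j _ => hab j⟩)
        exact OrderHom.comp_mono this le_rfl
      · intro c _; exact IsWord.cons i c hg'
    exact h1.trans h4

theorem IsWord.conn [Finite I] (hX : IsConn X) {w : List I} {f g : X →o X}
    (hf : IsWord F w f) (hg : IsWord F w g) : Conn f g := (hf.connIn hX hg).conn

end words

end Pool.Agent.Dist96500d
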